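import Pool.Agent.MP_f37147_nt.G.St

/- Prime pairs over `F[X]`, general linear forms: the regions of the decomposition. -/

set_option autoImplicit false
set_option linter.unusedSectionVars false

namespace Pool.Agent.PPg

open Polynomial Finset Pool.Agent.MP_4fffd4_nt Pool.Agent.MP_c853c5_nt Pool.Agent.MP_43e117_nt
open Pool.Agent.PPf
open scoped BigOperators

namespace CaseGX

open TReg

variable {F : Type} [Field F] [Fintype F] {h u u' : F[X]} {n s N : ℕ} {Ψ : F[X] → ℝ}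

theorem sumL {ι : Type*} (t : Finset ι) (A : ι → F[X] → ℝ) (B : F[X] → ℝ) :
    cG h u u' N Ψ (fun f => ∑ x ∈ t, A x f) B = ∑ x ∈ t, cG h u u' N Ψ (A x) B := by
  rw [cG, lf_sum, CaseX.tw_sum, corr_sum_left]; rfl

theorem sumR {ι : Type*} (t : Finset ι) (A : F[X] → ℝ) (B : ι → F[X] → ℝ) :
    cG h u u' N Ψ A (fun f => ∑ x ∈ t, B x f) = ∑ x ∈ t, cG h u u' N Ψ A (B x) := by
  rw [cG, lf_sum, corr_sum_right]; rfl

theorem mulL (c : ℝ) (A B : F[X] → ℝ) :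
    cG h u u' N Ψ (fun f => c * A f) B = c * cG h u u' N Ψ A B := by
  rw [cG, lf_smul, CaseX.tw_mul, corr_mul_left]; rfl

theorem mulR (c : ℝ) (A B : F[X] → ℝ) :
    cG h u u' N Ψ A (fun f => c * B f) = c * cG h u u' N Ψ A B := by
  rw [cG, lf_smul, corr_mul_right]; rfl

theorem msumL {ι : Type*} (t : Finset ι) (A : ι → F[X] → ℝ) (B : F[X] → ℝ) :
    mG h u u' N Ψ (fun f => ∑ x ∈ t, A x f) B = ∑ x ∈ t, mG h u u' N Ψ (A x) B := by
  simp only [mG, lf_sum, CaseX.tw_sum, mcorr, Finset.sum_mul, Finset.expect_sum_comm]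

theorem msumR {ι : Type*} (t : Finset ι) (A : F[X] → ℝ) (B : ι → F[X] → ℝ) :
    mG h u u' N Ψ A (fun f => ∑ x ∈ t, B x f) = ∑ x ∈ t, mG h u u' N Ψ A (B x) := by
  simp only [mG, lf_sum, mcorr, Finset.mul_sum, Finset.expect_sum_comm]

theorem mmulL (c : ℝ) (A B : F[X] → ℝ) :
    mG h u u' N Ψ (fun f => c * A f) B = c * mG h u u' N Ψ A B := by
  simp only [mG, lf_smul, CaseX.tw_mul, mcorr, Finset.mul_expect, mul_assoc]

theorem mmulR (c : ℝ) (A B : F[X] → ℝ) :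
    mG h u u' N Ψ A (fun f => c * B f) = c * mG h u u' N Ψ A B := by
  simp only [mG, lf_smul, mcorr, Finset.mul_expect, mul_left_comm _ c]

/-- The standing assumptions. -/
structure St (Ψ : F[X] → ℝ) (h u u' : F[X]) (n s : ℕ) : Prop where
  hu : u ∈ monF F s
  hu' : u' ∈ monF F s
  hn : h.degree < (n + s : ℕ)
  hΨ : ∀ f ∈ monF F (n + s), |Ψ f| ≤ 1

theorem congrL (S : St Ψ h u u' n s) (B : F[X] → ℝ) {A A' : F[X] → ℝ}
    (H : ∀ f ∈ monF F n, A f = A' f) :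
    cG h u u' (n + s) Ψ A B = cG h u u' (n + s) Ψ A' B :=
  corr_congr_left _ fun g hg => by rw [tw, tw, lf_congr S.hu H hg]

theorem congrR (S : St Ψ h u u' n s) (A : F[X] → ℝ) {B B' : F[X] → ℝ}
    (H : ∀ f ∈ monF F n, B f = B' f) :
    cG h u u' (n + s) Ψ A B = cG h u u' (n + s) Ψ A B' :=
  corr_congr_right S.hn _ fun _ hg => lf_congr S.hu' H hg

theorem lf_sq {v : F[X]} (hv : v ∈ monF F s) {A A' : F[X] → ℝ} {c : ℝ} (hc : 0 ≤ c) {T : ℕ}
    (H : ∀ f ∈ monF F n, |A f - A' f| ≤ ind (Sq T f) * c) {g : F[X]} (hg : g ∈ monF F (n + s)) :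
    |lf v A g - lf v A' g| ≤ ind (Sq T g) * c := by
  rw [lf_sub]
  refine lf_bd (c := fun g => ind (Sq T g) * c) hv (fun g => mul_nonneg (ind_nonneg _) hc)
    (fun L hL => (H L hL).trans (mul_le_mul_of_nonneg_right ?_ hc)) hg
  by_cases e : Sq T L
  · obtain ⟨p, p1, p2, p3⟩ := e
    rw [ind_pos (P := Sq T (v * L)) ⟨p, p1, p2, p3.mul_left v⟩]
    exact ind_le_one _
  · rw [ind_neg e]
    exact ind_nonneg _

theorem pertL [CharP F 2] (S : St Ψ h u u' n s) {A A' B : F[X] → ℝ} {a c : ℝ} (ha : 0 ≤ a)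
    (hc : 0 ≤ c) {T : ℕ} (hB : ∀ f ∈ monF F n, |B f| ≤ a)
    (H : ∀ f ∈ monF F n, |A f - A' f| ≤ ind (Sq T f) * c) :
    |cG h u u' (n + s) Ψ A B - cG h u u' (n + s) Ψ A' B| ≤
      a * c * (2 * qq F (n + s) / qq F T) :=
  pert_left S.hn ha hc (fun _ hg => lf_bd (c := fun _ => a) S.hu' (fun _ => ha) hB hg)
    fun _ hg => CaseX.abs_tw_sub S.hΨ hg (lf_sq S.hu hc H hg)

theorem pertR (S : St Ψ h u u' n s) {A B B' : F[X] → ℝ} {a c : ℝ} (ha : 0 ≤ a)
    (hc : 0 ≤ c) {T : ℕ} (hA : ∀ f ∈ monF F n, |A f| ≤ a)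
    (H : ∀ f ∈ monF F n, |B f - B' f| ≤ ind (Sq T f) * c) :
    |cG h u u' (n + s) Ψ A B - cG h u u' (n + s) Ψ A B'| ≤
      a * c * (2 * qq F (n + s) / qq F T) :=
  pert_right S.hn ha hc
    (fun _ hg => CaseX.abs_tw S.hΨ hg (lf_bd (c := fun _ => a) S.hu (fun _ => ha) hA hg))
    fun _ hg => lf_sq S.hu' hc H hg

variable {R T G E' E : ℕ} {Q δ : ℝ} {ν κ : F[X] → ℝ}

theorem regA [CharP F 2] (S : St Ψ h u u' n s) (hδ : 0 ≤ δ) (hE : EstG Ψ h u u' n s G E' E δ)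
    (hν : Lev n R Q ν κ) (hτ : DivB F Q n) (hQ : (n : ℝ) + 2 ≤ Q) {i i' : ℕ}
    (hi : i + (R + 2 * T) ≤ n) (hi' : i' + (R + 2 * T) ≤ n)
    (hc : i + i' + 2 * (R + 2 * T) + E' ≤ n ∨
      (2 * (i + (R + 2 * T)) ≤ n + G ∧ 2 * (i' + (R + 2 * T)) ≤ n + G)) :
    |cG h u u' (n + s) Ψ (nl ν i) (nl ν i') - qq F (n + s) *
      mG h u u' (5 * n) Ψ (tr κ (R + 2 * T) i) (tr κ (R + 2 * T) i')| ≤
      Q ^ 6 * δ + 4 * Q ^ 4 * (2 * qq F (n + s) / qq F T) := by
  have hQ0 : 0 < Q := one_pos.trans_le hτ.one_le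
  have h1 := pertL S (by positivity) (by positivity) (fun f hf => abs_nl_le hν hτ i' hf)
    fun f hf => nl_sub_tr (T := T) hν hτ i hf
  have h2 := pertR S (by positivity) (by positivity)
    (fun f hf => abs_tr_le hν hτ (R + 2 * T) i hf) fun f hf => nl_sub_tr (T := T) hν hτ i' hf
  have h3 : |cG h u u' (n + s) Ψ (tr κ (R + 2 * T) i) (tr κ (R + 2 * T) i') - qq F (n + s) *
      mG h u u' (5 * n) Ψ (tr κ (R + 2 * T) i) (tr κ (R + 2 * T) i')| ≤ Q ^ 6 * δ := by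
    obtain ⟨c, a1, a2⟩ := tr_eq hν hτ hi
    obtain ⟨c', a1', a2'⟩ := tr_eq hν hτ hi'
    have e : cG h u u' (n + s) Ψ (tr κ (R + 2 * T) i) (tr κ (R + 2 * T) i') - qq F (n + s) *
        mG h u u' (5 * n) Ψ (tr κ (R + 2 * T) i) (tr κ (R + 2 * T) i') =
        ∑ t ∈ range (R + 2 * T + 1), ∑ t' ∈ range (R + 2 * T + 1), Q ^ 4 *
          (cG h u u' (n + s) Ψ (up c (i + t)) (up c' (i' + t')) -
            qq F (n + s) * mG h u u' (5 * n) Ψ (up c (i + t)) (up c' (i' + t'))) := by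
      rw [a2, a2', sumL, msumL]
      simp only [mulL, mmulL, sumR, msumR, mulR, mmulR, Finset.mul_sum, ← Finset.sum_sub_distrib]
      exact Finset.sum_congr rfl fun _ _ => Finset.sum_congr rfl fun _ _ => by ring
    have hR : ((R + 2 * T + 1 : ℕ) : ℝ) ≤ Q := le_trans (by exact_mod_cast (by omega)) hQ
    rw [e]
    refine (Finset.abs_sum_le_sum_abs _ _).trans ((Finset.sum_le_card_nsmul _ _
      (Q * (Q ^ 4 * δ)) fun t ht => (Finset.abs_sum_le_sum_abs _ _).trans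
        ((Finset.sum_le_card_nsmul _ _ (Q ^ 4 * δ) fun t' ht' => ?_).trans ?_)).trans ?_)
    · rw [abs_mul, abs_of_pos (by positivity)]
      have := mem_range.1 ht
      have := mem_range.1 ht'
      exact mul_le_mul_of_nonneg_left (hE.K _ _ _ _ (a1 t ht) (a1' t' ht') (by omega))
        (by positivity)
    · rw [card_range, nsmul_eq_mul]
      gcongr
    · rw [card_range, nsmul_eq_mul]
      calc _ ≤ Q * (Q * (Q ^ 4 * δ)) := by gcongr
        _ = _ := by ring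
  have h4 := abs_sub_le (cG h u u' (n + s) Ψ (nl ν i) (nl ν i'))
    (cG h u u' (n + s) Ψ (tr κ (R + 2 * T) i) (nl ν i'))
    (qq F (n + s) * mG h u u' (5 * n) Ψ (tr κ (R + 2 * T) i) (tr κ (R + 2 * T) i'))
  have h5 := abs_sub_le (cG h u u' (n + s) Ψ (tr κ (R + 2 * T) i) (nl ν i'))
    (cG h u u' (n + s) Ψ (tr κ (R + 2 * T) i) (tr κ (R + 2 * T) i'))
    (qq F (n + s) * mG h u u' (5 * n) Ψ (tr κ (R + 2 * T) i) (tr κ (R + 2 * T) i'))
  linarith [show Q * Q * (2 * (Q * Q)) * (2 * qq F (n + s) / qq F T) =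
    2 * Q ^ 4 * (2 * qq F (n + s) / qq F T) by ring]

variable {ι : Type} {Z : Finset ι} {a b α : ι → F[X] → ℝ}

theorem side (S : St Ψ h u u' n s) (hs : Sieve n R Q ν κ Z a b α) (hτ : DivB F Q n)
    (hQ : (n : ℝ) + 2 ≤ Q) {i m : ℕ} (hm : i + m = n) (hi : R + 2 * T ≤ i) {A : F[X] → ℝ}
    (hA : ∀ f ∈ monF F n, |A f| ≤ Q) {Y : ℝ} (hY0 : 0 ≤ Y)
    (hY : ∀ σ j, σ < T → j ≤ R → ∀ α₂ β₂ : F[X] → ℝ, Bd (m + 2 * σ) α₂ →
      (∀ e ∈ monF F j, |β₂ e| ≤ ind (Squarefree e)) →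
      |cG h u u' (n + s) Ψ A (cv3 lam α₂ β₂ (i - j - 2 * σ) (m + 2 * σ) j)| ≤ Y) :
    |cG h u u' (n + s) Ψ A (nl ν i)| ≤
      qq F T * Q ^ 4 * Y + Q ^ 8 * (2 * qq F (n + s) / qq F T) := by
  have hQ0 : 0 < Q := one_pos.trans_le hτ.one_le
  have hq := qq_pos (F := F) (n + s)
  have hq' := qq_pos (F := F) T
  have hR : (R : ℝ) + 2 ≤ Q := le_trans (by exact_mod_cast (by omega)) hQ
  rw [congrR S A fun f hf => nl_eq_cv hs hm hf, sumR]
  refine (Finset.abs_sum_le_sum_abs _ _).trans ((Finset.sum_le_card_nsmul _ _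
    (qq F T * Q ^ 3 * Y + Q ^ 7 * (2 * qq F (n + s) / qq F T)) fun z hz => ?_).trans ?_)
  · obtain ⟨b', c, h1, h2, h3⟩ := cv_eq_cv3 (T := T) (hs.leva z hz) (b := b z) (m := m)
      (fun e he => hs.bdb z hz e (mem_monF.1 he).1 (by rw [(mem_monF.1 he).2]; omega)) hτ hm hi
    have h4 := pertR S hQ0.le (by positivity) hA h3
    have h5 : |cG h u u' (n + s) Ψ A fun f => ∑ σ ∈ range T, ∑ p ∈ monF F σ, ∑ j ∈ range (R + 1),
        cv3 lam (b' p) (c p) (i - j - 2 * σ) (m + 2 * σ) j f| ≤ qq F T * Q ^ 3 * Y := by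
      rw [sumR]
      refine (Finset.abs_sum_le_sum_abs _ _).trans ((Finset.sum_le_sum
        (g := fun σ => qq F σ * (Q ^ 3 * Y)) fun σ hσ => ?_).trans ?_)
      · rw [sumR, ← sum_one_monF, Finset.sum_mul]
        refine (Finset.abs_sum_le_sum_abs _ _).trans (Finset.sum_le_sum fun p _ => ?_)
        rw [sumR]
        refine (Finset.abs_sum_le_sum_abs _ _).trans ((Finset.sum_le_card_nsmul _ _
          (Q ^ 2 * Y) fun j hj => ?_).trans ?_)
        · rw [funext (cv3_scale hQ0.ne' lam (b' p) (c p) _ _ _), mulR, abs_mul,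
            abs_of_pos (by positivity)]
          exact mul_le_mul_of_nonneg_left (hY σ j (mem_range.1 hσ)
            (Nat.lt_succ_iff.1 (mem_range.1 hj)) _ _
            (fun e _ => abs_div_le hQ0 (by rw [mul_one]; exact h1 p e))
            fun e _ => abs_div_le hQ0 (h2 p e)) (by positivity)
        · rw [card_range, nsmul_eq_mul]
          push_cast
          calc _ ≤ Q * (Q ^ 2 * Y) := by gcongr; linarith
            _ = _ := by ring
      · rw [← Finset.sum_mul, mul_assoc]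
        exact mul_le_mul_of_nonneg_right (sum_range_qq T) (by positivity)
    have h6 : Q * ((R + 2) * Q ^ 3 * Q ^ 2) * (2 * qq F (n + s) / qq F T) ≤
        Q ^ 7 * (2 * qq F (n + s) / qq F T) := by
      calc _ ≤ Q * (Q * Q ^ 3 * Q ^ 2) * (2 * qq F (n + s) / qq F T) := by gcongr
        _ = _ := by ring
    have h7 := abs_sub_abs_le_abs_sub
      (cG h u u' (n + s) Ψ A (cv (fun d => mu d * a z d) (b z) i m))
      (cG h u u' (n + s) Ψ A fun f => ∑ σ ∈ range T, ∑ p ∈ monF F σ, ∑ j ∈ range (R + 1),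
        cv3 lam (b' p) (c p) (i - j - 2 * σ) (m + 2 * σ) j f)
    linarith
  · rw [nsmul_eq_mul]
    calc _ ≤ Q * (qq F T * Q ^ 3 * Y + Q ^ 7 * (2 * qq F (n + s) / qq F T)) := by
          gcongr; exact hs.cardZ
      _ = _ := by ring

theorem regU [CharP F 2] (S : St Ψ h u u' n s) (hδ : 0 ≤ δ) (hE : EstG Ψ h u u' n s G E' E δ)
    (hs : Sieve n R Q ν κ Z a b α) (hτ : DivB F Q n) (hQ : (n : ℝ) + 2 ≤ Q) {i i' : ℕ}
    (hi : i ≤ n) (h1 : n + E' + 2 * (R + 2 * T) ≤ 2 * i)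
    (h2 : 2 * i' + 2 * (R + 2 * T) + E' ≤ n) :
    |cG h u u' (n + s) Ψ (nl ν i') (nl ν i)| ≤
      qq F T * Q ^ 7 * δ + (Q ^ 11 + 2 * Q ^ 4) * (2 * qq F (n + s) / qq F T) := by
  have hQ0 : 0 < Q := one_pos.trans_le hτ.one_le
  have hq := qq_pos (F := F) (n + s)
  have hq' := qq_pos (F := F) T
  have h3 := pertL S (by positivity) (by positivity) (fun f hf => abs_nl_le hs.lev hτ i hf)
    fun f hf => nl_sub_tr (T := T) hs.lev hτ i' hf
  obtain ⟨c, a1, a2⟩ := tr_eq (R' := R + 2 * T) (i := i') hs.lev hτ (by omega)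
  have h4 : |cG h u u' (n + s) Ψ (tr κ (R + 2 * T) i') (nl ν i)| ≤
      Q * (Q ^ 2 * (qq F T * Q ^ 4 * δ + Q ^ 8 * (2 * qq F (n + s) / qq F T))) := by
    rw [a2, sumL]
    refine (Finset.abs_sum_le_sum_abs _ _).trans ((Finset.sum_le_card_nsmul _ _ (Q ^ 2 *
      (qq F T * Q ^ 4 * δ + Q ^ 8 * (2 * qq F (n + s) / qq F T))) fun t ht => ?_).trans ?_)
    · have := mem_range.1 ht
      rw [mulL, abs_mul, abs_of_pos (by positivity)]
      refine mul_le_mul_of_nonneg_left (side (m := n - i) S hs hτ hQ (by omega) (by omega)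
        (fun f hf => ?_) hδ fun σ j hσ hj α₂ β₂ b1 b2 =>
          hE.U _ _ _ _ (by omega) (by omega) (by omega) (by omega) _ _ _ (a1 t ht) b1
            fun e he => (b2 e he).trans (ind_le_one _)) (by positivity)
      simpa using abs_up_le hτ (a1 t ht) (mem_monF.1 hf).1.ne_zero (mem_monF.1 hf).2.le
    · have hR : ((R + 2 * T + 1 : ℕ) : ℝ) ≤ Q := le_trans (by exact_mod_cast (by omega)) hQ
      rw [card_range, nsmul_eq_mul]
      gcongr
  have h5 := abs_sub_abs_le_abs_sub (cG h u u' (n + s) Ψ (nl ν i') (nl ν i))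
    (cG h u u' (n + s) Ψ (tr κ (R + 2 * T) i') (nl ν i))
  linarith [show Q * Q * (2 * (Q * Q)) * (2 * qq F (n + s) / qq F T) + Q * (Q ^ 2 *
    (qq F T * Q ^ 4 * δ + Q ^ 8 * (2 * qq F (n + s) / qq F T))) =
    qq F T * Q ^ 7 * δ + (Q ^ 11 + 2 * Q ^ 4) * (2 * qq F (n + s) / qq F T) by ring]

theorem regL (S : St Ψ h u u' n s) (hδ : 0 ≤ δ) (hE : EstG Ψ h u u' n s G E' E δ)
    (hs : Sieve n R Q ν κ Z a b α) (hτ : DivB F Q n) (hQ : (n : ℝ) + 2 ≤ Q) {i i' m m' k : ℕ}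
    (hm : i + m = n) (hm' : i' + m' = n) (hi : R + 2 * T ≤ i) (hk : k = i' ∨ k = m')
    (hc : m + 2 * T + E ≤ k ∧ 2 * k + 4 * R + E' ≤ n ∨
      m + (R + 2 * T) + E ≤ k ∧ 2 * k + E' ≤ n) :
    |cG h u u' (n + s) Ψ (nl ν i') (nl ν i)| ≤
      qq F T * Q ^ 7 * δ + Q ^ 11 * (2 * qq F (n + s) / qq F T) := by
  have hQ0 : 0 < Q := one_pos.trans_le hτ.one_le
  have hq := qq_pos (F := F) (n + s)
  have hq' := qq_pos (F := F) T
  rw [congrL S _ fun f hf => nl_eq_cv hs hm' hf, sumL]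
  refine (Finset.abs_sum_le_sum_abs _ _).trans ((Finset.sum_le_card_nsmul _ _ (Q ^ 2 *
    (qq F T * Q ^ 4 * δ + Q ^ 8 * (2 * qq F (n + s) / qq F T))) fun z hz => ?_).trans ?_)
  · have b1 : Bd i' fun d => mu d * a z d / Q := fun d hd => abs_div_le hQ0 (by
      rw [abs_mul, mul_comm Q]
      exact mul_le_mul (abs_mu_le d) ((hs.leva z hz).abs_le (mem_monF.1 hd).1
        (by rw [(mem_monF.1 hd).2]; omega)) (abs_nonneg _) zero_le_one)
    have b2 : Bd m' fun d => b z d / Q := fun d hd => abs_div_le hQ0 (by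
      rw [mul_one]
      exact hs.bdb z hz d (mem_monF.1 hd).1 (by rw [(mem_monF.1 hd).2]; omega))
    rw [funext (cv_scale hQ0.ne' (fun d => mu d * a z d) (b z) i' m'), mulL,
      abs_mul, abs_of_pos (by positivity)]
    refine mul_le_mul_of_nonneg_left (side S hs hτ hQ hm hi (fun f hf => ?_) hδ
      fun σ j hσ hj α₂ β₂ b3 b4 => ?_) (by positivity)
    · simpa using abs_cv_le hτ b1 b2 hm'.le f
    · rcases hk with rfl | rfl
      · rw [_root_.funext (cv_comm _ _ k m')]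
        exact hE.L _ _ _ _ _ (by omega) (by omega) (by omega) _ _ _ _ b2 b1 b3 b4
      · exact hE.L _ _ _ _ _ (by omega) (by omega) (by omega) _ _ _ _ b1 b2 b3 b4
  · rw [nsmul_eq_mul]
    calc _ ≤ Q * (Q ^ 2 * (qq F T * Q ^ 4 * δ + Q ^ 8 * (2 * qq F (n + s) / qq F T))) := by
          gcongr; exact hs.cardZ
      _ = _ := by ring

end CaseGX

variable (F : Type) [Field F] [Fintype F] [CharP F 2]

theorem sCaseG : SCaseG F := by
  intro Ψ ν κ h u u' n s R T G E' E i i' Q δ ι Z a b α hu hu' hn' hδ hE hΨ hs hτ hQ hG hG' hEE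
    hE1 hi hi'
  have S : CaseGX.St Ψ h u u' n s :=
    ⟨hu, hu', degree_le_natDegree.trans_lt (by exact_mod_cast (by omega)), hΨ⟩
  have hQ1 := hτ.one_le
  have hq : 0 < 2 * qq F (n + s) / qq F T := by
    have := qq_pos (F := F) (n + s)
    have := qq_pos (F := F) T
    positivity
  have h4 : Q ^ 4 ≤ Q ^ 11 := pow_le_pow_right₀ hQ1 (by norm_num)
  have h11 : 0 ≤ Q ^ 11 * (2 * qq F (n + s) / qq F T) := by positivity
  have h4' := mul_le_mul_of_nonneg_right h4 hq.le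
  by_cases hA : i + i' + 2 * (R + 2 * T) + E' ≤ n ∨ 2 * (i + (R + 2 * T)) ≤ n + G
  · refine Or.inr (Or.inl ((CaseGX.regA S hδ hE hs.lev hτ hQ (by omega) (by omega)
      (by omega)).trans ?_))
    have : Q ^ 6 * δ ≤ qq F T * Q ^ 7 * δ := by
      calc _ = 1 * Q ^ 6 * δ := by ring
        _ ≤ _ := by
          gcongr
          · exact (qq_pos _).le
          · exact one_le_qq _
          · norm_num
    linarith
  by_cases hU : 2 * i' + 2 * (R + 2 * T) + E' ≤ n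
  · exact Or.inr (Or.inr ⟨by omega, (CaseGX.regU S hδ hE hs hτ hQ hi (by omega) hU).trans
      (by linarith)⟩)
  by_cases hS : Thin n G (R + 2 * T) E' (E + 2 * T) i i'
  · exact Or.inl hS
  unfold Thin at hS
  rw [max_eq_left hi', min_eq_right hi'] at hS
  refine Or.inr (Or.inr ⟨by omega, ?_⟩)
  by_cases hL : 2 * i' + E' ≤ n
  · exact (CaseGX.regL (T := T) (m := n - i) (m' := n - i') (k := i') S hδ hE hs hτ hQ
      (by omega) (by omega) (by omega) (Or.inl rfl) (by omega)).trans (by linarith)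
  · exact (CaseGX.regL (T := T) (m := n - i) (m' := n - i') (k := n - i') S hδ hE hs hτ hQ
      (by omega) (by omega) (by omega) (Or.inr rfl) (by omega)).trans (by linarith)

end Pool.Agent.PPg
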