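import Pool.Agent.MP_f37147_nt.G.St

set_option autoImplicit false
set_option linter.unusedSectionVars false

namespace Pool.Agent.PPg

open Polynomial Finset Pool.Agent.MP_4fffd4_nt Pool.Agent.MP_c853c5_nt Pool.Agent.MP_43e117_nt
open Pool.Agent.PPf
open scoped BigOperators

namespace CentGX

variable {F : Type} [Field F] [Fintype F]

theorem mean (h : F[X]) {l l' I I' : ℕ} {M : F[X]} (hM : M.Monic) {Φ : F[X] → ℝ} (hΦ : Per M Φ)
    (hl : I + I' + M.natDegree ≤ l) (hl' : I + I' + M.natDegree ≤ l') (α β : F[X] → ℝ) :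
    𝔼 f : degreeLT F l, Φ f.1 * (up α I f.1 * up β I' (f.1 + h)) =
      𝔼 f : degreeLT F l', Φ f.1 * (up α I f.1 * up β I' (f.1 + h)) := by
  simp only [TK.up_mul, Finset.mul_sum]
  rw [Finset.expect_sum_comm, Finset.expect_sum_comm]
  refine Finset.sum_congr rfl fun A hA => ?_
  rw [Finset.expect_sum_comm, Finset.expect_sum_comm]
  refine Finset.sum_congr rfl fun B hB => ?_
  obtain ⟨h1, h2⟩ := mem_monF.1 hA
  obtain ⟨h3, h4⟩ := mem_monF.1 hB
  have hd : (M * A * B).natDegree = M.natDegree + I + I' := by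
    rw [(hM.mul h1).natDegree_mul h3, hM.natDegree_mul h1, h2, h4]
  have hp : Per (M * A * B) fun f => Φ f * (α A * β B * (ind (A ∣ f) * ind (B ∣ f + h))) := by
    intro f t
    have e : f + M * A * B * t + h = f + h + M * A * B * t := by ring
    have e1 : Φ (f + M * A * B * t) = Φ f := by
      rw [show M * A * B * t = M * (A * B * t) by ring]
      exact hΦ f _
    have d1 : A ∣ M * A * B * t := ⟨M * B * t, by ring⟩
    have d2 : B ∣ M * A * B * t := ⟨M * A * t, by ring⟩
    show Φ (f + M * A * B * t) * (α A * β B * (ind (A ∣ f + M * A * B * t) *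
      ind (B ∣ f + M * A * B * t + h))) = Φ f * (α A * β B * (ind (A ∣ f) * ind (B ∣ f + h)))
    rw [e, e1, TK.ind_iff (dvd_add_left d1), TK.ind_iff (dvd_add_left d2)]
  have e := expect_per ((hM.mul h1).mul h3).ne_zero hp (l := l) (l' := l') (by omega) (by omega) 0
  simpa only [zero_add] using e

/-- The restriction to arguments coprime to `M`. -/
noncomputable def cp (M : F[X]) (a : F[X] → ℝ) (d : F[X]) : ℝ := a d * ind (IsCoprime d M)

theorem cp_bd (M : F[X]) {a : F[X] → ℝ} {I : ℕ} (h : Bd I a) : Bd I (cp M a) := fun g hg => by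
  rw [cp, mul_comm]
  exact (TBasA.abs_ind_mul _ (h g hg)).trans ((mul_one _).trans_le (ind_le_one _))

theorem cp_cop {M : F[X]} {a : F[X] → ℝ} (d : F[X]) (h : cp M a d ≠ 0) : IsCoprime d M := by
  by_contra e
  exact h (by rw [cp, ind_neg e, mul_zero])

theorem red [CharP F 2] {u u' w w' h : F[X]} {n s R lo hi I I' : ℕ} {ι : Type} {Z : Finset ι}
    {M : ι → F[X]} {Φ : ι → F[X] → ℝ} (H : FamG u u' w w' h (n + s) R lo hi Z M Φ)
    (hu : u.Monic) (hu' : u'.Monic) (hn : I + I' + R ≤ 5 * n) (α β : F[X] → ℝ) :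
    cG h u u' (n + s) (tot Z Φ) (up α I) (up β I') -
        qq F (n + s) * mG h u u' (5 * n) (tot Z Φ) (up α I) (up β I') =
      ∑ z ∈ Z, CentX.LL (n + s) fun g =>
        Φ z g * (up (cp (M z) α) I g * up (cp (M z) β) I' (g + h)) := by
  have e : ∀ g, tw (tot Z Φ) (lf u (up α I)) g * lf u' (up β I') (g + h) =
      ∑ z ∈ Z, Φ z g * (up (cp (M z) α) I g * up (cp (M z) β) I' (g + h)) := by
    intro g
    rw [tw, tot, mul_assoc, Finset.sum_mul]
    refine Finset.sum_congr rfl fun z hz => ?_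
    by_cases h0 : Φ z g = 0
    · rw [h0, zero_mul, zero_mul]
    obtain ⟨f, rfl, h2⟩ := H.supp z hz g h0
    rw [H.add_eq, lf_mul hu, lf_mul hu',
      up_cop (u := u) (fun P hP e => H.hdv z hz P hP ((e.mul_right u').mul_left h))
        h2.of_mul_left_left,
      up_cop (u := u') (fun P hP e => H.hdv z hz P hP ((e.mul_left u).mul_left h))
        h2.of_mul_left_right]
    rfl
  simp only [cG, mG, corr, mcorr, e, CentX.LL]
  rw [Finset.sum_comm, Finset.expect_sum_comm, Finset.mul_sum, ← Finset.sum_sub_distrib]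
  refine Finset.sum_congr rfl fun z hz => ?_
  have hd := H.deg z hz
  rw [mean h (H.mon z hz) (H.per z hz) (l := 5 * n) (l' := 5 * (n + s)) (by omega) (by omega)]

theorem one {N R : ℕ} {M : F[X]} (hM : M.Monic) (hR : M.natDegree ≤ R) {Φ : F[X] → ℝ}
    (hΦ : Per M Φ) (hb : ∀ f, |Φ f| ≤ 1) (G : F[X] → ℝ) {δ : ℝ} (hδ : 0 ≤ δ)
    (hG : ∀ φ : F[X], |CentX.LL N fun f => ind (M ∣ f - φ) * G f| ≤ δ) :
    |CentX.LL N fun f => Φ f * G f| ≤ qq F R * δ := by
  have e : (fun f => Φ f * G f) = fun f => ∑ φ ∈ ltF F M.natDegree,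
      Φ φ * (ind (M ∣ f - φ) * G f) := by
    funext f
    rw [CentX.classes hM hΦ f, Finset.sum_mul]
    exact Finset.sum_congr rfl fun φ _ => mul_assoc _ _ _
  rw [e, CentX.LL_sum]
  have h1 : ∀ φ ∈ ltF F M.natDegree,
      |CentX.LL N fun f => Φ φ * (ind (M ∣ f - φ) * G f)| ≤ 1 * δ := by
    intro φ _
    rw [CentX.LL_mul, abs_mul]
    exact mul_le_mul (hb φ) (hG φ) (abs_nonneg _) zero_le_one
  refine (Finset.abs_sum_le_sum_abs _ _).trans ((Finset.sum_le_sum h1).trans ?_)
  rw [← Finset.sum_mul, sum_one_ltF]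
  exact mul_le_mul_of_nonneg_right (qq_mono hR) hδ

end CentGX

variable (F : Type) [Field F] [Fintype F] [CharP F 2]

theorem sCentG (h : SClassG F) : SCentG F := by
  intro t ht
  obtain ⟨n₀, H⟩ := h t ht
  refine ⟨n₀ + t.natDegree + 1,
    fun n hn u u' w w' s R lo hi ι Z M Φ hu hu' hR hF I I' α β hα hβ hI => ?_⟩
  have key : ∀ (u u' w w' : F[X]) (Φ : ι → F[X] → ℝ) (I I' : ℕ) (α β : F[X] → ℝ), u.Monic →
      u'.Monic → FamG u u' w w' t (n + s) R lo hi Z M Φ → Bd I α → Bd I' β → I' ≤ I →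
      2 * I ≤ n + n / 100000 →
      |cG t u u' (n + s) (tot Z Φ) (up α I) (up β I') -
        qq F (n + s) * mG t u u' (5 * n) (tot Z Φ) (up α I) (up β I')| ≤
        qq F (n + s) / qq F (n / 100000) := by
    intro u u' w w' Φ I I' α β hu hu' hF hα hβ h1 h2
    have hδ : 0 ≤ qq F (n + s) / qq F (3 * ((n + s) / 100000)) :=
      (div_pos (qq_pos _) (qq_pos _)).le
    rw [CentGX.red hF hu hu' (by omega)]
    refine (Finset.abs_sum_le_sum_abs _ _).trans ((Finset.sum_le_card_nsmul _ _ _ fun z hz =>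
      CentGX.one (hF.mon z hz) (hF.deg z hz) (hF.per z hz) (hF.toFam0.abs_le hz) _ hδ
        fun φ => ?_).trans ?_)
    · have hd := hF.deg z hz
      rw [← CentX.LL_eq t (n + s) (fun f => ind (M z ∣ f - φ))]
      exact H (n + s) (by omega) (M z) φ I I' _ _ (hF.mon z hz) (by omega)
        (fun P hP e => hF.hdv z hz P hP (e.mul_right _)) (CentGX.cp_bd _ hα) (CentGX.cp_bd _ hβ)
        CentGX.cp_cop CentGX.cp_cop h1 (by omega)
    · rw [nsmul_eq_mul]
      refine (mul_le_mul_of_nonneg_right hF.card (mul_nonneg (qq_pos R).le hδ)).trans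
        ((CentX.numer (by omega)).trans ?_)
      exact div_le_div_of_nonneg_left (qq_pos _).le (qq_pos _) (qq_mono (by omega))
  have m1 := (mem_monF.1 hu).1
  have m2 := (mem_monF.1 hu').1
  rcases hI with h0 | ⟨h1, h2⟩
  · rw [CentGX.red hF m1 m2 (by omega), Finset.sum_eq_zero fun z hz => CentX.short t
      (hF.mon z hz) (hF.per z hz) (by have := hF.deg z hz; omega) _ _, abs_zero]
    exact (div_pos (qq_pos _) (qq_pos _)).le
  rcases le_total I' I with hle | hle
  · exact key u u' w w' Φ I I' α β m1 m2 hF hα hβ hle h1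
  · have d1 : t.degree < (n + s : ℕ) :=
      degree_le_natDegree.trans_lt (by exact_mod_cast (by omega))
    have d2 : t.degree < (5 * n : ℕ) := degree_le_natDegree.trans_lt (by exact_mod_cast (by omega))
    rw [cG_swap d1, mG_swap d2, ← tot_shift]
    exact key u' u w' w _ I' I β α m2 m1 (hF.shift d1) hβ hα hle h2

end Pool.Agent.PPg
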