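import Pool.Agent.MP_f37147_nt.G.St

/- Prime pairs over `F[X]`, general linear forms: the central range in one residue class. -/

set_option autoImplicit false
set_option linter.unusedSectionVars false

namespace Pool.Agent.PPg

open Polynomial Finset Pool.Agent.MP_4fffd4_nt Pool.Agent.MP_c853c5_nt Pool.Agent.MP_43e117_nt
open Pool.Agent.PPf
open scoped BigOperators

namespace ClassGX

open Pool.Agent.PPf.ClassX hiding point cls

variable {F : Type} [Field F] [Fintype F] [CharP F 2]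

theorem cop {M h A B : F[X]} (φ : F[X]) (n : ℕ) {a b : ℝ} (hA : A ≠ 0)
    (hh : ∀ P : F[X], Irreducible P → P ∣ h → P ∣ M) (ca : a ≠ 0 → IsCoprime A M)
    (cb : b ≠ 0 → IsCoprime B M) (H : ¬ (IsCoprime A M ∧ IsCoprime (M * A) B)) :
    a * b * dw M φ h n A B = 0 := by
  by_cases ha : a = 0
  · rw [ha, zero_mul, zero_mul]
  by_cases hb : b = 0
  · rw [hb, mul_zero, zero_mul]
  have h0 : ∀ f : F[X], ind (M ∣ f - φ) * (ind (A ∣ f) * ind (B ∣ f + h)) = 0 := fun f => by
    rw [TK.ind_mul, TK.ind_mul]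
    refine ind_neg fun ⟨_, h2, h3⟩ => H ⟨ca ha, IsCoprime.mul_left (cb hb).symm ?_⟩
    refine isCoprime_of_irreducible_dvd (fun e => hA e.1) fun P hP b1 b2 => ?_
    exact hP.not_isUnit ((ca ha).isUnit_of_dvd' b1
      (hh P hP ((dvd_add_right (b1.trans h2)).1 (b2.trans h3))))
  unfold dw
  simp only [h0]
  simp

theorem point {e : F → ℝ} (he : Chr e) {M φ h A B : F[X]} {n ν t : ℕ} (hM : M.Monic)
    (hA : A.Monic) (hB : B.Monic) {x : ℝ}
    (hc : ¬ (IsCoprime A M ∧ IsCoprime (M * A) B) → x * dw M φ h n A B = 0)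
    (h1 : B.natDegree + ν = n)
    (h2 : M.natDegree + A.natDegree = ν + t) (h3 : t ≤ n) (h4 : h.natDegree < n)
    (h5 : M.natDegree + A.natDegree < n) (r : F[X]) :
    ind (r = A %ₘ M) * (x * dw M φ h n A B) * qq F t =
      x * ∑ a ∈ ltF F t, ind (a ≠ 0) * TOffA.sg e ν t a *
      (ind (r = A %ₘ M ∧ IsCoprime A M) * e (SFour.res (a * iv M B * ww M φ r) M) *
        (ind (IsCoprime (M * A) B) * e (SFour.res (a * h * iv (M * A) B) (M * A)))) := by
  by_cases hr : r = A %ₘ M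
  swap
  · rw [ind_neg hr, ind_neg fun x : r = A %ₘ M ∧ IsCoprime A M => hr x.1]
    simp
  by_cases H : IsCoprime A M ∧ IsCoprime (M * A) B
  swap
  · rw [hc H, mul_zero, zero_mul]
    refine (mul_eq_zero_of_right _ (Finset.sum_eq_zero fun a _ => ?_)).symm
    by_cases H1 : IsCoprime A M
    · rw [ind_neg fun x : IsCoprime (M * A) B => H ⟨H1, x⟩]; ring
    · rw [ind_neg fun x : r = A %ₘ M ∧ IsCoprime A M => H1 x.2]; ring
  have hd : (M * A).natDegree = ν + t := by rw [hM.natDegree_mul hA, h2]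
  have hw : (A * ww M φ r).degree < n := by
    refine degree_le_natDegree.trans_lt (Nat.cast_lt.2 (natDegree_mul_le.trans_lt ?_))
    have := natDegree_le_natDegree (degree_modByMonic_lt (φ * iv M r) hM).le
    unfold ww
    omega
  have hw' : (1 * (h + A * ww M φ r)).degree < n := by
    rw [one_mul]
    exact (degree_add_le _ _).trans_lt
      (max_lt (degree_le_natDegree.trans_lt (Nat.cast_lt.2 h4)) hw)
  have h6 := TK.dis_kk monic_one (hM.mul hA) hB H.2 (ν := ν) (by rw [natDegree_one]; omega) hd h3 hw'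
  have hy := iv_mul H.2.symm
  have h7 := TOffA.kk_eq he (mem_monF.2 ⟨hM.mul hA, hd⟩) hy (h + A * ww M φ r)
  rw [one_mul, one_mul, one_mul] at h6
  rw [kk, ind_pos H.2, one_mul] at h7
  rw [ind_pos hr, one_mul, dw_dis B H.1 (hr ▸ ww_dvd φ H.1) hw, mul_assoc, h6, h7,
    ind_pos ⟨hr, H.1⟩, ind_pos H.2]
  refine congrArg (x * ·) (Finset.sum_congr rfl fun a _ => ?_)
  have h8 : M ∣ a * iv (M * A) B * ww M φ r - a * iv M B * ww M φ r := by
    obtain ⟨k, hk⟩ := hy
    obtain ⟨k', hk'⟩ := iv_mul H.2.of_mul_left_left.symm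
    exact ⟨a * ww M φ r * (iv M B * (A * k) - iv (M * A) B * k'), by
      linear_combination a * ww M φ r * (iv M B * hk - iv (M * A) B * hk')⟩
  rw [show a * (iv (M * A) B * (h + A * ww M φ r)) =
      a * h * iv (M * A) B + a * iv (M * A) B * ww M φ r * A by ring, SFour.res_add, he.add,
    SFour.res_mul _ hM hA, SFour.res_congr hM h8]
  ring

theorem cls (H : SFreq F) {M φ h : F[X]} {n t I I' l η : ℕ} {α β : F[X] → ℝ} (hM : M.Monic)
    (h0 : h ≠ 0) (hh : ∀ P : F[X], Irreducible P → P ∣ h → P ∣ M) (hα : Bd I α) (hβ : Bd I' β)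
    (ca : ∀ A, α A ≠ 0 → IsCoprime A M) (cb : ∀ B, β B ≠ 0 → IsCoprime B M)
    (h1 : M.natDegree + I + I' = n + t) (h2 : 1 ≤ t) (h3 : t ≤ n) (h4 : h.natDegree < n)
    (h5 : M.natDegree + I < n) (h6 : I' ≤ I) (h7 : 1 ≤ η) (h8 : t + h.natDegree ≤ l)
    (h9 : M.natDegree + I + 10 * η + 1 ≤ I' + l) (h10 : 1 + 10 * η ≤ l) (h11 : 100 * l ≤ I')
    (h12 : DivB F (qq F η) (4 * n)) (h13 : (200 * n : ℝ) ^ 3 ≤ qq F η) (r : F[X]) :
    |∑ A ∈ monF F I, ∑ B ∈ monF F I', ind (r = A %ₘ M) * (α A * β B * dw M φ h n A B)| ≤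
      2 * qq F (n + t) / qq F η := by
  obtain ⟨e, he⟩ := exists_chr (F := F)
  have hq := qq_pos (F := F) t
  have hb : 0 ≤ 2 * qq F (n + t) / qq F η :=
    div_nonneg (mul_nonneg zero_le_two (qq_pos _).le) (qq_pos _).le
  have e1 : (∑ A ∈ monF F I, ∑ B ∈ monF F I',
      ind (r = A %ₘ M) * (α A * β B * dw M φ h n A B)) * qq F t =
      ∑ a ∈ ltF F t, ind (a ≠ 0) * TOffA.sg e (n - I') t a *
        ∑ d ∈ monF F (M.natDegree + I), ∑ B ∈ monF F I',
          (ind (M ∣ d) * (ind (r = (d /ₘ M) %ₘ M ∧ IsCoprime (d /ₘ M) M) * α (d /ₘ M))) *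
            (β B * e (SFour.res (a * iv M B * ww M φ r) M)) *
            (ind (IsCoprime d B) * e (SFour.res (a * h * iv d B) d)) := by
    have e2 : ∀ a : F[X], ∑ d ∈ monF F (M.natDegree + I), ∑ B ∈ monF F I',
        (ind (M ∣ d) * (ind (r = (d /ₘ M) %ₘ M ∧ IsCoprime (d /ₘ M) M) * α (d /ₘ M))) *
          (β B * e (SFour.res (a * iv M B * ww M φ r) M)) *
          (ind (IsCoprime d B) * e (SFour.res (a * h * iv d B) d)) =
        ∑ A ∈ monF F I, ∑ B ∈ monF F I', α A * β B *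
          (ind (r = A %ₘ M ∧ IsCoprime A M) * e (SFour.res (a * iv M B * ww M φ r) M) *
          (ind (IsCoprime (M * A) B) * e (SFour.res (a * h * iv (M * A) B) (M * A)))) := fun a => by
      have e3 := TK.sum_dvd_eq hM I fun d => ∑ B ∈ monF F I',
        (ind (r = (d /ₘ M) %ₘ M ∧ IsCoprime (d /ₘ M) M) * α (d /ₘ M)) *
          (β B * e (SFour.res (a * iv M B * ww M φ r) M)) *
          (ind (IsCoprime d B) * e (SFour.res (a * h * iv d B) d))
      simp only [mul_divByMonic_cancel_left _ hM] at e3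
      refine Eq.trans (Finset.sum_congr rfl fun d _ => ?_) (e3.trans ?_)
      · rw [Finset.mul_sum]
        exact Finset.sum_congr rfl fun B _ => by ring
      · exact Finset.sum_congr rfl fun A _ => Finset.sum_congr rfl fun B _ => by ring
    simp only [e2, Finset.mul_sum, Finset.sum_mul]
    rw [Finset.sum_comm (s := ltF F t)]
    refine Finset.sum_congr rfl fun A hA => ?_
    rw [Finset.sum_comm (s := ltF F t)]
    refine Finset.sum_congr rfl fun B hB => ?_
    obtain ⟨a1, a2⟩ := mem_monF.1 hA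
    obtain ⟨a3, a4⟩ := mem_monF.1 hB
    have e3 := point he hM a1 a3 (n := n) (ν := n - I') (t := t)
      (cop φ n a1.ne_zero hh (ca A) (cb B)) (by omega) (by omega) h3 h4 (by omega) r
    rw [e3, Finset.mul_sum]
    exact Finset.sum_congr rfl fun a _ => by ring
  refine le_of_mul_le_mul_right ?_ hq
  rw [← abs_of_pos hq, ← abs_mul, e1, abs_of_pos hq, ← sum_one_ltF t, Finset.mul_sum]
  refine (Finset.abs_sum_le_sum_abs _ _).trans (Finset.sum_le_sum fun a ha => ?_)
  rw [mul_one]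
  by_cases ha0 : a = 0
  · rw [ind_neg (not_not.2 ha0), zero_mul, zero_mul, abs_zero]
    exact hb
  have ha1 := (natDegree_lt_iff_degree_lt ha0).2 (mem_ltF.1 ha)
  have ha2 := natDegree_mul_le (p := a) (q := h)
  have h14 : ((n + t - 1 : ℕ) : ℝ) ≤ 2 * n := by exact_mod_cast (by omega : n + t - 1 ≤ 2 * n)
  rw [ind_pos ha0, one_mul, abs_mul, TOffA.sg, he.toSgn.abs_eq, one_mul,
    show n + t = n + t - 1 + 1 by omega]
  refine H e (a * h) (n + t - 1) _ I' l η _ _ he (mul_ne_zero ha0 h0) (by omega) h7 (by omega) h9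
    (by omega) h10 h11 (h12.mono (by omega))
    ((pow_le_pow_left₀ (by positivity) (by linarith) 3).trans h13) (fun d hd => ?_) fun B hB => ?_
  · by_cases hd1 : M ∣ d
    · obtain ⟨A, rfl⟩ := hd1
      obtain ⟨a1, a2⟩ := mem_monF.1 hd
      have a3 := hM.of_mul_monic_left a1
      rw [hM.natDegree_mul a3] at a2
      rw [ind_pos (dvd_mul_right _ _), one_mul, mul_divByMonic_cancel_left _ hM]
      exact (TBasA.abs_ind_mul _ (hα A (mem_monF.2 ⟨a3, by omega⟩))).trans
        ((mul_one _).trans_le (ind_le_one _))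
    · rw [ind_neg hd1, zero_mul, abs_zero]
      exact zero_le_one
  · rw [abs_mul, he.toSgn.abs_eq, mul_one]
    exact hβ B hB

end ClassGX

variable (F : Type) [Field F] [Fintype F] [CharP F 2]

theorem sClassG (h : SFreq F) : SClassG F := by
  intro s hs
  obtain ⟨n₁, H₁⟩ := exists_DivB (F := F) 4 20000 (by norm_num)
  obtain ⟨n₂, H₂⟩ := exists_poly (F := F) 200 3 20000 (by norm_num)
  refine ⟨n₁ + n₂ + 10000000 + 2000 * s.natDegree,
    fun n hn M φ I I' α β hM hm hh hα hβ ca cb hI hD => ?_⟩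
  rw [ClassX.expand]
  by_cases h0 : M.natDegree + I + I' ≤ n
  · rw [Finset.sum_eq_zero fun A hA => Finset.sum_eq_zero fun B hB => ?_, abs_zero]
    · exact (div_pos (qq_pos _) (qq_pos _)).le
    · obtain ⟨a1, a2⟩ := mem_monF.1 hA
      obtain ⟨a3, a4⟩ := mem_monF.1 hB
      rw [ClassX.dw_per _ _ ((hM.mul a1).mul a3).ne_zero
        (by rw [(hM.mul a1).natDegree_mul a3, hM.natDegree_mul a1]; omega), mul_zero]
  obtain ⟨t, ht⟩ : ∃ t, M.natDegree + I + I' = n + t := ⟨M.natDegree + I + I' - n, by omega⟩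
  have e1 : ∑ A ∈ monF F I, ∑ B ∈ monF F I', α A * β B * ClassX.dw M φ s n A B =
      ∑ r ∈ ltF F M.natDegree, ∑ A ∈ monF F I, ∑ B ∈ monF F I',
        ind (r = A %ₘ M) * (α A * β B * ClassX.dw M φ s n A B) := by
    rw [Finset.sum_comm (s := ltF F M.natDegree)]
    refine Finset.sum_congr rfl fun A _ => ?_
    rw [Finset.sum_comm (s := ltF F M.natDegree)]
    refine Finset.sum_congr rfl fun B _ => ?_
    rw [← Finset.sum_mul, TOffA.sum_ind_mem, ind_pos (mem_ltF.2 ?_), one_mul]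
    rw [← degree_eq_natDegree hM.ne_zero]
    exact degree_modByMonic_lt A hM
  have hb := ClassGX.cls h hM hs hh hα hβ ca cb (φ := φ) (l := n / 1000) (η := n / 20000) ht
    (by omega)
    (by omega) (by omega) (by omega) hI (by omega) (by omega) (by omega) (by omega) (by omega)
    (H₁ n (by omega)) (by exact_mod_cast H₂ n (by omega))
  rw [e1]
  refine (Finset.abs_sum_le_sum_abs _ _).trans
    ((Finset.sum_le_card_nsmul _ _ _ fun r _ => hb r).trans ?_)
  have h1 : qq F M.natDegree * (2 * qq F t) * qq F (3 * (n / 100000)) ≤ qq F (n / 20000) := by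
    have h2 : (2 : ℝ) ≤ qq F 1 := (pow_one (2 : ℝ)).ge.trans (two_pow_le_qq 1)
    have h3 := qq_pos (F := F) M.natDegree
    have h4 := qq_pos (F := F) t
    have h5 := qq_pos (F := F) (3 * (n / 100000))
    refine le_trans ?_ (qq_mono (a := M.natDegree + (1 + t) + 3 * (n / 100000)) (by omega))
    rw [qq_add, qq_add, qq_add]
    gcongr
  have h3 := qq_pos (F := F) n
  rw [nsmul_eq_mul, card_ltF, Nat.cast_pow, ← mul_div_assoc,
    div_le_div_iff₀ (qq_pos _) (qq_pos _), qq_add]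
  calc _ = qq F n * (qq F M.natDegree * (2 * qq F t) * qq F (3 * (n / 100000))) := by
        rw [qq, qq, qq, qq]; ring
    _ ≤ _ := by gcongr

end Pool.Agent.PPg
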