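import Pool.Agent.MP_f37147_nt.G.St

/- Prime pairs over `F[X]`, general linear forms: the lifted weight belongs to the class. -/

set_option autoImplicit false
set_option linter.unusedSectionVars false

namespace Pool.Agent.PPg

open Polynomial Finset Pool.Agent.MP_4fffd4_nt Pool.Agent.MP_c853c5_nt Pool.Agent.MP_43e117_nt
open Pool.Agent.PPf
open scoped BigOperators

namespace InstGX

variable {F : Type} [Field F] [Fintype F]

theorem lf_per {u M : F[X]} (hu : u.Monic) {A : F[X] → ℝ} (hA : Per M A) (c : F[X]) :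
    Per (u * M) fun g => lf u A (g - c) := by
  intro g t
  show lf u A (g + u * M * t - c) = lf u A (g - c)
  rw [show g + u * M * t - c = g - c + u * (M * t) by ring]
  by_cases e : u ∣ g - c
  · obtain ⟨L, hL⟩ := e
    rw [hL, ← mul_add, lf_mul hu, lf_mul hu, hA]
  · rw [lf_not A e, lf_not A fun e' => e ((dvd_add_left (dvd_mul_right _ _)).1 e')]

theorem lf_mean {u M c : F[X]} {r n l : ℕ} (hu : u ∈ monF F r) (hM : M.Monic) {A : F[X] → ℝ}
    (hA : Per M A) (hc : c.degree < (n + r : ℕ)) (hn : M.natDegree ≤ n) (hl : n + r ≤ l) :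
    𝔼 g : degreeLT F l, lf u A (g.1 - c) = (𝔼 f : degreeLT F l, A f.1) / qq F r := by
  obtain ⟨h1, h2⟩ := mem_monF.1 hu
  have hd : (u * M).natDegree ≤ n + r := by
    rw [h1.natDegree_mul hM]
    omega
  have e1 := sum_monF_per (h1.mul hM).ne_zero (lf_per h1 hA c) hd (hd.trans hl)
  have e2 := sum_monF_per hM.ne_zero hA hn (l := l) (by omega)
  have e3 := sum_monF_shift (n := n + r) (c := -c) (by rwa [degree_neg]) (lf u A)
  have e4 := sum_lf hu n A fun _ => 1
  simp only [mul_one] at e4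
  simp only [← sub_eq_add_neg] at e3
  rw [e3, e4, e2, qq_add, mul_assoc] at e1
  rw [eq_div_iff (qq_pos r).ne', mul_comm]
  exact (mul_left_cancel₀ (qq_pos n).ne' e1).symm

theorem mean_bd {P c a c' a' : F[X]} {θ : F[X] → ℝ} {l : ℕ} (hm : P.Monic) (hP : Irreducible P)
    (ha : ¬ P ∣ a) (ha' : ¬ P ∣ a') (hl : P.natDegree ≤ l) (hb : ∀ t, 0 ≤ θ t ∧ θ t ≤ 9)
    (h1 : ∀ t, ¬ P ∣ (a * t + c) * (a' * t + c') → θ t = 1) :
    1 - 2 / qq F P.natDegree ≤ 𝔼 t : degreeLT F l, θ t.1 ∧
      𝔼 t : degreeLT F l, θ t.1 ≤ 1 + 16 / qq F P.natDegree := by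
  have e1 := expect_lin hm (hP.coprime_iff_not_dvd.2 ha).symm c hl
  have e2 := expect_lin hm (hP.coprime_iff_not_dvd.2 ha').symm c' hl
  have key : ∀ t, 1 - (ind (P ∣ a * t + c) + ind (P ∣ a' * t + c')) ≤ θ t ∧
      θ t ≤ 1 + 8 * (ind (P ∣ a * t + c) + ind (P ∣ a' * t + c')) := by
    intro t
    have n1 := ind_nonneg (P ∣ a * t + c)
    have n2 := ind_nonneg (P ∣ a' * t + c')
    obtain ⟨b1, b2⟩ := hb t
    by_cases hd : P ∣ (a * t + c) * (a' * t + c')
    · rcases hP.prime.dvd_or_dvd hd with hd | hd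
      · have := ind_pos hd
        constructor <;> linarith
      · have := ind_pos hd
        constructor <;> linarith
    · rw [h1 t hd]
      constructor <;> linarith
  have e3 : 𝔼 t : degreeLT F l, (ind (P ∣ a * t.1 + c) + ind (P ∣ a' * t.1 + c')) =
      2 / qq F P.natDegree := by
    rw [Finset.expect_add_distrib, e1, e2]
    ring
  constructor
  · have := Finset.expect_le_expect (s := (univ : Finset (degreeLT F l))) fun t _ => (key t.1).1
    rwa [Finset.expect_sub_distrib, e3, Finset.expect_const univ_nonempty] at this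
  · have := Finset.expect_le_expect (s := (univ : Finset (degreeLT F l))) fun t _ => (key t.1).2
    rw [Finset.expect_add_distrib, ← Finset.mul_expect, e3,
      Finset.expect_const univ_nonempty] at this
    refine this.trans_eq ?_
    ring

end InstGX

variable (F : Type) [Field F] [Fintype F] [CharP F 2]

open InstGX in
theorem sInstG (h1 : STerm F) (h2 : SCard F) : SInstG F := by
  classical
  intro κ _ _ ρ i j Ps U U' V V' W x Y D R n s lo hi B I H hR hU hU' hV hW0 hi0 hj0 hx hx' hlo hP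
    hB hbd hI
  obtain ⟨hcard, -, hz⟩ := h2 κ ρ {i, j} Ps W x Y D R H
  obtain ⟨u1, u2⟩ := mem_monF.1 hU
  obtain ⟨u3, u4⟩ := mem_monF.1 hU'
  have um : (U' * U).Monic := u3.mul u1
  have uu : U' * U ∈ monF F (s + s) := mem_monF.2 ⟨um, by rw [u3.natDegree_mul u1, u2, u4]⟩
  have hW : ∀ P : F[X], Irreducible P → P.natDegree ≤ 15 → P ∣ W := fun P a b => hW0 P a (Or.inl b)
  have hUW : ∀ P : F[X], Irreducible P → P ∣ U' * U → P ∣ W := fun P a b =>
    hW0 P a (Or.inr (b.mul_left _))
  have hWm : ∀ z : (Ps → Finset κ) × (Ps → Finset κ), W ∣ md Ps W z := fun z => Dvd.intro _ rfl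
  have hdeg : (U' * V).degree < (n + (s + s) : ℕ) := by
    refine degree_le_natDegree.trans_lt ?_
    have := natDegree_mul_le (p := U') (q := V)
    exact_mod_cast (show (U' * V).natDegree < n + (s + s) by omega)
  have hq := qq_pos (F := F) W.natDegree
  have hper : ∀ z ∈ ZZ Ps Y, Per (md Ps W z) fun f => ph ρ {i, j} Ps W x Y z f / B :=
    fun z hzz f t => congrArg (· / B) ((hz z hzz).2.2.1 f t)
  refine ⟨⟨⟨by omega, fun z hzz => um.mul (hz z hzz).1, fun z hzz => ?_,
    fun z hzz => lf_per um (hper z hzz) _, fun z hzz P a b => ?_, fun g hg => ?_,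
    hcard.trans (qq_mono (by omega))⟩, rfl, fun z hzz g hg => ?_,
    fun z _ P a b => ((hW0 P a (Or.inr b)).trans (hWm z)).mul_left _⟩, ?_, ?_⟩
  · have := (hz z hzz).2.1
    rw [um.natDegree_mul (hz z hzz).1, (mem_monF.1 uu).2]
    omega
  · have a1 : P ∣ md Ps W z :=
      (a.prime.dvd_or_dvd b).elim (fun e => (hUW P a e).trans (hWm z)) id
    rcases (hz z hzz).2.2.2.2.1 P a a1 with e | ⟨P', e1, e2⟩
    · exact Or.inl ((natDegree_le_of_dvd e H.mon.ne_zero).trans_lt hlo)
    · rw [← e2]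
      exact hP P' e1
  · by_cases e : U' * U ∣ g - U' * V
    · obtain ⟨f, hf⟩ := e
      have a1 : g - U' * V ∈ monF F (n + (s + s)) := by
        rw [sub_eq_add_neg]
        exact add_mem_mon (by rwa [degree_neg]) (by rwa [← add_assoc])
      rw [hf] at a1
      simp only [hf, lf_mul um, abs_div, abs_of_pos hB]
      rw [← Finset.sum_div, div_le_one hB]
      exact hbd f (quo_mem uu a1)
    · simp only [lf_not _ e, abs_zero, Finset.sum_const_zero, zero_le_one]
  · have e : U' * U ∣ g - U' * V := by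
      by_contra e
      exact hg (lf_not _ e)
    obtain ⟨f, hf⟩ := e
    simp only [hf, lf_mul um] at hg
    obtain ⟨⟨t, ht⟩, h5⟩ := (hz z hzz).2.2.2.2.2 f fun e => hg (by rw [e, zero_div])
    have cW : IsCoprime ((U * f + V) * (U' * f + V')) W := by
      refine IsCoprime.mul_left ?_ ?_
      · rw [show U * f + V = U * x + V + W * (U * t) by linear_combination U * ht]
        exact hx.add_mul_left_left _
      · rw [show U' * f + V' = U' * x + V' + W * (U' * t) by linear_combination U' * ht]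
        exact hx'.add_mul_left_left _
    refine ⟨f, by linear_combination hf, IsCoprime.mul_right ?_
      (IsCoprime.mul_right cW (IsCoprime.prod_right fun P hP' => ?_))⟩
    · exact isCoprime_of_irreducible_dvd (fun e => um.ne_zero e.2) fun P hP a b =>
        hP.not_isUnit (cW.isUnit_of_dvd' a (hUW P hP b))
    · have hd : P.1 ∣ md Ps W z := Dvd.dvd.mul_left (Finset.dvd_prod_of_mem _ hP') _
      obtain ⟨-, hirr, hn⟩ := H.good P.1 P.2
      have a1 := mt (hi0 P.1 hirr hn f).2 (h5 P.1 P.2 hd i (by simp))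
      have a2 := mt (hj0 P.1 hirr hn f).2 (h5 P.1 P.2 hd j (by simp))
      exact ((hirr.coprime_iff_not_dvd.2 a1).mul_right (hirr.coprime_iff_not_dvd.2 a2)).symm
  · intro c a S θ l hc ha hS hpr hb hθ hl
    have hm : ∀ P ∈ S, ¬ P ∣ a → (𝔼 t : degreeLT F l, θ P t.1) ≠ 0 ∧
        |(𝔼 t : degreeLT F l, θ P t.1)⁻¹ - 1| ≤ 20 / qq F P.natDegree := by
      intro P hP hPa
      obtain ⟨p1, p2, p3⟩ := hS P hP
      have hd : P.natDegree ≤ l :=
        ((Finset.single_le_sum (f := fun P : F[X] => P.natDegree) (fun _ _ => Nat.zero_le _)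
          hP).trans (Nat.le_add_left _ _)).trans hl
      obtain ⟨m1, m2⟩ := mean_bd (a := U * a) (a' := U' * a) (c := U * c + V) (c' := U' * c + V')
        p1 p2 (fun e => (p2.prime.dvd_or_dvd e).elim (fun e => p3 (hUW P p2 (e.mul_left _))) hPa)
        (fun e => (p2.prime.dvd_or_dvd e).elim (fun e => p3 (hUW P p2 (e.mul_right _))) hPa)
        hd (hb P hP) fun t ht => hθ P hP hPa t (by
          rwa [show (U * (c + a * t) + V) * (U' * (c + a * t) + V') =
            (U * a * t + (U * c + V)) * (U' * a * t + (U' * c + V')) by ring])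
      exact InstLX.inv_close (InstLX.big hW p2 p3) m1 m2
    have hu : Adm0 (nm Ps) fun P : Ps => if P.1 ∣ a then 0 else if P.1 ∈ S then
        (𝔼 t : degreeLT F l, θ P.1 t.1)⁻¹ else 1 := by
      intro P
      by_cases hPa : P.1 ∣ a
      · exact Or.inl (if_pos hPa)
      · right
        simp only [if_neg hPa]
        by_cases hPS : P.1 ∈ S
        · rw [if_pos hPS]
          exact (hm P.1 hPS hPa).2
        · rw [if_neg hPS, sub_self, abs_zero]
          exact div_nonneg (by norm_num) (qq_pos _).le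
    have hI' := hI _ hu
    have hπ : 0 ≤ ∏ P ∈ S, 𝔼 t : degreeLT F l, θ P t.1 :=
      Finset.prod_nonneg fun P hP => Finset.expect_nonneg fun t _ => (hb P hP t.1).1
    have hT := fun z (hzz : z ∈ ZZ Ps Y) => h1 κ ρ {i, j} Ps W x c a Y z S θ l H.mon H.good H.roots hc
      (fun P hP hPa => by
        obtain ⟨-, p2, p3⟩ := H.good P hP
        rcases p2.prime.dvd_or_dvd (ha P p2 hPa) with e | e
        · exact ⟨i, mem_insert_self _ _, (hi0 P p2 p3 c).2 e⟩
        · exact ⟨j, mem_insert_of_mem (mem_singleton_self _), (hj0 P p2 p3 c).2 e⟩)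
      hS hpr
      (fun P hP hPa t ht => hθ P hP hPa t fun e => by
        obtain ⟨-, p2, p3⟩ := hS P hP
        rcases p2.prime.dvd_or_dvd e with e | e
        · exact ht i (mem_insert_self _ _) ((hi0 P p2 p3 _).2 e)
        · exact ht j (mem_insert_of_mem (mem_singleton_self _)) ((hj0 P p2 p3 _).2 e))
      (fun P hP hPa => (hm P hP hPa).1)
      (by have := (hz z hzz).2.1; omega)
    have e : 𝔼 t : degreeLT F l, tot (ZZ Ps Y) (fun z g =>
        lf (U' * U) (fun f => ph ρ {i, j} Ps W x Y z f / B) (g - U' * V))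
        (U' * (U * (c + a * t.1) + V)) * ∏ P ∈ S, θ P t.1 = (∑ z ∈ ZZ Ps Y,
          𝔼 t : degreeLT F l, ph ρ {i, j} Ps W x Y z (c + a * t.1) * ∏ P ∈ S, θ P t.1) / B := by
      rw [← Finset.expect_sum_comm, Finset.expect_div]
      refine Finset.expect_congr rfl fun t _ => ?_
      rw [tot, Finset.sum_mul, Finset.sum_div]
      refine Finset.sum_congr rfl fun z _ => ?_
      rw [show U' * (U * (c + a * t.1) + V) - U' * V = U' * U * (c + a * t.1) by ring, lf_mul um]
      ring
    rw [e, Finset.sum_congr rfl hT, ← Finset.mul_sum, InstLX.sum_ZZ]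
    refine (div_le_div_of_nonneg_right
      (mul_le_mul_of_nonneg_left hI' (mul_nonneg (by positivity) hπ)) hB.le).trans_eq ?_
    ring
  · have hu : Adm0 (nm Ps) fun P : Ps => (1 - 2 / qq F P.1.natDegree)⁻¹ := by
      intro P
      obtain ⟨-, p2, p3⟩ := H.good P.1 P.2
      have hp := qq_pos (F := F) P.1.natDegree
      refine Or.inr (InstLX.inv_close (InstLX.big hW p2 p3) le_rfl ?_).2
      have : 0 ≤ 2 / qq F P.1.natDegree := by positivity
      have : 0 ≤ 16 / qq F P.1.natDegree := by positivity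
      linarith
    have hI' := hI _ hu
    unfold Main
    rw [← InstLX.sum_ZZ] at hI'
    refine le_trans (le_of_eq ?_) (div_le_div_of_nonneg_right (div_le_div_of_nonneg_right
      (div_le_div_of_nonneg_right hI' hq.le) hB.le) (qq_pos (F := F) (2 * s)).le)
    rw [Finset.sum_div, Finset.sum_div, Finset.sum_div]
    refine Finset.sum_congr rfl fun z hzz => ?_
    have hR' := (hz z hzz).2.1
    have hT := h1 κ ρ {i, j} Ps W x 0 1 Y z ∅ (fun _ _ => 1) (5 * (n + s)) H.mon H.good H.roots
      isCoprime_one_left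
      (fun P hP hPa => absurd (isUnit_of_dvd_one hPa) (H.good P hP).2.1.not_isUnit)
      (fun _ hP => absurd hP (notMem_empty _)) (fun _ hP => absurd hP (notMem_empty _))
      (fun _ hP => absurd hP (notMem_empty _)) (fun _ hP => absurd hP (notMem_empty _))
      (by
        rw [Finset.sum_empty]
        omega)
    simp only [Finset.prod_empty, mul_one, zero_add, one_mul, notMem_empty, if_false] at hT
    rw [InstLX.prod_act H.mon H.good z _ (fun P => Finset.mem_sdiff.trans (by
        rw [mem_pf (um.mul (hz z hzz).1).ne_zero, mem_pf (hz z hzz).1.ne_zero,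
          mem_pf H.mon.ne_zero]
        exact ⟨fun ⟨⟨a, b, c⟩, d⟩ => ⟨⟨a, b, (b.prime.dvd_or_dvd c).elim
          (fun e => (hUW P b e).trans (hWm z)) id⟩, d⟩,
          fun ⟨⟨a, b, c⟩, d⟩ => ⟨⟨a, b, c.mul_left _⟩, d⟩⟩)),
      lf_mean uu (hz z hzz).1 (hper z hzz) hdeg (by omega) (by omega), ← Finset.expect_div, hT,
      two_mul s]
    have e : (∏ P : Ps, ker (nm Ps P) (if P.1 ∣ 1 then 0 else 1) {i, j} (z.1 P) (z.2 P)) *
        (∏ P : Ps, if z.1 P = ∅ ∧ z.2 P = ∅ then 1 else (1 - 2 / qq F P.1.natDegree)⁻¹) =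
        ∏ P : Ps, ker (nm Ps P) (1 - 2 / qq F P.1.natDegree)⁻¹ {i, j} (z.1 P) (z.2 P) := by
      rw [← Finset.prod_mul_distrib]
      refine Finset.prod_congr rfl fun P _ => ?_
      rw [if_neg fun e => (H.good P.1 P.2).2.1.not_isUnit (isUnit_of_dvd_one e), ker, ker]
      by_cases hh : z.1 P = ∅ ∧ z.2 P = ∅
      · rw [if_pos hh, if_pos hh, if_pos hh, mul_one]
      · rw [if_neg hh, if_neg hh, if_neg hh]
        ring
    rw [← e]
    ring

end Pool.Agent.PPg
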