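import Pool.Agent.MP_f37147_nt.G.St

/- Prime pairs over `F[X]`, general linear forms: the sieve weight along a line. -/

set_option autoImplicit false
set_option linter.unusedSectionVars false

namespace Pool.Agent.PPg

open Polynomial Finset Pool.Agent.MP_4fffd4_nt Pool.Agent.MP_c853c5_nt Pool.Agent.MP_43e117_nt
open Pool.Agent.PPf
open scoped BigOperators

namespace LineSX

variable {F : Type} [Field F] [Fintype F]

theorem om_mul {W u e : F[X]} (hu : u ≠ 0) (he : e ≠ 0)
    (hW : ∀ P : F[X], Irreducible P → P ∣ u → P ∣ W) (y s : ℕ) :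
    Om (bl W y s) (u * e) = Om (bl W y s) e := by
  rw [Om_mul _ hu he, (Om_eq_zero (S := bl W y s)
    (fun P hP => ⟨(mem_blk.1 hP).1, (mem_blk.1 hP).2.1⟩) hu).2
    fun P hP h1 => (mem_blk.1 hP).2.2.2.2 (hW P (mem_blk.1 hP).2.1 h1), zero_add]

theorem cop {W u e : F[X]} (he : e ≠ 0) (k : IsCoprime e W)
    (hW : ∀ P : F[X], Irreducible P → P ∣ u → P ∣ W) : IsCoprime e u :=
  isCoprime_of_irreducible_dvd (fun h1 => he h1.1)
    fun P hP h1 h2 => hP.not_isUnit (k.isUnit_of_dvd' h1 (hW P hP h2))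

open LineWX in
theorem mean {h W u u' w w' e e' c c' f : F[X]} {Ψ : F[X] → ℝ} {R : ℕ} {K : ℝ} (y S : ℕ)
    (hW : ∀ P : F[X], Irreducible P → P ∣ h → P ∣ W) (hΨ : ∀ f, 0 ≤ Ψ f) (hK : 0 ≤ K)
    (hL : LineG u u' w w' W Ψ R K) (he : u * e ≠ 0) (he' : u' * e' ≠ 0)
    (hc : c' * (u' * e') = c * (u * e) + h) (f1 : c * e = u' * f + w) (f2 : c' * e' = u * f + w')
    (k1 : IsCoprime e W) (k2 : IsCoprime e' W) :
    ∃ L, R + 16 * y ≤ L ∧
      𝔼 t : degreeLT F L, Ψ (u * (u' * (f + e * e' * t.1) + w)) *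
          HH W c c' (u * e) (u' * e') y S t.1 ≤
        K * ((∏ s ∈ range S, VS (bl W y s)) ^ 2 * (GG W y S (u * e) * GG W y S (u' * e'))) := by
  classical
  obtain ⟨E, hE⟩ : ∃ E, E = u * e := ⟨_, rfl⟩
  obtain ⟨E', hE'⟩ : ∃ E', E' = u' * e' := ⟨_, rfl⟩
  rw [← hE] at he
  rw [← hE'] at he'
  rw [← hE, ← hE'] at hc ⊢
  set U := (range S).biUnion (bl W y) with hU
  refine ⟨R + 16 * y + ∑ P ∈ U, P.natDegree, Nat.le_add_right _ _, ?_⟩
  set L := R + 16 * y + ∑ P ∈ U, P.natDegree with hLd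
  have mb : ∀ s, ∀ P ∈ bl W y s, P.Monic ∧ Irreducible P ∧ ¬ P ∣ h := fun s P hP =>
    ⟨(mem_blk.1 hP).1, (mem_blk.1 hP).2.1,
      fun h1 => (mem_blk.1 hP).2.2.2.2 (hW P (mem_blk.1 hP).2.1 h1)⟩
  have hd : ∀ s t, ∀ P ∈ bl W y s, ¬ (P ∣ c + E' * t ∧ P ∣ c' + E * t) := fun s t P hP h1 =>
    no_both (mb s P hP).2.2 hc t (h1.2.mul_right _) (h1.1.mul_right _)
  have hb := fun s (hs : s ∈ range S) => block (c := c) (c' := c') (l := L) (mb s)
    (by
      have := sum_inv_blk W (y / 2 ^ s)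
      rwa [Nat.div_div_eq_div_mul, ← pow_succ] at this) he he' hc s
    (fun P hP => (single_le_sum (f := fun P : F[X] => P.natDegree) (fun _ _ => Nat.zero_le _)
      (mem_biUnion.2 ⟨s, hs, hP⟩ : P ∈ U)).trans (Nat.le_add_left _ _))
  refine (expand (range S) (fun t : degreeLT F L => Ψ (u * (u' * (f + e * e' * t.1) + w)))
    (fun t => HH W c c' E E' y S t.1)
    (fun s => xx s (Om (bl W y s) E) (Om (bl W y s) E'))
    (fun s => yy s (Om (bl W y s) E) (Om (bl W y s) E'))
    (fun s => ∏ P ∈ bl W y s, 𝔼 t : degreeLT F L, th c E' c' E (-1) P t.1)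
    (fun s => ∏ P ∈ bl W y s, 𝔼 t : degreeLT F L, th c E' c' E 2 P t.1)
    (fun s t => ∏ P ∈ bl W y s, th c E' c' E (-1) P t.1)
    (fun s t => ∏ P ∈ bl W y s, th c E' c' E 2 P t.1) K (fun t => hΨ _)
    (fun s => xx_nonneg _ _ _) (fun s => yy_nonneg _ _ _) (fun t => ?_) fun σ hσ => ?_).trans ?_
  · refine prod_le_prod (fun s _ => mul_nonneg (bonf_nonneg _ _) (bonf_nonneg _ _)) fun s _ => ?_
    rw [← th_prod (-1) t.1 (hd s t.1), ← th_prod 2 t.1 (hd s t.1)]
    exact pt s _ _ _ _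
  · set α : F[X] → ℝ := fun P => if ∃ s ∈ σ, P ∈ bl W y s then -1 else 2 with hα
    have h1 : ∀ s ∈ σ, ∀ P ∈ bl W y s, α P = -1 := fun s hs P hP => if_pos ⟨s, hs, hP⟩
    have h2 : ∀ s ∈ range S \ σ, ∀ P ∈ bl W y s, α P = 2 := fun s hs P hP =>
      if_neg fun ⟨s', a, b⟩ => (mem_sdiff.1 hs).2 (bl_eq b hP ▸ a)
    have h3 : ∀ P, α P = -1 ∨ α P = 2 := fun P => by
      simp only [hα]
      split_ifs
      · exact Or.inl rfl
      · exact Or.inr rfl
    have key := hL f (e * e') U (fun P => th c E' c' E (α P) P) L (k1.mul_left k2)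
      (fun P _ hP => hP.trans ⟨c * c', by rw [← f1, ← f2]; ring⟩)
      (fun P hP => by
        obtain ⟨s, -, hs⟩ := mem_biUnion.1 hP
        exact ⟨(mem_blk.1 hs).1, (mem_blk.1 hs).2.1, (mem_blk.1 hs).2.2.2.2⟩)
      (fun P _ => th_per _ _ _ _ _ _)
      (fun P hP t => by
        obtain ⟨s, -, hs⟩ := mem_biUnion.1 hP
        have a1 := ind_nonneg (P ∣ c + E' * t)
        have a2 := ind_nonneg (P ∣ c' + E * t)
        have a3 : ind (P ∣ c + E' * t) + ind (P ∣ c' + E * t) ≤ 1 := by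
          by_cases b : P ∣ c + E' * t
          · rw [ind_pos b, ind_neg fun b' => hd s t P hs ⟨b, b'⟩, add_zero]
          · rw [ind_neg b, zero_add]
            exact ind_le_one _
        unfold th
        rcases h3 P with b | b <;> rw [b] <;> constructor <;> linarith)
      (fun P _ _ t ht => by
        have e1 : u' * (f + e * e' * t) + w = (c + E' * t) * e := by
          rw [hE']; linear_combination -f1
        have e2 : u * (f + e * e' * t) + w' = (c' + E * t) * e' := by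
          rw [hE]; linear_combination -f2
        rw [e1, e2] at ht
        unfold th
        rw [ind_neg fun b => ht ((b.mul_right _).mul_right _),
          ind_neg fun b => ht ((b.mul_right _).mul_left _), add_zero, mul_zero, add_zero])
      (by omega)
    rw [prod_split hσ α h1 h2 fun a P => 𝔼 t : degreeLT F L, th c E' c' E a P t.1] at key
    refine le_trans (le_of_eq (expect_congr rfl fun t _ => ?_)) key
    rw [prod_split hσ α h1 h2 fun a P => th c E' c' E a P t.1]
  · refine mul_le_mul_of_nonneg_left ?_ hK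
    rw [GG, GG, ← prod_pow, ← prod_mul_distrib, ← prod_mul_distrib]
    exact prod_le_prod (fun s hs => add_nonneg (mul_nonneg (xx_nonneg _ _ _) (hb s hs).1)
      (mul_nonneg (yy_nonneg _ _ _) (hb s hs).2.1)) fun s hs => (hb s hs).2.2

end LineSX

variable (F : Type) [Field F] [Fintype F] [CharP F 2]

theorem sLineG : SLineG F := by
  intro u u' w w' h W e e' n s i i' m m' y S R lo hi K ι Z M Φ hu hu' hF hWM hW hΨ hK hL hm hm'
    he he' hy
  classical
  obtain ⟨e1, e2⟩ := mem_monF.1 he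
  obtain ⟨e3, e4⟩ := mem_monF.1 he'
  obtain ⟨u1, u2⟩ := mem_monF.1 hu
  obtain ⟨u3, u4⟩ := mem_monF.1 hu'
  have gn : ∀ x : F[X], 0 ≤ GG W y S x := fun x => prod_nonneg fun _ _ => TModB.gb_nonneg _ _
  have g1 : 0 ≤ qq F (i + i') * K * (∏ s ∈ range S, VS (bl W y s)) ^ 2 *
      (ind (IsCoprime e W) * GG W y S e * (ind (IsCoprime e' W) * GG W y S e')) :=
    mul_nonneg (mul_nonneg (mul_nonneg (qq_pos _).le hK) (sq_nonneg _))
      (mul_nonneg (mul_nonneg (ind_nonneg _) (gn _)) (mul_nonneg (ind_nonneg _) (gn _)))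
  have sol : ∀ d d' : F[X], u' * (d' * e') = u * (d * e) + h → tot Z Φ (u * (d * e)) ≠ 0 →
      ∃ f, d * e = u' * f + w ∧ d' * e' = u * f + w' ∧ IsCoprime (d * e * (d' * e')) W := by
    intro d d' h1 h2
    obtain ⟨z, hz1, hz2⟩ := exists_ne_zero_of_sum_ne_zero h2
    obtain ⟨f, a, b⟩ := hF.supp z hz1 _ hz2
    have a1 := mul_left_cancel₀ u1.ne_zero a
    have a2 : d' * e' = u * f + w' :=
      mul_left_cancel₀ u3.ne_zero (by rw [h1, a, hF.add_eq])
    exact ⟨f, a1, a2, by rw [a1, a2]; exact b.of_isCoprime_of_dvd_right (hWM z hz1)⟩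
  by_cases hs : ∃ c ∈ monF F i, ∃ c' ∈ monF F i', u' * (c' * e') = u * (c * e) + h ∧
    tot Z Φ (u * (c * e)) ≠ 0
  swap
  · rw [sum_eq_zero fun d hd => sum_eq_zero fun d' hd' => ?_, zero_mul]
    · exact g1
    · by_cases h1 : u' * (d' * e') = u * (d * e) + h
      · have h2 : tot Z Φ (u * (d * e)) = 0 := by
          by_contra h2
          exact hs ⟨d, hd, d', hd', h1, h2⟩
        rw [h2, zero_mul, mul_zero]
      · rw [ind_neg h1, zero_mul]
  obtain ⟨c, hc, c', hc', h0, hz⟩ := hs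
  obtain ⟨f, f1, f2, k0⟩ := sol c c' h0 hz
  have w1 : ∀ P : F[X], Irreducible P → P ∣ h → P ∣ W := fun P hP a => hW P hP (a.mul_right _)
  have w2 : ∀ P : F[X], Irreducible P → P ∣ u → P ∣ W := fun P hP a =>
    hW P hP ((a.mul_right _).mul_left _)
  have w3 : ∀ P : F[X], Irreducible P → P ∣ u' → P ∣ W := fun P hP a =>
    hW P hP ((a.mul_left _).mul_left _)
  have k1 : IsCoprime e W := k0.of_mul_left_left.of_mul_left_right
  have k2 : IsCoprime e' W := k0.of_mul_left_right.of_mul_left_right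
  have k4 : IsCoprime e e' := isCoprime_of_irreducible_dvd (fun h1 => e1.ne_zero h1.1)
    fun P hP h1 h2 => hP.not_isUnit (k1.isUnit_of_dvd' h1 (w1 P hP (by
      have : h = u' * (c' * e') - u * (c * e) := by linear_combination -h0
      rw [this]
      exact dvd_sub ((h2.mul_left _).mul_left _) ((h1.mul_left _).mul_left _))))
  have k5 := LineSX.cop e1.ne_zero k1 w3
  have k6 := LineSX.cop e3.ne_zero k2 w2
  have o1 := LineSX.om_mul u1.ne_zero e1.ne_zero w2 y
  have o2 := LineSX.om_mul u3.ne_zero e3.ne_zero w3 y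
  have hb : u * e ≠ 0 := mul_ne_zero u1.ne_zero e1.ne_zero
  have ha : u' * e' ≠ 0 := mul_ne_zero u3.ne_zero e3.ne_zero
  have da : (u' * e').natDegree = s + m' := by rw [u3.natDegree_mul e3, u4, e4]
  obtain ⟨l, hl⟩ : ∃ l, l + (s + m') = i := ⟨i - (s + m'), by omega⟩
  set G : F[X] → ℝ := fun t => tot Z Φ (u * (u' * (f + e * e' * t) + w)) *
    LineWX.HH W c c' (u * e) (u' * e') y S t with hG
  have G0 : ∀ t, 0 ≤ G t := fun t => mul_nonneg (hΨ _) (LineWX.HH_nonneg _ _ _ _ _ _ _ _)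
  have s1 : ∀ d ∈ monF F i, ∀ d' ∈ monF F i', ind (u' * (d' * e') = u * (d * e) + h) *
      (tot Z Φ (u * (d * e)) * (nu W y S (d * e) * |mu d| * (nu W y S (d' * e') * |mu d'|))) ≤
      ∑ t ∈ ltF F l, ind (d = c + u' * e' * t) * (ind (d' = c' + u * e * t) * G t) := by
    intro d hd d' hd'
    have n0 : ∀ t ∈ ltF F l, 0 ≤ ind (d = c + u' * e' * t) * (ind (d' = c' + u * e * t) * G t) :=
      fun t _ => mul_nonneg (ind_nonneg _) (mul_nonneg (ind_nonneg _) (G0 t))
    by_cases h1 : u' * (d' * e') = u * (d * e) + h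
    swap
    · rw [ind_neg h1, zero_mul]; exact sum_nonneg n0
    by_cases h2 : tot Z Φ (u * (d * e)) = 0
    · rw [h2, zero_mul, mul_zero]; exact sum_nonneg n0
    obtain ⟨g, a1, a2, -⟩ := sol d d' h1 h2
    obtain ⟨t, ht⟩ : e * e' ∣ g - f := k4.mul_dvd
      (k5.dvd_of_dvd_mul_left ⟨d - c, by linear_combination f1 - a1⟩)
      (k6.dvd_of_dvd_mul_left ⟨d' - c', by linear_combination f2 - a2⟩)
    have h3 : d = c + u' * e' * t :=
      mul_right_cancel₀ e1.ne_zero (by linear_combination a1 - f1 + u' * ht)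
    have h4 : d' = c' + u * e * t :=
      mul_right_cancel₀ e3.ne_zero (by linear_combination a2 - f2 + u * ht)
    obtain ⟨m1, m2⟩ := mem_monF.1 hd
    obtain ⟨m3, m4⟩ := mem_monF.1 hc
    have h5 : t ∈ ltF F l := by
      rw [mem_ltF]
      by_cases t0 : t = 0
      · rw [t0, degree_zero]; exact WithBot.bot_lt_coe _
      have h6 : (d - c).degree < d.degree := degree_sub_lt_left
        (by rw [degree_eq_natDegree m1.ne_zero, degree_eq_natDegree m3.ne_zero, m2, m4])
        m1.ne_zero (by rw [m1.leadingCoeff, m3.leadingCoeff])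
      rw [show d - c = u' * e' * t by linear_combination h3, degree_eq_natDegree m1.ne_zero, m2,
        degree_eq_natDegree (mul_ne_zero ha t0), natDegree_mul ha t0, Nat.cast_lt] at h6
      rw [degree_eq_natDegree t0, Nat.cast_lt]
      omega
    refine le_trans ?_ (single_le_sum n0 h5)
    have h7 : u' * (f + e * e' * t) + w = d * e := by linear_combination -a1 - u' * ht
    rw [ind_pos h1, ind_pos h3, ind_pos h4, one_mul, one_mul, one_mul, hG]
    simp only [h7]
    refine mul_le_mul_of_nonneg_left ?_ (hΨ _)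
    unfold LineWX.HH
    simp only [prod_mul_distrib, ← h3, ← h4, o1, o2]
    exact mul_le_mul (TModB.nu_le W y S m1.ne_zero e1.ne_zero)
      (TModB.nu_le W y S (mem_monF.1 hd').1.ne_zero e3.ne_zero)
      (mul_nonneg (prod_nonneg fun _ _ => bonf_nonneg _ _) (abs_nonneg _))
      (prod_nonneg fun _ _ => bonf_nonneg _ _)
  have s2 : ∑ d ∈ monF F i, ∑ d' ∈ monF F i', ∑ t ∈ ltF F l,
      ind (d = c + u' * e' * t) * (ind (d' = c' + u * e * t) * G t) ≤ ∑ t ∈ ltF F l, G t := by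
    rw [sum_congr rfl fun d _ => sum_comm, sum_comm]
    refine sum_le_sum fun t _ => ?_
    simp only [← mul_sum, ← sum_mul]
    have := mul_le_of_le_one_left (G0 t) (TModB.sum_ind_le_one (monF F i') (c' + u * e * t))
    exact (mul_le_of_le_one_left (mul_nonneg (sum_nonneg fun _ _ => ind_nonneg _) (G0 t))
      (TModB.sum_ind_le_one _ _)).trans this
  have s3 : ∑ t ∈ ltF F l, G t = qq F l * 𝔼 t : degreeLT F l, G t.1 := by
    rw [← SPsi.sum_LT, ← Fintype.card_mul_expect, card_degreeLT, qq, Nat.cast_pow]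
  have sp : TModB.Sp (R + 16 * y) G := by
    refine TModB.Sp.mul (Φ := fun t => tot Z Φ (u * (u' * (f + e * e' * t) + w))) ?_
      (LineWX.HH_sp W c c' (u * e) (u' * e') y S)
    refine TModB.Sp.sum Z (fun z t => Φ z (u * (u' * (f + e * e' * t) + w))) fun z hz => ?_
    refine .per (M z) _ (hF.mon z hz).ne_zero (hF.deg z hz) fun g t => ?_
    have := hF.per z hz (u * (u' * (f + e * e' * g) + w)) (u * u' * (e * e') * t)
    rw [← this]
    exact congrArg _ (by ring)
  obtain ⟨L, hL1, hL2⟩ := LineSX.mean y S w1 hΨ hK hL hb ha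
    (by linear_combination h0) f1 f2 k1 k2
  have q1 : GG W y S (u * e) = GG W y S e := prod_congr rfl fun s _ => by rw [o1]
  have q2 : GG W y S (u' * e') = GG W y S e' := prod_congr rfl fun s _ => by rw [o2]
  rw [q1, q2] at hL2
  have s4 : 𝔼 t : degreeLT F l, G t.1 ≤
      K * ((∏ s ∈ range S, VS (bl W y s)) ^ 2 * (GG W y S e * GG W y S e')) :=
    (sp.expect (by omega) hL1).trans_le hL2
  calc _ ≤ qq F l * _ * qq F (n + s) := mul_le_mul_of_nonneg_right
        (((sum_le_sum fun d hd => sum_le_sum (s1 d hd)).trans s2).trans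
          (s3.trans_le (mul_le_mul_of_nonneg_left s4 (qq_pos _).le))) (qq_pos _).le
    _ = _ := by
      rw [mul_right_comm, ← qq_add, ind_pos k1, ind_pos k2, show l + (n + s) = i + i' by omega]
      ring

end Pool.Agent.PPg
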