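import Pool.Agent.MP_f37147_nt.G.St

/- Prime pairs over `F[X]`, general linear forms: the sieve bound. -/

set_option autoImplicit false
set_option linter.unusedSectionVars false

namespace Pool.Agent.PPg

open Polynomial Finset Pool.Agent.MP_4fffd4_nt Pool.Agent.MP_c853c5_nt Pool.Agent.MP_43e117_nt
open Pool.Agent.PPf
open scoped BigOperators

namespace MassSX

variable {F : Type} [Field F] [Fintype F]

theorem sum_piece {n i m : ℕ} (hm : i + m = n) (ν β G : F[X] → ℝ) :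
    ∑ L ∈ monF F n, ν L * up β i L * G L =
      ∑ e ∈ monF F m, ∑ d ∈ monF F i, ν (d * e) * β d * G (d * e) := by
  have h2 : ∑ L ∈ monF F n, ν L * up β i L * G L = ∑ L ∈ monF F n, ∑ e ∈ monF F m,
      ∑ d ∈ monF F i, ind (d * e = L) * (ν (d * e) * β d * G L) := by
    refine sum_congr rfl fun f hf => ?_
    rw [TSieve.piece hm ν β hf, sum_mul]
    refine sum_congr rfl fun e _ => ?_
    rw [sum_mul]
    exact sum_congr rfl fun d _ => mul_assoc _ _ _
  rw [h2, sum_comm]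
  refine sum_congr rfl fun e he => ?_
  rw [sum_comm]
  refine sum_congr rfl fun d hd => ?_
  exact TSieve.sum_ind (hm ▸ TSieve.mul_mem hd he) fun f => ν (d * e) * β d * G f

theorem lf_eq {u g : F[X]} {n s : ℕ} (hu : u ∈ monF F s) (hg : g ∈ monF F (n + s))
    (B : F[X] → ℝ) : lf u B g = ∑ L ∈ monF F n, B L * ind (u * L = g) := by
  rw [← sum_lf hu n B fun x => ind (x = g),
    sum_eq_single_of_mem g hg fun x _ hx => by rw [ind_neg hx, mul_zero], ind_pos rfl, mul_one]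

theorem corr_eq {h u u' : F[X]} {n s i m i' m' : ℕ} (hu : u ∈ monF F s) (hu' : u' ∈ monF F s)
    (hm : i + m = n) (hm' : i' + m' = n) (hh : h.natDegree < n) (Ψ ν β : F[X] → ℝ) :
    cG h u u' (n + s) Ψ (fun f => ν f * up β i f) (fun f => ν f * up β i' f) =
      ∑ e ∈ monF F m, ∑ e' ∈ monF F m', ∑ d ∈ monF F i, ∑ d' ∈ monF F i',
        ind (u' * (d' * e') = u * (d * e) + h) *
          (Ψ (u * (d * e)) * (ν (d * e) * β d * (ν (d' * e') * β d'))) := by
  have h1 : cG h u u' (n + s) Ψ (fun f => ν f * up β i f) (fun f => ν f * up β i' f) =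
      ∑ g ∈ monF F (n + s), lf u (fun f => ν f * up β i f) g *
        (Ψ g * lf u' (fun f => ν f * up β i' f) (g + h)) :=
    sum_congr rfl fun g _ => by
      show Ψ g * _ * _ = _
      ring
  rw [h1, sum_lf hu, sum_piece hm]
  refine sum_congr rfl fun e he => ?_
  rw [sum_comm]
  refine sum_congr rfl fun d hd => ?_
  have h3 : u * (d * e) ∈ monF F (n + s) := by
    rw [add_comm, ← hm]
    exact TSieve.mul_mem hu (TSieve.mul_mem hd he)
  rw [lf_eq hu' (TSieve.add_mem h3 (by omega)), sum_piece hm', mul_sum, mul_sum]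
  refine sum_congr rfl fun e' _ => ?_
  rw [mul_sum, mul_sum]
  exact sum_congr rfl fun d' _ => by ring

end MassSX

variable (F : Type) [Field F] [Fintype F] [CharP F 2]

theorem sMassG (h1 : SGG F) (h2 : SLineG F) : SMassG F := by
  intro u u' w w' h W n s y S D R lo up' K ι Z M Φ hu hu' hF hWM hW0 hP hpos hK hL hWy b1 b2 hn
    hhn i i' hi hi' hii
  obtain ⟨m, hm⟩ := Nat.exists_eq_add_of_le hi.le
  obtain ⟨m', hm'⟩ := Nat.exists_eq_add_of_le hi'.le
  have e1 : (n : ℝ) - i = m := by rw [hm]; push_cast; ring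
  have e2 : (n : ℝ) - i' = m' := by rw [hm']; push_cast; ring
  rw [e1, e2, MassSX.corr_eq hu hu' hm.symm hm'.symm hhn]
  have hP1 : ∀ P : F[X], Irreducible P → P.natDegree ≤ 15 → P ∣ W :=
    fun P a b => hP P a (Or.inl b)
  have hP2 : ∀ P : F[X], Irreducible P → P ∣ h * (u * u') → P ∣ W :=
    fun P a b => hP P a (Or.inr b)
  have hK' : 0 ≤ K * qq F (2 * s) := mul_nonneg hK (qq_pos _).le
  obtain ⟨a2, a4'⟩ := h1 W y S D m n hW0 hP1 hWy b1 b2 (by omega) hn
  obtain ⟨a3, -⟩ := h1 W y S D m' n hW0 hP1 hWy b1 b2 (by omega) hn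
  have a1 : (∑ e ∈ monF F m, ∑ e' ∈ monF F m', ∑ d ∈ monF F i, ∑ d' ∈ monF F i',
      ind (u' * (d' * e') = u * (d * e) + h) * (tot Z Φ (u * (d * e)) *
        (nu W y S (d * e) * |mu d| * (nu W y S (d' * e') * |mu d'|)))) * qq F (n + s) ≤
      qq F (i + i') * (K * qq F (2 * s)) * (∏ s ∈ range S, VS (bl W y s)) ^ 2 *
      ((∑ e ∈ monF F m, ind (IsCoprime e W) * GG W y S e) *
        ∑ e' ∈ monF F m', ind (IsCoprime e' W) * GG W y S e') := by
    rw [sum_mul_sum, sum_mul, mul_sum]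
    refine sum_le_sum fun e he => ?_
    rw [sum_mul, mul_sum]
    exact sum_le_sum fun e' he' => h2 u u' w w' h W e e' n s i i' m m' y S R lo up' _ ι Z M Φ hu hu'
      hF hWM hP2 hpos hK' hL hm.symm hm'.symm he he' (by omega)
  have hV0 : 0 ≤ ∏ s ∈ range S, VS (bl W y s) := prod_nonneg fun _ _ => TSieve.VS_nonneg _
  have g1 : 0 ≤ (m : ℝ) * ∑ e ∈ monF F m, ind (IsCoprime e W) * GG W y S e :=
    mul_nonneg (Nat.cast_nonneg _)
      (sum_nonneg fun _ _ => mul_nonneg (ind_nonneg _) (TSieve.GG_nonneg _ _ _ _))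
  have g2 : 0 ≤ (m' : ℝ) * ∑ e ∈ monF F m', ind (IsCoprime e W) * GG W y S e :=
    mul_nonneg (Nat.cast_nonneg _)
      (sum_nonneg fun _ _ => mul_nonneg (ind_nonneg _) (TSieve.GG_nonneg _ _ _ _))
  generalize (∑ e ∈ monF F m, ∑ e' ∈ monF F m', ∑ d ∈ monF F i, ∑ d' ∈ monF F i',
      ind (u' * (d' * e') = u * (d * e) + h) * (tot Z Φ (u * (d * e)) *
        (nu W y S (d * e) * |mu d| * (nu W y S (d' * e') * |mu d'|)))) = T at a1 ⊢
  generalize (∑ e ∈ monF F m, ind (IsCoprime e W) * GG W y S e) = A at a1 a2 g1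
  generalize (∑ e ∈ monF F m', ind (IsCoprime e W) * GG W y S e) = A' at a1 a3 g2
  generalize (∏ s ∈ range S, VS (bl W y s)) = V at a1 a4' hV0
  generalize (VS (pf W))⁻¹ = U at a4' ⊢
  generalize Real.exp (Real.exp 14 + 2 * D) = E at a2 a3 ⊢
  have a4 : (n : ℝ) * V ≤ D * U := by
    have c1 : (n : ℝ) ≤ D * y := by exact_mod_cast hn
    calc (n : ℝ) * V ≤ D * y * V := mul_le_mul_of_nonneg_right c1 hV0
      _ = D * (y * V) := mul_assoc _ _ _
      _ ≤ D * U := mul_le_mul_of_nonneg_left a4' (Nat.cast_nonneg _)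
  have hn0 : (0 : ℝ) < n := by exact_mod_cast (Nat.zero_le i).trans_lt hi
  have a5 : qq F (i + i') * qq F (2 * s) * (qq F m * qq F m') = qq F (n + s) * qq F (n + s) := by
    rw [← qq_add, ← qq_add, ← qq_add, ← qq_add,
      show i + i' + 2 * s + (m + m') = n + s + (n + s) by omega]
  rw [le_div_iff₀ (by positivity)]
  refine le_of_mul_le_mul_right ?_ (qq_pos (F := F) (n + s))
  calc (m : ℝ) * m' * T * (n : ℝ) ^ 2 * qq F (n + s)
      = (m * m' * (n : ℝ) ^ 2) * (T * qq F (n + s)) := by ring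
    _ ≤ (m * m' * (n : ℝ) ^ 2) * (qq F (i + i') * (K * qq F (2 * s)) * V ^ 2 * (A * A')) :=
        mul_le_mul_of_nonneg_left a1 (by positivity)
    _ = qq F (i + i') * (K * qq F (2 * s)) * ((n * V) ^ 2 * ((m * A) * (m' * A'))) := by ring
    _ ≤ qq F (i + i') * (K * qq F (2 * s)) *
          ((D * U) ^ 2 * ((5 * E * qq F m) * (5 * E * qq F m'))) := by
        refine mul_le_mul_of_nonneg_left ?_ (mul_nonneg (qq_pos _).le hK')
        exact mul_le_mul (pow_le_pow_left₀ (mul_nonneg hn0.le hV0) a4 2)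
          (mul_le_mul a2 a3 g2 (g1.trans a2)) (mul_nonneg g1 g2) (sq_nonneg _)
    _ = (5 * D * E) ^ 2 * (U ^ 2 * K) *
          (qq F (i + i') * qq F (2 * s) * (qq F m * qq F m')) := by ring
    _ = (5 * D * E) ^ 2 * (U ^ 2 * K) * qq F (n + s) * qq F (n + s) := by rw [a5]; ring

end Pool.Agent.PPg
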