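import Pool.Agent.MP_f37147_nt.G.St

/- Prime pairs over `F[X]`, general linear forms: the model with a weight. -/

set_option autoImplicit false
set_option linter.unusedSectionVars false

namespace Pool.Agent.PPg

open Polynomial Finset Pool.Agent.MP_4fffd4_nt Pool.Agent.MP_c853c5_nt Pool.Agent.MP_43e117_nt
open Pool.Agent.PPf
open scoped BigOperators

namespace ModGX

variable {F : Type} [Field F] [Fintype F] [CharP F 2]

theorem tr_cop {u L M : F[X]} (hM : ∀ P : F[X], Irreducible P → P ∣ u → P ∣ M)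
    (hL : IsCoprime L M) (κ : F[X] → ℝ) (R i : ℕ) : tr κ R i L = trM M κ R i (u * L) := by
  rw [tr, trM, up_cop hM hL, upLE, upLE]
  exact congrArg _ (Finset.sum_congr rfl fun t _ => up_cop hM hL κ t)

theorem fact {u u' w w' h : F[X]} {n R lo hi : ℕ} {ι : Type} {Z : Finset ι} {M : ι → F[X]}
    {Φ : ι → F[X] → ℝ} (hu : u.Monic) (hu' : u'.Monic) (H : FamG u u' w w' h n R lo hi Z M Φ)
    {z : ι} (hz : z ∈ Z) (κ : F[X] → ℝ) {N R' i i' : ℕ}
    (hN : (M z).natDegree + 2 * R' + i + i' ≤ N) :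
    mG h u u' N (Φ z) (tr κ R' i) (tr κ R' i') = (𝔼 f : degreeLT F N, Φ z f.1) *
      mcorr h N (trM (M z) κ R' i) (trM (M z) κ R' i') := by
  have H0 : FactX.Q (M z) (Φ z) N (0 + R' + i' + R' + i) fun _ => 1 :=
    FactX.Q_one (H.mon z hz).ne_zero (H.per z hz) (by omega)
  have H1 := FactX.Q_trM (FactX.Q_trM H0 κ 0) κ h 1 (fun _ => 1) one_ne_zero isCoprime_one_right
    (fun _ _ => rfl) (by simp)
  simp only [one_mul, mul_one, add_zero] at H1
  rw [mG, mcorr, mcorr, ← H1]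
  refine Finset.expect_congr rfl fun f _ => ?_
  by_cases h0 : Φ z f.1 = 0
  · simp [tw, h0]
  · obtain ⟨g, e, hc⟩ := H.supp z hz _ h0
    rw [tw, e, H.add_eq, lf_mul hu, lf_mul hu', mul_assoc,
      tr_cop (fun P a b => H.hdv z hz P a ((b.mul_right _).mul_left _)) hc.of_mul_left_left,
      tr_cop (fun P a b => H.hdv z hz P a ((b.mul_left _).mul_left _)) hc.of_mul_left_right]

end ModGX

variable (F : Type) [Field F] [Fintype F] [CharP F 2]

open Classical ModX in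
theorem sModG (h2 : SRestr F) : SModG F := by
  intro u u' w w' h W κ n s R R' lo hi τ B K ι Z M Φ hu hu' H hRn hW h15 hK hM hn hh hR hR' hτ hκ
    hκ1
  have hd : ∀ z ∈ Z, (M z).natDegree ≤ n := fun z hz => (H.deg z hz).trans hRn
  have r := fun z hz => h2 h (M z) κ n R' τ B (H.mon z hz) (hd z hz)
    (fun P a b => H.hdv z hz P a (b.mul_right _)) hn hh hR hR' hτ hκ hκ1
  have hm := H.toFam0.sum_mean (l := 5 * n) (by omega)
  have e : ∀ i i', i ≤ n → i' ≤ n → mG h u u' (5 * n) (tot Z Φ) (tr κ R' i) (tr κ R' i') =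
      ∑ z ∈ Z, (𝔼 f : degreeLT F (5 * n), Φ z f.1) *
        mcorr h (5 * n) (trM (M z) κ R' i) (trM (M z) κ R' i') := fun i i' a b => by
    rw [← sum_congr rfl fun z hz => ModGX.fact hu hu' H hz κ (N := 5 * n) (R' := R') (i := i)
      (i' := i') (by have := hd z hz; omega)]
    simp only [mG, mcorr, tw, tot, sum_mul, expect_sum_comm]
  have t1 := hτ.one_le
  have B1 : 1 ≤ B := by simpa [hκ1] using hκ 1 monic_one (by simp)
  have n1 : (1 : ℝ) ≤ n := by exact_mod_cast (by omega : 1 ≤ n)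
  refine ⟨fun i i' a b c => ?_, ?_⟩
  · rw [e i i' a b]
    exact avg hm (by positivity) fun z hz => (r z hz).1 i i' a b c
  obtain ⟨S, hS⟩ : ∃ S : ι → ℝ, S = fun z => ∑ i ∈ range (2 * R'), ∑ i' ∈ range (2 * R'),
    ((n : ℝ) - i) * ((n : ℝ) - i') * mcorr h (5 * n) (trM (M z) κ R' i) (trM (M z) κ R' i') :=
    ⟨_, rfl⟩
  have e2 : ∑ i ∈ range (2 * R'), ∑ i' ∈ range (2 * R'), ((n : ℝ) - i) * ((n : ℝ) - i') *
      mG h u u' (5 * n) (tot Z Φ) (tr κ R' i) (tr κ R' i') =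
      ∑ z ∈ Z, (𝔼 f : degreeLT F (5 * n), Φ z f.1) * S z := by
    simp only [hS, mul_sum]
    rw [sum_comm (s := Z)]
    refine sum_congr rfl fun i hi => ?_
    rw [sum_comm (s := Z)]
    refine sum_congr rfl fun i' hi' => ?_
    rw [e i i' ((mem_range.1 hi).le.trans hR') ((mem_range.1 hi').le.trans hR'), mul_sum]
    exact sum_congr rfl fun z _ => by ring
  have a1 := avg hm (c := fun z => S z - (VS (pf (M z)))⁻¹ * sing (M z) (5 * n))
    (b := (18 + 3 * Real.exp 18) * n ^ 3 * B ^ 2 * τ ^ 6 * (3 / 4) ^ R') (by positivity)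
    fun z hz => by
      have b1 := err (H.mon z hz).ne_zero (hd z hz) (by omega : 1 ≤ 2 * R') hR' hτ
      have b2 : 3 * Real.exp 18 * n * τ ^ 6 * (3 / 4 : ℝ) ^ (2 * R') ≤
          3 * Real.exp 18 * (n ^ 3 * B ^ 2) * τ ^ 6 * (3 / 4) ^ R' := by
        have : (n : ℝ) ≤ n ^ 3 * B ^ 2 := (le_self_pow₀ n1 (by norm_num)).trans
          (le_mul_of_one_le_right (by positivity) (one_le_pow₀ B1))
        have : (3 / 4 : ℝ) ^ (2 * R') ≤ (3 / 4) ^ R' :=
          pow_le_pow_of_le_one (by norm_num) (by norm_num) (by omega)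
        gcongr
      have b3 : 18 * (n : ℝ) ^ 3 * B ^ 2 * τ ^ 5 * (3 / 4 : ℝ) ^ R' ≤
          18 * n ^ 3 * B ^ 2 * τ ^ 6 * (3 / 4) ^ R' := by gcongr; omega
      refine (abs_sub_le _ ((VS (pf (M z)))⁻¹ * mainT (M z) n (2 * R')) _).trans ?_
      rw [hS]
      linarith [(r z hz).2]
  obtain ⟨s₀, hs⟩ : ∃ s₀, s₀ = ∏ P ∈ irrLE F (5 * n) \ pf W,
    (1 - 2 / qq F P.natDegree) / (1 - 1 / qq F P.natDegree) ^ 2 := ⟨_, rfl⟩
  have s0 : 0 ≤ s₀ := hs ▸ prod_nonneg fun P hP => (fac (mem_irrLE.1 (mem_sdiff.1 hP).1).2.1).1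
  have s1 : s₀ ≤ 1 := hs ▸ prod_le_one (fun P hP => (fac (mem_irrLE.1 (mem_sdiff.1 hP).1).2.1).1)
    fun P hP => (fac (mem_irrLE.1 (mem_sdiff.1 hP).1).2.1).2
  have a2 : ∑ z ∈ Z, (𝔼 f : degreeLT F (5 * n), Φ z f.1) *
      ((VS (pf (M z)))⁻¹ * sing (M z) (5 * n)) ≤ (VS (pf W))⁻¹ ^ 2 * K := by
    refine le_trans (le_of_eq ?_) (mul_le_mul_of_nonneg_left
      ((mul_le_mul_of_nonneg_left hM s0).trans (mul_le_of_le_one_left hK s1)) (sq_nonneg _))
    rw [mul_sum, mul_sum]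
    refine sum_congr rfl fun z hz => ?_
    rw [main (H.mon z hz).ne_zero (hW z hz) ((hd z hz).trans (by omega)) h15, ← hs]
    ring
  simp only [mul_sub, sum_sub_distrib] at a1
  rw [e2]
  linarith [(abs_le.1 a1).2]

end Pool.Agent.PPg
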