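import Pool.Agent.MP_f37147_nt.G.St

/- Prime pairs over `F[X]`, general linear forms: one linear form is prime. -/

set_option autoImplicit false
set_option linter.unusedSectionVars false

namespace Pool.Agent.PPg

open Polynomial Finset Pool.Agent.MP_4fffd4_nt Pool.Agent.MP_c853c5_nt Pool.Agent.MP_43e117_nt
open Pool.Agent.PPf
open scoped BigOperators

namespace OneGX

variable {F : Type} [Field F] [Fintype F]

theorem lift {U V M y : F[X]} {n s : ℕ} (hU : U ∈ monF F s) (hV : V.natDegree < n) (c : ℝ) :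
    ∑ L ∈ monF F (n + s), c * ind (Irreducible L) * ind (U * M ∣ L - (U * y + V)) =
      ∑ f ∈ monF F n, c * ind (Irreducible (U * f + V)) * ind (M ∣ f - y) := by
  obtain ⟨h1, h2⟩ := mem_monF.1 hU
  have hdeg : V.degree < (n + s : ℕ) :=
    degree_le_natDegree.trans_lt (by exact_mod_cast hV.trans_le (Nat.le_add_right n s))
  have e := TK.sum_dvd_eq h1 n fun L =>
    c * ind (Irreducible (L + V)) * ind (U * M ∣ L + V - (U * y + V))
  rw [h2, add_comm s n] at e
  rw [← sum_monF_shift hdeg]
  refine (Finset.sum_congr rfl fun L _ => ?_).trans (e.trans (Finset.sum_congr rfl fun f _ => ?_))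
  · by_cases hL : U ∣ L
    · rw [ind_pos hL, one_mul]
    · rw [ind_neg hL, zero_mul, ind_neg (P := U * M ∣ L + V - (U * y + V)), mul_zero]
      intro hd
      have h3 := dvd_add ((dvd_mul_right U M).trans hd) (dvd_mul_right U y)
      rw [show L + V - (U * y + V) + U * y = L by ring] at h3
      exact hL h3
  · rw [show U * f + V - (U * y + V) = U * (f - y) by ring,
      TK.ind_iff (mul_dvd_mul_iff_left h1.ne_zero)]

theorem pf_mul {U M : F[X]} (hU : U ≠ 0) (hM : M ≠ 0)
    (H : ∀ P : F[X], Irreducible P → P ∣ U → P ∣ M) :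
    Pool.Agent.MP_43e117_nt.pf (U * M) = Pool.Agent.MP_43e117_nt.pf M := by
  ext P
  rw [Pool.Agent.MP_43e117_nt.mem_pf (mul_ne_zero hU hM), Pool.Agent.MP_43e117_nt.mem_pf hM]
  refine and_congr_right fun _ => and_congr_right fun hP => ⟨fun e => ?_, fun e => e.mul_left U⟩
  exact (hP.prime.dvd_or_dvd e).elim (H P hP) id

end OneGX

variable (F : Type) [Field F] [Fintype F] [CharP F 2]

theorem sOneG (h1 : SEq F) (h2 : SPnt F) : SOneG F := by
  intro κ _ _ ρ j Ps U V W x Y D R n s hC hR hU hV hPs hUW hρ hx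
  obtain ⟨u1, u2⟩ := mem_monF.1 hU
  have key := (h1 κ ρ Ps W x Y D R n hC hR.le).2 j
    (fun f => (n + s : ℕ) * ind (Irreducible (U * f + V)))
    (4 * (n + s : ℕ) * (qq F (n + s) / qq F ((n + s) / 2))) (by
      intro S hS hd y hy hy'
      have hm : (W * ∏ P ∈ S, P).Monic :=
        hC.mon.mul (monic_prod_of_monic _ _ fun P hP => (hC.good P (hS hP)).1)
      have hW : IsCoprime (U * y + V) W := by
        obtain ⟨t, ht⟩ := hy
        have e : U * y + V = U * x + V + W * (U * t) := by linear_combination U * ht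
        rw [e]
        exact hx.add_mul_left_left _
      have hc : IsCoprime (U * y + V) (U * (W * ∏ P ∈ S, P)) := by
        refine IsCoprime.mul_right ?_ (hW.mul_right (IsCoprime.prod_right fun P hP => ?_))
        · exact isCoprime_of_irreducible_dvd (fun e => u1.ne_zero e.2) fun P hP a b =>
            hP.not_isUnit (hW.isUnit_of_dvd' a (hUW P hP b))
        · obtain ⟨-, p1, p2⟩ := hC.good P (hS hP)
          exact (p1.coprime_iff_not_dvd.2 fun e => hy' P hP ((hρ P p1 p2 y).2 e)).symm
      have hdg : (U * (W * ∏ P ∈ S, P)).natDegree = (W * ∏ P ∈ S, P).natDegree + s := by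
        rw [u1.natDegree_mul hm, u2, add_comm]
      have h3 := h2 _ (U * y + V) (n + s) (u1.mul hm) (by omega) hc
      rw [OneGX.lift hU hV, hdg, OneGX.pf_mul u1.ne_zero hm.ne_zero
        (fun P hP e => (hUW P hP e).mul_right _), qq_add n s, qq_add _ s,
        mul_div_mul_right _ _ (qq_pos s).ne', ← qq_add n s] at h3
      exact h3)
  have e : ∑ f ∈ monF F n, ((n + s : ℕ) : ℝ) * ind (Irreducible (U * f + V)) * wt ρ {j} Ps W x Y f =
      ((n + s : ℕ) : ℝ) * ∑ f ∈ monF F n, wt ρ ∅ Ps W x Y f * ind (Irreducible (U * f + V)) := by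
    rw [Finset.mul_sum]
    refine Finset.sum_congr rfl fun f hf => ?_
    by_cases hi : Irreducible (U * f + V)
    · rw [wt_good W x Y (J := {j})]
      · ring
      · intro P hP l hl hd
        obtain ⟨p0, p1, p2⟩ := hC.good P hP
        obtain ⟨f1, f2⟩ := mem_monF.1 hf
        rw [Finset.mem_singleton.1 hl, hρ P p1 p2] at hd
        have h3 : (U * f).natDegree = s + n := by rw [u1.natDegree_mul f1, u2, f2]
        have h4 : (U * f + V).natDegree = s + n := by
          rw [natDegree_add_eq_left_of_natDegree_lt (by omega), h3]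
        have h5 := natDegree_le_of_dvd (p1.associated_of_dvd hi hd).symm.dvd p0.ne_zero
        have h6 := hPs P hP
        omega
    · rw [ind_neg hi]
      ring
  rw [e] at key
  linarith [(abs_le.1 key).1]

end Pool.Agent.PPg
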