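import Pool.Agent.MP_f37147_nt.G.St

/- Prime pairs over `F[X]`, general linear forms: two forms are prime. -/

set_option autoImplicit false
set_option linter.unusedSectionVars false

namespace Pool.Agent.PPg

open Polynomial Finset Pool.Agent.MP_4fffd4_nt Pool.Agent.MP_c853c5_nt Pool.Agent.MP_43e117_nt
open Pool.Agent.PPf
open scoped BigOperators

namespace PairGX

variable {F : Type} [Field F] [Fintype F]

theorem mul_mem {u f : F[X]} {s n : ℕ} (hu : u ∈ monF F s) (hf : f ∈ monF F n) :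
    u * f ∈ monF F (n + s) := by
  obtain ⟨h1, h2⟩ := mem_monF.1 hu
  obtain ⟨h3, h4⟩ := mem_monF.1 hf
  exact mem_monF.2 ⟨h1.mul h3, by rw [h1.natDegree_mul h3, h2, h4, add_comm]⟩

theorem lf_nonneg (u : F[X]) {A : F[X] → ℝ} (hA : ∀ f, 0 ≤ A f) (g : F[X]) : 0 ≤ lf u A g :=
  mul_nonneg (ind_nonneg _) (hA _)

theorem cG_eq [CharP F 2] {U U' V V' : F[X]} {n s : ℕ} (hU : U ∈ monF F s) (hU' : U' ∈ monF F s)
    (hV : V.natDegree < n) (w A : F[X] → ℝ) :
    cG (U' * V + U * V') U' U (n + s + s) (fun g => lf (U' * U) w (g - U' * V)) A A =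
      ∑ f ∈ monF F n, w f * (A (U * f + V) * A (U' * f + V')) := by
  have hd : (U' * V).degree < (n + s + s : ℕ) := PairX.deg_lt (natDegree_mul_le.trans_lt (by
    rw [(mem_monF.1 hU').2]; omega))
  rw [cG, corr, ← sum_monF_shift hd]
  simp only [tw, add_sub_cancel_right, mul_assoc (lf (U' * U) w _)]
  rw [add_assoc n, sum_lf (mul_mem hU' hU) n w
    fun g => lf U' A (g + U' * V) * lf U A (g + U' * V + (U' * V + U * V'))]
  refine Finset.sum_congr rfl fun f _ => ?_
  rw [show U' * U * f + U' * V + (U' * V + U * V') = U * (U' * f + V') by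
      linear_combination add_add_self 0 (U' * V),
    show U' * U * f + U' * V = U' * (U * f + V) by ring, lf_mul (mem_monF.1 hU).1,
    lf_mul (mem_monF.1 hU').1]

theorem err {n s H : ℕ} (h : 2 * s ≤ n / (2 * H)) :
    qq F (n + s + s) / qq F ((n + s) / H) ≤ qq F n / qq F (n / (2 * H)) := by
  rw [div_le_div_iff₀ (qq_pos _) (qq_pos _), ← qq_add, ← qq_add]
  refine qq_mono ?_
  have h1 : n / H ≤ (n + s) / H := Nat.div_le_div_right (by omega)
  rw [mul_comm 2 H, ← Nat.div_div_eq_div_mul] at h ⊢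
  omega

end PairGX

variable (F : Type) [Field F] [Fintype F] [CharP F 2]

theorem sPairG (C : ℝ) (h1 : STwinG F C) (h2 : SBd F) (h3 : SInstG F) (h5 : SCard F) :
    SPairG F C := by
  intro κ _ _ N s U U' V V' W hN hU hU' hh hW hP
  obtain ⟨H, hH, n₀, hT⟩ := h1 N s U' U V V' _ W hN hU' hU hh hW hP
  have hM : 0 < 2 * (2 * H) * (4 * Fintype.card κ + 1) := by positivity
  obtain ⟨n₁, hD⟩ := exists_DivB (F := F) 5 _ hM
  obtain ⟨n₂, hp⟩ := exists_poly (F := F) 3 2 _ hM
  refine ⟨2 * (2 * H), by omega, n₀ + n₁ + n₂ + V.natDegree + V'.natDegree + 1 + 2 * s +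
    2 * s * N ^ 2 + 2 * s * (2 * H) +
    (W.natDegree + 1) * (8 * (128 * (2 * N ^ 4) + 136)), ?_⟩
  intro n hn ρ i j Ps x Y D I hc hi hj hx hx' hPs hg hI hf
  have hlo : W.natDegree < wlo (2 * N ^ 4) (n + s + s) :=
    (Nat.le_div_iff_mul_le (x := W.natDegree + 1) (by positivity)).2 (by omega)
  have hR : n / N ^ 2 + s ≤ n := by
    have : n / N ^ 2 ≤ n / 2 := Nat.div_le_div_left (by nlinarith) (by omega)
    omega
  have hR' : (n / N ^ 2 + 2 * s) * N ^ 2 ≤ 2 * (n + s) := by
    have := Nat.div_mul_le_self n (N ^ 2)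
    rw [add_mul]
    omega
  have herr := PairGX.err (F := F) (n := n) (s := s) (H := H)
    ((Nat.le_div_iff_mul_le (by omega)).2 (by omega))
  have hn0 : (0 : ℝ) < n := by exact_mod_cast (by omega : 0 < n)
  have hsz := PairX.size (F := F) (hp n (by omega))
  have hbd : ∀ f ∈ monF F n, ∑ z ∈ ZZ Ps Y, |ph ρ {i, j} Ps W x Y z f| ≤
      (qq F (n / (2 * (2 * H) * (4 * Fintype.card κ + 1))) * (3 * n) ^ 2) ^
        (2 * Fintype.card κ) := fun f hf =>
    h2 κ _ _ Ps W _ f Y n _ hc.good hc.y01 (fun P a => (hPs P a).1.le) (by omega)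
      (hD n (by omega)) (hg f hf)
  have hB : 0 < (qq F (n / (2 * (2 * H) * (4 * Fintype.card κ + 1))) * (3 * n) ^ 2) ^
      (2 * Fintype.card κ) := pow_pos (mul_pos (qq_pos _) (by positivity)) _
  generalize (qq F (n / (2 * (2 * H) * (4 * Fintype.card κ + 1))) * (3 * n) ^ 2) ^
    (2 * Fintype.card κ) = B at hsz hbd hB
  obtain ⟨hF, hL, hMn⟩ := h3 κ ρ i j Ps U U' V V' W x Y D _ n s _ _ B I hc hR hU hU' (by omega)
    hP hi hj hx hx' hlo (fun P a => (hPs P a).2) hB hbd hf
  have ew : (tot (ZZ Ps Y) fun z g =>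
      lf (U' * U) (fun f => ph ρ {i, j} Ps W x Y z f / B) (g - U' * V)) =
      fun g => lf (U' * U) (fun f => wt ρ {i, j} Ps W x Y f / B) (g - U' * V) := by
    have e : (fun f => wt ρ {i, j} Ps W x Y f / B) =
        fun f => ∑ z ∈ ZZ Ps Y, ph ρ {i, j} Ps W x Y z f / B := funext fun f => by
      rw [(h5 κ ρ {i, j} Ps W x Y D _ hc).2.1 f, tot, Finset.sum_div]
    rw [e, lf_sum]
    rfl
  have hq := qq_pos (F := F) (2 * s)
  have key := hT (n + s) (by omega) _ (I / qq F W.natDegree / B / qq F (2 * s)) _ _ _ _ hR' hF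
    (fun z _ => (dvd_mul_right _ _).mul_left _)
    (fun f => by
      rw [ew]
      exact PairGX.lf_nonneg _ (fun f => div_nonneg (wt_nonneg _ _ _ _ _ _ _) hB.le) _)
    (div_nonneg (div_nonneg (div_nonneg hI (qq_pos _).le) hB.le) hq.le)
    (by rw [div_mul_cancel₀ _ hq.ne']; exact hL) hMn
  rw [ew, PairGX.cG_eq hU hU' (by omega)] at key
  have es : ∑ f ∈ monF F n, wt ρ ∅ Ps W x Y f *
      ind (Irreducible (U * f + V) ∧ Irreducible (U' * f + V')) =
      B * ∑ f ∈ monF F n, wt ρ {i, j} Ps W x Y f / B *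
        (ind (Irreducible (U * f + V)) * ind (Irreducible (U' * f + V'))) := by
    rw [Finset.mul_sum]
    refine Finset.sum_congr rfl fun f hm => ?_
    by_cases hq : Irreducible (U * f + V) ∧ Irreducible (U' * f + V')
    · have hg' : ∀ P ∈ Ps, ∀ l ∈ ({i, j} : Finset κ), ¬ P ∣ f - ρ P l := by
        intro P a l hl
        obtain ⟨-, b, c⟩ := hc.good P a
        have d : P.natDegree < n + s := by have := (hPs P a).1; omega
        rcases Finset.mem_insert.1 hl with rfl | hl
        · rw [hi P b c]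
          exact PairX.not_dvd b d
            (add_mem_mon (PairX.deg_lt (by omega)) (PairGX.mul_mem hU hm)) hq.1
        · rw [Finset.mem_singleton.1 hl, hj P b c]
          exact PairX.not_dvd b d
            (add_mem_mon (PairX.deg_lt (by omega)) (PairGX.mul_mem hU' hm)) hq.2
      rw [wt_good W x Y hg', ind_pos hq, ind_pos hq.1, ind_pos hq.2, ← mul_assoc,
        mul_div_cancel₀ _ hB.ne', mul_one, mul_one, mul_one]
    · rw [ind_neg hq]
      rcases not_and_or.1 hq with e | e <;> rw [ind_neg e] <;> ring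
  rw [es, mul_left_comm]
  refine (mul_le_mul_of_nonneg_left key hB.le).trans ?_
  rw [mul_add]
  refine add_le_add (le_of_eq ?_) ((mul_le_mul_of_nonneg_left herr hB.le).trans hsz)
  rw [show n + s + s = n + 2 * s by ring, qq_add]
  field_simp

end Pool.Agent.PPg
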