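import Pool.Agent.MP_f37147_nt.G.St

/- Prime pairs over `F[X]`, general linear forms: the choice of the modulus and of the roots. -/

set_option autoImplicit false
set_option linter.unusedSectionVars false

namespace Pool.Agent.PPg

open Polynomial Finset Pool.Agent.MP_4fffd4_nt Pool.Agent.MP_c853c5_nt Pool.Agent.MP_43e117_nt
open Pool.Agent.PPf
open scoped BigOperators

namespace TupGX

variable {F : Type} [Field F] [Fintype F]

theorem lin_root (U V : F[X]) : ∃ r : F[X] → F[X], ∀ P : F[X], Irreducible P → ¬ P ∣ U →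
    ∀ f, P ∣ f - r P ↔ P ∣ U * f + V := by
  have H : ∀ P : F[X], Irreducible P ∧ ¬ P ∣ U → ∃ r, P ∣ U * r + V := fun P hP => by
    obtain ⟨x, y, e⟩ := hP.1.coprime_iff_not_dvd.2 hP.2
    exact ⟨-(y * V), x * V, by linear_combination (-V) * e⟩
  choose! r hr using H
  refine ⟨r, fun P hP hU f => ⟨fun e => ?_, fun e => ?_⟩⟩
  · have h1 := dvd_add (hr P ⟨hP, hU⟩) (e.mul_left U)
    rwa [show U * r P + V + U * (f - r P) = U * f + V by ring] at h1
  · have h1 := dvd_sub e (hr P ⟨hP, hU⟩)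
    rw [show U * f + V - (U * r P + V) = U * (f - r P) by ring] at h1
    exact (hP.prime.dvd_or_dvd h1).resolve_left hU

theorem quad_ne [CharP F 2] {a c U : F[X]} (V : F[X]) (hU : U ≠ 0) (hac : ¬ IsSquare (a * c)) :
    a * V ^ 2 + c * U ^ 2 ≠ 0 := fun e => by
  have h2 : (2 : F[X]) = 0 := by exact_mod_cast CharP.cast_eq_zero F[X] 2
  have h1 : (a * V) ^ 2 = U ^ 2 * (a * c) := by
    linear_combination a * e - a * c * U ^ 2 * h2
  obtain ⟨t, ht⟩ := (IsIntegrallyClosed.pow_dvd_pow_iff two_ne_zero).1 ⟨_, h1⟩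
  refine hac ⟨t, mul_left_cancel₀ (pow_ne_zero 2 hU) ?_⟩
  rw [← h1, ht]
  ring

theorem exists_mod [CharP F 2] {k : ℕ} (w : ℕ) {a c : F[X]} {U V : Fin k → F[X]}
    (hU : ∀ l, U l ≠ 0) (hd : ∀ l l', l ≠ l' → U l' * V l + U l * V l' ≠ 0)
    (hac : ¬ IsSquare (a * c)) :
    ∃ g : F[X], g.Monic ∧ a ∣ g ∧ (∀ l, U l ∣ g) ∧
      (∀ l l', l ≠ l' → U l' * V l + U l * V l' ∣ g) ∧ (∀ l, a * V l ^ 2 + c * U l ^ 2 ∣ g) ∧
      ∀ P : F[X], Irreducible P → P.natDegree ≤ w → P ∣ g := by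
  classical
  have ha : a ≠ 0 := fun e => hac ⟨0, by rw [e, zero_mul, zero_mul]⟩
  have h0 : a * (∏ l, U l) * (∏ p ∈ (univ : Finset (Fin k)).offDiag,
      (U p.2 * V p.1 + U p.1 * V p.2)) * (∏ l, (a * V l ^ 2 + c * U l ^ 2)) *
      ∏ P ∈ irrLE F w, P ≠ 0 :=
    mul_ne_zero (mul_ne_zero (mul_ne_zero (mul_ne_zero ha
      (Finset.prod_ne_zero_iff.2 fun l _ => hU l))
      (Finset.prod_ne_zero_iff.2 fun p hp => hd _ _ (Finset.mem_offDiag.1 hp).2.2))
      (Finset.prod_ne_zero_iff.2 fun l _ => quad_ne _ (hU l) hac))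
      (Finset.prod_ne_zero_iff.2 fun P hP => (mem_irrLE.1 hP).1.ne_zero)
  refine ⟨_, monic_mul_leadingCoeff_inv h0, Dvd.dvd.mul_right ?_ _,
    fun l => Dvd.dvd.mul_right ?_ _, fun l l' e => Dvd.dvd.mul_right ?_ _,
    fun l => Dvd.dvd.mul_right ?_ _, fun P hP e => Dvd.dvd.mul_right ?_ _⟩
  · exact (((dvd_mul_right _ _).mul_right _).mul_right _).mul_right _
  · exact ((((Finset.dvd_prod_of_mem U (mem_univ l)).mul_left _).mul_right _).mul_right
      _).mul_right _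
  · exact (((Finset.dvd_prod_of_mem (fun p : Fin k × Fin k => U p.2 * V p.1 + U p.1 * V p.2)
      (a := (l, l')) (Finset.mem_offDiag.2 ⟨mem_univ _, mem_univ _, e⟩)).mul_left _).mul_right
        _).mul_right _
  · exact ((Finset.dvd_prod_of_mem (fun l => a * V l ^ 2 + c * U l ^ 2) (mem_univ l)).mul_left
      _).mul_right _
  · obtain ⟨Q, q1, q2, q3, -, q5⟩ := RootX.exists_monic hP
    exact (q3.trans (Finset.dvd_prod_of_mem (fun P => P)
      (mem_irrLE.2 ⟨q1, q2, q5.trans_le e⟩))).mul_left _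

end TupGX

variable (F : Type) [Field F] [Fintype F] [CharP F 2]

theorem sTupleG {k w : ℕ} (H : STupleWG F k w) : STupleG F k := by
  intro a c s U V hU hd hac hadm
  have h2 : (2 : F[X]) = 0 := by exact_mod_cast CharP.cast_eq_zero F[X] 2
  obtain ⟨g, g0, g1, g2, g3, g4, g5⟩ :=
    TupGX.exists_mod w (fun l => (mem_monF.1 (hU l)).1.ne_zero) hd hac
  obtain ⟨T, hT⟩ := RootX.exists_shift g g0.ne_zero
    (fun R t => ¬ R ∣ a * t ^ 2 + c ∧ ∀ l, ¬ R ∣ U l * t + V l) hadm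
  obtain ⟨r, hr⟩ := RootX.exists_root a c
  choose ρ hρ using fun l => TupGX.lin_root (U l) (V l)
  have r1 : ∀ l, ∀ P : F[X], Irreducible P → ¬ P ∣ g → ∀ f, P ∣ f - ρ l P ↔ P ∣ U l * f + V l :=
    fun l P hP hW => hρ l P hP fun e => hW (e.trans (g2 l))
  have r2 : ∀ P : F[X], Irreducible P → ¬ P ∣ g → ∀ f, P ∣ f - r P ↔ P ∣ a * f ^ 2 + c :=
    fun P hP hW => hr P hP fun e => hW (e.trans g1)
  have r3 : ∀ l, ∀ P : F[X], Irreducible P → ¬ P ∣ g → P ∣ U l * ρ l P + V l :=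
    fun l P hP hW => (r1 l P hP hW _).1 (by rw [sub_self]; exact dvd_zero _)
  have r4 : ∀ l, ∀ P : F[X], Irreducible P → ¬ P ∣ g → ¬ P ∣ ρ l P - r P := fun l P hP hW e => by
    have h1 := dvd_add (((r2 P hP hW _).1 e).mul_left (U l ^ 2))
      ((r3 l P hP hW).mul_left (a * (U l * ρ l P + V l)))
    rw [show U l ^ 2 * (a * ρ l P ^ 2 + c) + a * (U l * ρ l P + V l) * (U l * ρ l P + V l) =
      a * V l ^ 2 + c * U l ^ 2 by
        linear_combination (a * U l * ρ l P * (U l * ρ l P + V l)) * h2] at h1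
    exact hW (h1.trans (g4 l))
  refine H a c g T s U V (fun P o => o.elim (r P) fun l => ρ l P) hU hd hac g0
    (fun P hP e => e.elim (g5 P hP) fun e => e.trans g1) (fun l P _ e => e.trans (g2 l))
    (fun l l' e P _ e' => e'.trans (g3 l l' e))
    (isCoprime_of_irreducible_dvd (fun e => g0.ne_zero e.2) fun P hP e e' => ?_)
    (fun l => isCoprime_of_irreducible_dvd (fun e => g0.ne_zero e.2) fun P hP e e' => ?_)
    (fun P hP hW l l' e => ?_) r1 r2
  · obtain ⟨Q, t, q1, q2, q3⟩ := hT P hP e'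
    have h1 := dvd_sub (q1.trans e) (q3.mul_left (a * (T + t)))
    rw [show a * T ^ 2 + c - a * (T + t) * (T - t) = a * t ^ 2 + c by ring] at h1
    exact q2.1 h1
  · obtain ⟨Q, t, q1, q2, q3⟩ := hT P hP e'
    have h1 := dvd_sub (q1.trans e) (q3.mul_left (U l))
    rw [show U l * T + V l - U l * (T - t) = U l * t + V l by ring] at h1
    exact q2.2 l h1
  · rcases l with _ | l <;> rcases l' with _ | l'
    · rfl
    · exact absurd (dvd_sub_comm.1 e) (r4 l' P hP hW)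
    · exact absurd e (r4 l P hP hW)
    · by_contra hne
      have h1 := dvd_add ((r3 l P hP hW).mul_left (U l'))
        (((r1 l' P hP hW (ρ l P)).1 e).mul_left (U l))
      rw [show U l' * (U l * ρ l P + V l) + U l * (U l' * ρ l P + V l') =
        U l' * V l + U l * V l' by linear_combination (U l * U l' * ρ l P) * h2] at h1
      exact hW (h1.trans (g3 l l' fun e => hne (by rw [e])))

end Pool.Agent.PPg
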