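import Mathlib
import Pool.Agent.MP_f37147_nt.Ex.Class

/- Prime pairs over `F[X]`, general linear forms: definitions and the list of steps. -/

set_option autoImplicit false
set_option linter.unusedSectionVars false

namespace Pool.Agent.PPg

open Polynomial Finset Pool.Agent.MP_4fffd4_nt Pool.Agent.MP_c853c5_nt Pool.Agent.MP_43e117_nt
open Pool.Agent.PPf
open scoped BigOperators

section Defs

variable {F : Type} [Field F] [Fintype F]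

/-- The lift of a function along multiplication by `u`. -/
noncomputable def lf (u : F[X]) (A : F[X] → ℝ) (g : F[X]) : ℝ := ind (u ∣ g) * A (g /ₘ u)

/-- The weighted correlation of two lifts. -/
noncomputable def cG (h u u' : F[X]) (n : ℕ) (Ψ A B : F[X] → ℝ) : ℝ :=
  corr h n (tw Ψ (lf u A)) (lf u' B)

/-- Its model. -/
noncomputable def mG (h u u' : F[X]) (N : ℕ) (Ψ A B : F[X] → ℝ) : ℝ :=
  mcorr h N (tw Ψ (lf u A)) (lf u' B)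

/-- A family of periodic weights. -/
structure Fam0 (n R lo hi : ℕ) {ι : Type} (Z : Finset ι) (M : ι → F[X])
    (Φ : ι → F[X] → ℝ) : Prop where
  hR : R ≤ n
  mon : ∀ z ∈ Z, (M z).Monic
  deg : ∀ z ∈ Z, (M z).natDegree ≤ R
  per : ∀ z ∈ Z, Per (M z) (Φ z)
  win : ∀ z ∈ Z, ∀ P : F[X], Irreducible P → P ∣ M z → P.natDegree < lo ∨ hi < P.natDegree
  bd : ∀ f ∈ monF F n, ∑ z ∈ Z, |Φ z f| ≤ 1
  card : (Z.card : ℝ) ≤ qq F R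

/-- A family of weights for the forms `u' f + w` and `u f + w'`. -/
structure FamG (u u' w w' h : F[X]) (n R lo hi : ℕ) {ι : Type} (Z : Finset ι) (M : ι → F[X])
    (Φ : ι → F[X] → ℝ) : Prop extends Fam0 n R lo hi Z M Φ where
  hh : h = u * w + u' * w'
  supp : ∀ z ∈ Z, ∀ g, Φ z g ≠ 0 →
    ∃ f, g = u * (u' * f + w) ∧ IsCoprime ((u' * f + w) * (u * f + w')) (M z)
  hdv : ∀ z ∈ Z, ∀ P : F[X], Irreducible P → P ∣ h * (u * u') → P ∣ M z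

/-- The weight is bounded on average along lines. -/
def LineG (u u' w w' W : F[X]) (Ψ : F[X] → ℝ) (R : ℕ) (K : ℝ) : Prop :=
  ∀ (c a : F[X]) (S : Finset F[X]) (θ : F[X] → F[X] → ℝ) (l : ℕ), IsCoprime a W →
    (∀ P : F[X], Irreducible P → P ∣ a → P ∣ (u' * c + w) * (u * c + w')) →
    (∀ P ∈ S, P.Monic ∧ Irreducible P ∧ ¬ P ∣ W) → (∀ P ∈ S, Per P (θ P)) →
    (∀ P ∈ S, ∀ t, 0 ≤ θ P t ∧ θ P t ≤ 9) →
    (∀ P ∈ S, ¬ P ∣ a → ∀ t, ¬ P ∣ (u' * (c + a * t) + w) * (u * (c + a * t) + w') →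
      θ P t = 1) →
    R + ∑ P ∈ S, P.natDegree ≤ l →
    𝔼 t : degreeLT F l, Ψ (u * (u' * (c + a * t.1) + w)) * ∏ P ∈ S, θ P t.1 ≤
      K * ∏ P ∈ S, 𝔼 t : degreeLT F l, θ P t.1

/-- The three analytic estimates. -/
structure EstG (Ψ : F[X] → ℝ) (h u u' : F[X]) (n s G E' E : ℕ) (δ : ℝ) : Prop where
  K : ∀ (I I' : ℕ) (α β : F[X] → ℝ), Bd I α → Bd I' β →
    (I + I' + E' ≤ n ∨ (2 * I ≤ n + G ∧ 2 * I' ≤ n + G)) →
    |cG h u u' (n + s) Ψ (up α I) (up β I') -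
      qq F (n + s) * mG h u u' (5 * n) Ψ (up α I) (up β I')| ≤ δ
  L : ∀ i ε₁ ε₂ μ κ : ℕ, i + ε₁ + ε₂ = n → μ + κ = n →
    (ε₁ + E ≤ κ ∧ 2 * κ + 4 * ε₂ + E' ≤ n ∨ ε₁ + ε₂ + E ≤ κ ∧ 2 * κ + E' ≤ n) →
    ∀ α₁ β₁ α₂ β₂ : F[X] → ℝ, Bd μ α₁ → Bd κ β₁ → Bd ε₁ α₂ →
      (∀ e ∈ monF F ε₂, |β₂ e| ≤ ind (Squarefree e)) →
      |cG h u u' (n + s) Ψ (cv α₁ β₁ μ κ) (cv3 lam α₂ β₂ i ε₁ ε₂)| ≤ δ
  U : ∀ i ε₁ ε₂ κ : ℕ, i + ε₁ + ε₂ = n → n + E' ≤ 2 * i → κ + E' ≤ i →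
    2 * κ + E' ≤ n → ∀ β₁ α₂ β₂ : F[X] → ℝ, Bd κ β₁ → Bd ε₁ α₂ → Bd ε₂ β₂ →
      |cG h u u' (n + s) Ψ (up β₁ κ) (cv3 lam α₂ β₂ i ε₁ ε₂)| ≤ δ

/-- The upper bound sieve estimate. -/
def MassG (Ψ : F[X] → ℝ) (h u u' : F[X]) (n s Q : ℕ) (C : ℝ) (ν : F[X] → ℝ) : Prop :=
  ∀ i i', i < n → i' < n → n + Q ≤ i + i' →
    ((n : ℝ) - i) * ((n : ℝ) - i') *
      cG h u u' (n + s) Ψ (fun f => ν f * up (fun d => |mu d|) i f)
        (fun f => ν f * up (fun d => |mu d|) i' f) ≤ C * qq F (n + s) / (n : ℝ) ^ 2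

end Defs

section Steps

variable (F : Type) [Field F] [Fintype F] [CharP F 2]

/-- The two estimates for the Liouville function. -/
def SLU0 : Prop := ∀ (h : F[X]) (M₀ : ℕ), h ≠ 0 → ∃ C : ℕ, 0 < C ∧ ∃ n₀ : ℕ, ∀ n, n₀ ≤ n →
  ∀ (E R : ℕ) (ι : Type) (Z : Finset ι) (M : ι → F[X]) (Φ : ι → F[X] → ℝ), n ≤ M₀ * E →
    Fam0 n R (wlo M₀ n) (whi M₀ n) Z M Φ →
    (∀ i ε₁ ε₂ μ κ : ℕ, i + ε₁ + ε₂ = n → μ + κ = n →
      (ε₁ + E ≤ κ ∧ 2 * κ + 4 * ε₂ + (E + 4 * R) ≤ n ∨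
        ε₁ + ε₂ + E ≤ κ ∧ 2 * κ + (E + 4 * R) ≤ n) →
      ∀ α₁ β₁ α₂ β₂ : F[X] → ℝ, Bd μ α₁ → Bd κ β₁ → Bd ε₁ α₂ →
        (∀ e ∈ monF F ε₂, |β₂ e| ≤ ind (Squarefree e)) →
        |corr h n (tw (tot Z Φ) (cv α₁ β₁ μ κ)) (cv3 lam α₂ β₂ i ε₁ ε₂)| ≤
          qq F n / qq F (n / C)) ∧
    ∀ i ε₁ ε₂ κ : ℕ, i + ε₁ + ε₂ = n → n ≤ 2 * i → κ + (E + 4 * R) ≤ i →
      2 * κ + (E + 4 * R) ≤ n → ∀ β₁ α₂ β₂ : F[X] → ℝ, Bd κ β₁ → Bd ε₁ α₂ → Bd ε₂ β₂ →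
        |corr h n (tw (tot Z Φ) (up β₁ κ)) (cv3 lam α₂ β₂ i ε₁ ε₂)| ≤ qq F n / qq F (n / C)

/-- The central range in one residue class. -/
def SClassG : Prop := ∀ h : F[X], h ≠ 0 → ∃ n₀ : ℕ, ∀ n, n₀ ≤ n →
  ∀ (M φ : F[X]) (I I' : ℕ) (α β : F[X] → ℝ), M.Monic → M.natDegree ≤ n / 1000000 →
    (∀ P : F[X], Irreducible P → P ∣ h → P ∣ M) → Bd I α → Bd I' β →
    (∀ A, α A ≠ 0 → IsCoprime A M) → (∀ B, β B ≠ 0 → IsCoprime B M) →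
    I' ≤ I → 2 * I ≤ n + n / 100000 →
    |corr h n (tw (fun f => ind (M ∣ f - φ)) (up α I)) (up β I') -
      qq F n * mcorr h (5 * n) (tw (fun f => ind (M ∣ f - φ)) (up α I)) (up β I')| ≤
      qq F n / qq F (3 * (n / 100000))

/-- The central range. -/
def SCentG : Prop := ∀ h : F[X], h ≠ 0 → ∃ n₀ : ℕ, ∀ n, n₀ ≤ n →
  ∀ (u u' w w' : F[X]) (s R lo hi : ℕ) (ι : Type) (Z : Finset ι) (M : ι → F[X])
    (Φ : ι → F[X] → ℝ), u ∈ monF F s → u' ∈ monF F s → R ≤ n / 1000000 →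
    FamG u u' w w' h (n + s) R lo hi Z M Φ →
    ∀ (I I' : ℕ) (α β : F[X] → ℝ), Bd I α → Bd I' β →
      (I + I' + R ≤ n ∨ (2 * I ≤ n + n / 100000 ∧ 2 * I' ≤ n + n / 100000)) →
      |cG h u u' (n + s) (tot Z Φ) (up α I) (up β I') -
        qq F (n + s) * mG h u u' (5 * n) (tot Z Φ) (up α I) (up β I')| ≤
        qq F (n + s) / qq F (n / 100000)

/-- The model with a weight. -/
def SModG : Prop := ∀ (u u' w w' h W : F[X]) (κ : F[X] → ℝ) (n s R R' lo hi : ℕ) (τ B K : ℝ)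
  (ι : Type) (Z : Finset ι) (M : ι → F[X]) (Φ : ι → F[X] → ℝ), u.Monic → u'.Monic →
  FamG u u' w w' h (n + s) R lo hi Z M Φ → R ≤ n →
  (∀ z ∈ Z, W ∣ M z) → (∀ P : F[X], Irreducible P → P.natDegree ≤ 15 → P ∣ W) → 0 ≤ K →
  Main W n Z M Φ K → 2 ≤ n → h.natDegree ≤ n → 1 ≤ R' → 2 * R' ≤ n → DivB F τ (5 * n) →
  (∀ K : F[X], K.Monic → K.natDegree ≤ n → |κ K| ≤ B) → κ 1 = 1 →
    (∀ i i', i ≤ n → i' ≤ n → 2 * R' ≤ i ∨ 2 * R' ≤ i' →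
      |mG h u u' (5 * n) (tot Z Φ) (tr κ R' i) (tr κ R' i')| ≤
        6 * B ^ 2 * τ ^ 5 * (3 / 4) ^ R') ∧
    ∑ i ∈ range (2 * R'), ∑ i' ∈ range (2 * R'), ((n : ℝ) - i) * ((n : ℝ) - i') *
      mG h u u' (5 * n) (tot Z Φ) (tr κ R' i) (tr κ R' i') ≤
      (VS (pf W))⁻¹ ^ 2 * K + (18 + 3 * Real.exp 18) * n ^ 3 * B ^ 2 * τ ^ 6 * (3 / 4) ^ R'

/-- The sieve weight along a line. -/
def SLineG : Prop := ∀ (u u' w w' h W e e' : F[X]) (n s i i' m m' y S R lo hi : ℕ) (K : ℝ)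
  (ι : Type) (Z : Finset ι) (M : ι → F[X]) (Φ : ι → F[X] → ℝ), u ∈ monF F s → u' ∈ monF F s →
  FamG u u' w w' h (n + s) R lo hi Z M Φ →
  (∀ z ∈ Z, W ∣ M z) → (∀ P : F[X], Irreducible P → P ∣ h * (u * u') → P ∣ W) →
  (∀ f, 0 ≤ tot Z Φ f) → 0 ≤ K → LineG u u' w w' W (tot Z Φ) R K → i + m = n → i' + m' = n →
  e ∈ monF F m → e' ∈ monF F m' → n + s + 16 * y + R ≤ i + i' →
    (∑ d ∈ monF F i, ∑ d' ∈ monF F i', ind (u' * (d' * e') = u * (d * e) + h) *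
      (tot Z Φ (u * (d * e)) *
        (nu W y S (d * e) * |mu d| * (nu W y S (d' * e') * |mu d'|)))) * qq F (n + s) ≤
      qq F (i + i') * K * (∏ s ∈ range S, VS (bl W y s)) ^ 2 *
        (ind (IsCoprime e W) * GG W y S e * (ind (IsCoprime e' W) * GG W y S e'))

/-- The sieve bound. -/
def SMassG : Prop := ∀ (u u' w w' h W : F[X]) (n s y S D R lo hi : ℕ) (K : ℝ) (ι : Type)
  (Z : Finset ι) (M : ι → F[X]) (Φ : ι → F[X] → ℝ), u ∈ monF F s → u' ∈ monF F s →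
  FamG u u' w w' h (n + s) R lo hi Z M Φ → (∀ z ∈ Z, W ∣ M z) → W ≠ 0 →
  (∀ P : F[X], Irreducible P → P.natDegree ≤ 15 ∨ P ∣ h * (u * u') → P ∣ W) →
  (∀ f, 0 ≤ tot Z Φ f) → 0 ≤ K → LineG u u' w w' W (tot Z Φ) R (K * qq F (2 * s)) →
  W.natDegree ≤ y → 8 ≤ y / 2 ^ S → y / 2 ^ S ≤ 15 → n ≤ D * y → h.natDegree < n →
    MassG (tot Z Φ) h u u' n s (16 * y + R + s)
      ((5 * D * Real.exp (Real.exp 14 + 2 * D)) ^ 2 * ((VS (pf W))⁻¹ ^ 2 * K)) (nu W y S)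

/-- The regions. -/
def SCaseG : Prop := ∀ (Ψ ν κ : F[X] → ℝ) (h u u' : F[X]) (n s R T G E' E i i' : ℕ) (Q δ : ℝ)
  (ι : Type) (Z : Finset ι) (a b α : ι → F[X] → ℝ), u ∈ monF F s → u' ∈ monF F s →
  h.natDegree < n → 0 ≤ δ → EstG Ψ h u u' n s G E' E δ →
  (∀ f ∈ monF F (n + s), |Ψ f| ≤ 1) → Sieve n R Q ν κ Z a b α → DivB F Q n → (n : ℝ) + 2 ≤ Q →
  20 * (R + 2 * T) + 20 * E' ≤ G → G ≤ n → E ≤ E' → 1 ≤ E → i ≤ n → i' ≤ i →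
    Thin n G (R + 2 * T) E' (E + 2 * T) i i' ∨
      |cG h u u' (n + s) Ψ (nl ν i') (nl ν i) - qq F (n + s) *
        mG h u u' (5 * n) Ψ (tr κ (R + 2 * T) i') (tr κ (R + 2 * T) i)| ≤
        qq F T * Q ^ 7 * δ + 5 * Q ^ 11 * (2 * qq F (n + s) / qq F T) ∨
      (2 * (R + 2 * T) ≤ i ∧ |cG h u u' (n + s) Ψ (nl ν i') (nl ν i)| ≤
        qq F T * Q ^ 7 * δ + 5 * Q ^ 11 * (2 * qq F (n + s) / qq F T))

/-- Summation over all pieces. -/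
def STotalG : Prop := ∀ (Ψ ν κ : F[X] → ℝ) (h u u' : F[X]) (n s R T G E' E Θ : ℕ)
  (Q δ C ε' Mn : ℝ) (ι : Type) (Z : Finset ι) (a b α : ι → F[X] → ℝ), u ∈ monF F s →
  u' ∈ monF F s → h.natDegree < n → 0 ≤ δ →
  EstG Ψ h u u' n s G E' E δ → EstG (fun f => Ψ (f + h)) h u' u n s G E' E δ →
  (∀ f ∈ monF F (n + s), 0 ≤ Ψ f ∧ Ψ f ≤ 1) → Sieve n R Q ν κ Z a b α → DivB F Q n →
  (n : ℝ) + 2 ≤ Q → 20 * (R + 2 * T) + 20 * E' ≤ G → G ≤ n → E ≤ E' → 1 ≤ E →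
  2 * (E + 2 * T) ≤ Θ → Θ ≤ n → 0 ≤ C → MassG Ψ h u u' n s (2 * R + E') C ν → 0 ≤ ε' →
  (∀ i i', i ≤ n → i' ≤ n → 2 * (R + 2 * T) ≤ i ∨ 2 * (R + 2 * T) ≤ i' →
    |mG h u u' (5 * n) Ψ (tr κ (R + 2 * T) i) (tr κ (R + 2 * T) i')| ≤ ε') →
  ∑ i ∈ range (2 * (R + 2 * T)), ∑ i' ∈ range (2 * (R + 2 * T)), ((n : ℝ) - i) * ((n : ℝ) - i') *
    mG h u u' (5 * n) Ψ (tr κ (R + 2 * T) i) (tr κ (R + 2 * T) i') ≤ Mn →
    (n : ℝ) ^ 2 * cG h u u' (n + s) Ψ (fun f => ind (Irreducible f))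
        (fun f => ind (Irreducible f)) ≤
      qq F (n + s) * Mn + 2 * Q ^ 4 * (qq F T * Q ^ 7 * δ +
        5 * Q ^ 11 * (2 * qq F (n + s) / qq F T) + qq F (n + s) * ε') +
        10 * ((E' : ℝ) ^ 2 + Θ * E' + (n : ℝ) ^ 2 * (E + 2 * T : ℕ) / Θ) *
          (C * qq F (n + s) / (n : ℝ) ^ 2)

/-- The weighted bound for two prime forms, with the constant `C`. -/
def STwinG (C : ℝ) : Prop := ∀ (N s : ℕ) (u u' w w' h W : F[X]), 100000 ≤ N → u ∈ monF F s →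
  u' ∈ monF F s → h ≠ 0 → W ≠ 0 →
  (∀ P : F[X], Irreducible P → P.natDegree ≤ 15 ∨ P ∣ h * (u * u') → P ∣ W) →
  ∃ H : ℕ, 0 < H ∧ ∃ n₀ : ℕ, ∀ n, n₀ ≤ n → ∀ (R : ℕ) (K : ℝ) (ι : Type) (Z : Finset ι)
    (M : ι → F[X]) (Φ : ι → F[X] → ℝ), R * N ^ 2 ≤ 2 * n →
    FamG u u' w w' h (n + s) R (wlo (2 * N ^ 4) (n + s)) (whi (2 * N ^ 4) (n + s)) Z M Φ →
    (∀ z ∈ Z, W ∣ M z) → (∀ f, 0 ≤ tot Z Φ f) → 0 ≤ K →
    LineG u u' w w' W (tot Z Φ) R (K * qq F (2 * s)) → Main W n Z M Φ K →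
      (n : ℝ) ^ 2 * cG h u u' (n + s) (tot Z Φ) (fun f => ind (Irreducible f))
          (fun f => ind (Irreducible f)) ≤
        (1 + C / (N : ℝ) ^ 3) * (qq F (n + s) * ((VS (pf W))⁻¹ ^ 2 * K)) +
          qq F (n + s) / qq F (n / H)

/-- One linear form is prime. -/
def SOneG : Prop := ∀ (κ : Type) [Fintype κ] [DecidableEq κ] (ρ : F[X] → κ → F[X]) (j : κ)
  (Ps : Finset F[X]) (U V W x : F[X]) (Y : (Ps → Finset κ) → ℝ) (D R n s : ℕ),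
  Ctx ρ Ps W Y D R → R < n → U ∈ monF F s → V.natDegree < n → (∀ P ∈ Ps, P.natDegree < n) →
  (∀ P : F[X], Irreducible P → P ∣ U → P ∣ W) →
  (∀ P : F[X], Irreducible P → ¬ P ∣ W → ∀ f, P ∣ f - ρ P j ↔ P ∣ U * f + V) →
  IsCoprime (U * x + V) W →
    qq F n / qq F W.natDegree * (VS (pf W))⁻¹ * fm Ps (fun P => (1 - 1 / nm Ps P)⁻¹) {j} Y -
      qq F (2 * R) * (4 * (n + s : ℕ) * (qq F (n + s) / qq F ((n + s) / 2))) ≤
      (n + s : ℕ) * ∑ f ∈ monF F n, wt ρ ∅ Ps W x Y f * ind (Irreducible (U * f + V))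

/-- The lifted weight satisfies the assumptions of the bound for two forms. -/
def SInstG : Prop := ∀ (κ : Type) [Fintype κ] [DecidableEq κ] (ρ : F[X] → κ → F[X]) (i j : κ)
  (Ps : Finset F[X]) (U U' V V' W x : F[X]) (Y : (Ps → Finset κ) → ℝ) (D R n s lo hi : ℕ)
  (B I : ℝ), Ctx ρ Ps W Y D R → R + s ≤ n → U ∈ monF F s → U' ∈ monF F s → V.natDegree < n →
  (∀ P : F[X], Irreducible P →
    P.natDegree ≤ 15 ∨ P ∣ (U' * V + U * V') * (U' * U) → P ∣ W) →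
  (∀ P : F[X], Irreducible P → ¬ P ∣ W → ∀ f, P ∣ f - ρ P i ↔ P ∣ U * f + V) →
  (∀ P : F[X], Irreducible P → ¬ P ∣ W → ∀ f, P ∣ f - ρ P j ↔ P ∣ U' * f + V') →
  IsCoprime (U * x + V) W → IsCoprime (U' * x + V') W → W.natDegree < lo →
  (∀ P ∈ Ps, P.natDegree < lo ∨ hi < P.natDegree) → 0 < B →
  (∀ f ∈ monF F n, ∑ z ∈ ZZ Ps Y, |ph ρ {i, j} Ps W x Y z f| ≤ B) →
  (∀ v, Adm0 (nm Ps) v → fm Ps v {i, j} Y ≤ I) →
    FamG U' U V V' (U' * V + U * V') (n + s + s) (R + 2 * s) lo hi (ZZ Ps Y)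
      (fun z => U' * U * md Ps W z)
      (fun z g => lf (U' * U) (fun f => ph ρ {i, j} Ps W x Y z f / B) (g - U' * V)) ∧
    LineG U' U V V' W (tot (ZZ Ps Y) fun z g =>
      lf (U' * U) (fun f => ph ρ {i, j} Ps W x Y z f / B) (g - U' * V)) (R + 2 * s)
      (I / qq F W.natDegree / B) ∧
    Main W (n + s) (ZZ Ps Y) (fun z => U' * U * md Ps W z)
      (fun z g => lf (U' * U) (fun f => ph ρ {i, j} Ps W x Y z f / B) (g - U' * V))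
      (I / qq F W.natDegree / B / qq F (2 * s))

/-- Two linear forms are prime. -/
def SPairG (C : ℝ) : Prop := ∀ (κ : Type) [Fintype κ] [DecidableEq κ] (N s : ℕ)
  (U U' V V' W : F[X]), 100000 ≤ N → U ∈ monF F s → U' ∈ monF F s → U' * V + U * V' ≠ 0 →
  W ≠ 0 → (∀ P : F[X], Irreducible P →
    P.natDegree ≤ 15 ∨ P ∣ (U' * V + U * V') * (U' * U) → P ∣ W) →
  ∃ H : ℕ, 0 < H ∧ ∃ n₀ : ℕ, ∀ n, n₀ ≤ n → ∀ (ρ : F[X] → κ → F[X]) (i j : κ) (Ps : Finset F[X])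
    (x : F[X]) (Y : (Ps → Finset κ) → ℝ) (D : ℕ) (I : ℝ), Ctx ρ Ps W Y D (n / N ^ 2) →
    (∀ P : F[X], Irreducible P → ¬ P ∣ W → ∀ f, P ∣ f - ρ P i ↔ P ∣ U * f + V) →
    (∀ P : F[X], Irreducible P → ¬ P ∣ W → ∀ f, P ∣ f - ρ P j ↔ P ∣ U' * f + V') →
    IsCoprime (U * x + V) W → IsCoprime (U' * x + V') W →
    (∀ P ∈ Ps, P.natDegree < n ∧ (P.natDegree < wlo (2 * N ^ 4) (n + s + s) ∨
      whi (2 * N ^ 4) (n + s + s) < P.natDegree)) →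
    (∀ f ∈ monF F n, ∀ l, ∃ g : F[X], g ≠ 0 ∧ g.natDegree ≤ 5 * n ∧
      ∀ P ∈ Ps, P ∣ f - ρ P l → P ∣ g) → 0 ≤ I → (∀ v, Adm0 (nm Ps) v → fm Ps v {i, j} Y ≤ I) →
      ((n + s : ℕ) : ℝ) ^ 2 * ∑ f ∈ monF F n,
        wt ρ ∅ Ps W x Y f * ind (Irreducible (U * f + V) ∧ Irreducible (U' * f + V')) ≤
        (1 + C / (N : ℝ) ^ 3) * (qq F n * ((VS (pf W))⁻¹ ^ 2 * (I / qq F W.natDegree))) +
          qq F n / qq F (n / H)

/-- The theorem for tuples, with the modulus and the class given. -/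
def STupleWG (k w : ℕ) : Prop :=
  ∀ (a c W x : F[X]) (s : ℕ) (U V : Fin k → F[X]) (ρ : F[X] → Option (Fin k) → F[X]),
    (∀ l, U l ∈ monF F s) → (∀ l l', l ≠ l' → U l' * V l + U l * V l' ≠ 0) →
    ¬ IsSquare (a * c) → W.Monic →
    (∀ P : F[X], Irreducible P → P.natDegree ≤ w ∨ P ∣ a → P ∣ W) →
    (∀ l, ∀ P : F[X], Irreducible P → P ∣ U l → P ∣ W) →
    (∀ l l', l ≠ l' → ∀ P : F[X], Irreducible P → P ∣ U l' * V l + U l * V l' → P ∣ W) →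
    IsCoprime (a * x ^ 2 + c) W → (∀ l, IsCoprime (U l * x + V l) W) → Roots W ρ →
    (∀ l, ∀ P : F[X], Irreducible P → ¬ P ∣ W → ∀ f, P ∣ f - ρ P (some l) ↔ P ∣ U l * f + V l) →
    (∀ P : F[X], Irreducible P → ¬ P ∣ W → ∀ f, P ∣ f - ρ P none ↔ P ∣ a * f ^ 2 + c) →
    ∃ n₀ : ℕ, ∀ n, n₀ ≤ n → ∃ f ∈ monF F n,
      Irreducible (a * f ^ 2 + c) ∧ ∃ l, Irreducible (U l * f + V l)

/-- The theorem for tuples of linear forms. -/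
def STupleG (k : ℕ) : Prop :=
  ∀ (a c : F[X]) (s : ℕ) (U V : Fin k → F[X]), (∀ l, U l ∈ monF F s) →
    (∀ l l', l ≠ l' → U l' * V l + U l * V l' ≠ 0) → ¬ IsSquare (a * c) →
    (∀ R : F[X], Irreducible R → ∃ t, ¬ R ∣ a * t ^ 2 + c ∧ ∀ l, ¬ R ∣ U l * t + V l) →
    ∃ n₀ : ℕ, ∀ n, n₀ ≤ n → ∃ f ∈ monF F n,
      Irreducible (a * f ^ 2 + c) ∧ ∃ l, Irreducible (U l * f + V l)

end Steps

section Tools

variable {F : Type} [Field F] [Fintype F]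

theorem lf_mul {u : F[X]} (hu : u.Monic) (A : F[X] → ℝ) (L : F[X]) : lf u A (u * L) = A L := by
  rw [lf, ind_pos (dvd_mul_right _ _), one_mul, mul_divByMonic_cancel_left _ hu]

theorem lf_not {u g : F[X]} (A : F[X] → ℝ) (hg : ¬ u ∣ g) : lf u A g = 0 := by
  rw [lf, ind_neg hg, zero_mul]

theorem quo_mem {u L : F[X]} {n s : ℕ} (hu : u ∈ monF F s) (hg : u * L ∈ monF F (n + s)) :
    L ∈ monF F n := by
  obtain ⟨h1, h2⟩ := mem_monF.1 hu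
  obtain ⟨h3, h4⟩ := mem_monF.1 hg
  have h5 := h1.of_mul_monic_left h3
  rw [h1.natDegree_mul h5] at h4
  exact mem_monF.2 ⟨h5, by omega⟩

theorem sum_lf {u : F[X]} {s : ℕ} (hu : u ∈ monF F s) (n : ℕ) (A G : F[X] → ℝ) :
    ∑ g ∈ monF F (n + s), lf u A g * G g = ∑ L ∈ monF F n, A L * G (u * L) := by
  obtain ⟨h1, h2⟩ := mem_monF.1 hu
  have e := TK.sum_dvd_eq h1 n fun g => A (g /ₘ u) * G g
  simp only [mul_divByMonic_cancel_left _ h1] at e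
  rw [← e, h2, add_comm s n]
  exact Finset.sum_congr rfl fun g _ => mul_assoc _ _ _

theorem lf_bd {u : F[X]} {s i : ℕ} (hu : u ∈ monF F s) {A : F[X] → ℝ} {c : F[X] → ℝ}
    (hc : ∀ g, 0 ≤ c g) (H : ∀ L ∈ monF F i, |A L| ≤ c (u * L)) {g : F[X]}
    (hg : g ∈ monF F (i + s)) : |lf u A g| ≤ c g := by
  by_cases e : u ∣ g
  · obtain ⟨L, rfl⟩ := e
    rw [lf_mul (mem_monF.1 hu).1]
    exact H L (quo_mem hu hg)
  · rw [lf_not A e, abs_zero]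
    exact hc g

theorem Bd.lf {u : F[X]} {s i : ℕ} (hu : u ∈ monF F s) {A : F[X] → ℝ} (H : Bd i A) :
    Bd (i + s) (lf u A) := fun _ hg => lf_bd (c := fun _ => 1) hu (fun _ => zero_le_one) H hg

theorem lf_sub (u : F[X]) (A B : F[X] → ℝ) (g : F[X]) :
    lf u A g - lf u B g = lf u (fun f => A f - B f) g := by
  simp only [lf, mul_sub]

theorem lf_sum {ι : Type*} (u : F[X]) (t : Finset ι) (A : ι → F[X] → ℝ) :
    (lf u fun f => ∑ x ∈ t, A x f) = fun g => ∑ x ∈ t, lf u (A x) g :=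
  funext fun g => by simp only [lf, Finset.mul_sum]

theorem lf_smul (u : F[X]) (c : ℝ) (A : F[X] → ℝ) :
    (lf u fun f => c * A f) = fun g => c * lf u A g :=
  funext fun g => by simp only [lf]; ring

theorem lf_congr {u : F[X]} {s n : ℕ} (hu : u ∈ monF F s) {A B : F[X] → ℝ}
    (H : ∀ f ∈ monF F n, A f = B f) {g : F[X]} (hg : g ∈ monF F (n + s)) :
    lf u A g = lf u B g := by
  by_cases e : u ∣ g
  · obtain ⟨L, rfl⟩ := e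
    rw [lf_mul (mem_monF.1 hu).1, lf_mul (mem_monF.1 hu).1]
    exact H L (quo_mem hu hg)
  · rw [lf_not A e, lf_not B e]

theorem up_cop {u L M : F[X]} (hM : ∀ P : F[X], Irreducible P → P ∣ u → P ∣ M)
    (hL : IsCoprime L M) (a : F[X] → ℝ) (i : ℕ) :
    up a i L = up (fun d => a d * ind (IsCoprime d M)) i (u * L) :=
  Finset.sum_congr rfl fun D hD => by
    by_cases h1 : IsCoprime D M
    · have h2 : IsCoprime D u := isCoprime_of_irreducible_dvd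
        (fun e => (mem_monF.1 hD).1.ne_zero e.1) fun P hP a b =>
          hP.not_isUnit (h1.isUnit_of_dvd' a (hM P hP b))
      simp only [ind_pos h1, mul_one]
      rw [TK.ind_iff ⟨fun e => e.mul_left u, fun e => h2.dvd_of_dvd_mul_left e⟩]
    · simp only [ind_neg h1, mul_zero]
      rw [ind_neg fun e => h1 (hL.of_isCoprime_of_dvd_left e), zero_mul]

variable {h u u' : F[X]} {n s : ℕ}

theorem cG_swap [CharP F 2] (hn : h.degree < n) (Ψ A B : F[X] → ℝ) :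
    cG h u u' n Ψ A B = cG h u' u n (fun f => Ψ (f + h)) B A := corr_swap hn _ _ _

theorem mG_swap [CharP F 2] (hn : h.degree < n) (Ψ A B : F[X] → ℝ) :
    mG h u u' n Ψ A B = mG h u' u n (fun f => Ψ (f + h)) B A := mcorr_swap hn _ _ _

variable {R lo hi : ℕ} {ι : Type} {Z : Finset ι} {M : ι → F[X]} {Φ : ι → F[X] → ℝ}

theorem Fam0.shift (H : Fam0 n R lo hi Z M Φ) (hn : h.degree < n) :
    Fam0 n R lo hi Z M fun z f => Φ z (f + h) :=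
  ⟨H.hR, H.mon, H.deg, fun z hz f t => by
      have := H.per z hz (f + h) t
      rwa [add_right_comm] at this,
    H.win, fun f hf => H.bd _ (add_mem_mon hn hf), H.card⟩

theorem FamG.add_eq [CharP F 2] {w w' : F[X]} (H : FamG u u' w w' h n R lo hi Z M Φ) (f : F[X]) :
    u * (u' * f + w) + h = u' * (u * f + w') := by
  rw [H.hh]
  linear_combination add_add_self 0 (u * w)

theorem FamG.shift [CharP F 2] {w w' : F[X]} (H : FamG u u' w w' h n R lo hi Z M Φ)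
    (hn : h.degree < n) : FamG u' u w' w h n R lo hi Z M fun z f => Φ z (f + h) :=
  ⟨H.toFam0.shift hn, by rw [H.hh, add_comm], fun z hz g hg => by
      obtain ⟨f, h1, h2⟩ := H.supp z hz _ hg
      refine ⟨f, ?_, by rwa [mul_comm]⟩
      rw [← H.add_eq, ← h1, add_add_self],
    fun z hz P hP e => H.hdv z hz P hP (by rwa [mul_comm u])⟩

theorem Fam0.abs_tot (H : Fam0 n R lo hi Z M Φ) {f : F[X]} (hf : f ∈ monF F n) :
    |tot Z Φ f| ≤ 1 := (Finset.abs_sum_le_sum_abs _ _).trans (H.bd f hf)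

theorem Fam0.abs_le (H : Fam0 n R lo hi Z M Φ) {z : ι} (hz : z ∈ Z) (f : F[X]) : |Φ z f| ≤ 1 := by
  have hm := H.mon z hz
  have h1 : ((f - X ^ n) %ₘ M z).degree < n := (degree_modByMonic_lt _ hm).trans_le
    (degree_le_natDegree.trans (by exact_mod_cast (H.deg z hz).trans H.hR))
  have h2 : X ^ n + (f - X ^ n) %ₘ M z ∈ monF F n :=
    add_mem_mon h1 (mem_monF.2 ⟨monic_X_pow n, natDegree_X_pow n⟩)
  have h3 : f = X ^ n + (f - X ^ n) %ₘ M z + M z * ((f - X ^ n) /ₘ M z) := by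
    linear_combination -modByMonic_add_div (f - X ^ n) (M z)
  rw [h3, H.per z hz]
  exact (Finset.single_le_sum (f := fun z' => |Φ z' (X ^ n + (f - X ^ n) %ₘ M z)|)
    (fun _ _ => abs_nonneg _) hz).trans (H.bd _ h2)

theorem Fam0.sum_mean (H : Fam0 n R lo hi Z M Φ) {l : ℕ} (hl : R ≤ l) :
    ∑ z ∈ Z, |𝔼 f : degreeLT F l, Φ z f.1| ≤ 1 := by
  have hq := qq_pos (F := F) n
  refine le_of_mul_le_mul_left ?_ hq
  rw [Finset.mul_sum, mul_one]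
  refine le_trans (Finset.sum_le_sum fun z hz => ?_)
    ((Finset.sum_comm.trans_le (Finset.sum_le_sum H.bd)).trans_eq (sum_one_monF n))
  rw [← abs_of_pos hq, ← abs_mul, ← sum_monF_per (H.mon z hz).ne_zero (H.per z hz)
    ((H.deg z hz).trans H.hR) ((H.deg z hz).trans hl)]
  exact Finset.abs_sum_le_sum_abs _ _

theorem Fam0.not_dvd (H : Fam0 n R lo hi Z M Φ) {d : ℕ} (h1 : lo ≤ d) (h2 : d ≤ hi) {z : ι}
    (hz : z ∈ Z) {P : F[X]} (hP : P ∈ irrF F d) : ¬ P ∣ M z := fun e => by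
  obtain ⟨-, a, b⟩ := mem_irrF.1 hP
  have := H.win z hz P b e
  omega

end Tools

end Pool.Agent.PPg
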