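import Mathlib
import Pool.Agent.MP_f37147_nt.G.St

/- Prime pairs over `F[X]`, general linear forms: the theorem for tuples in a residue class. -/

set_option autoImplicit false
set_option linter.unusedSectionVars false

namespace Pool.Agent.PPg

open Polynomial Finset Pool.Agent.MP_4fffd4_nt Pool.Agent.MP_c853c5_nt Pool.Agent.MP_43e117_nt
open Pool.Agent.PPf
open scoped BigOperators

open TupleX Filter in
theorem sTupleWG (hPack : SPack) (hFin : SFin) {CT : ℝ} (hCT : 0 < CT) {C₀ : ℕ} (hC₀ : 0 < C₀) :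
    ∃ k w : ℕ, 1 ≤ k ∧ ∀ (F : Type) [Field F] [Fintype F] [CharP F 2],
      (∃ n₀, Pool.Agent.MP_f37147_nt.CoreSt F C₀ n₀) → SGlow F → SGup F → SEq F →
      SOneG F → SQuad F → SPairG F CT → STupleWG F k w := by
  obtain ⟨c, hc⟩ : ∃ c, c = Real.exp (-32) := ⟨_, rfl⟩
  have c0 : 0 < c := hc ▸ Real.exp_pos _
  have c1 : c ≤ 1 := hc ▸ Real.exp_le_one_iff.2 (by norm_num)
  obtain ⟨N₀, hN₀⟩ := exists_nat_ge (100000 * CT / c)
  obtain ⟨N, N1, N2, N3⟩ : ∃ N : ℕ, 100000 ≤ N ∧ 16 * C₀ ≤ N ^ 2 ∧ 100000 * CT / c ≤ N :=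
    ⟨N₀ + 100000 + 16 * C₀, by omega, le_trans (by omega) (Nat.le_self_pow two_ne_zero _),
      hN₀.trans (by exact_mod_cast (by omega))⟩
  have N0 : (1 : ℝ) ≤ N := by exact_mod_cast (by omega)
  have N4 : (1 : ℝ) ≤ (N : ℝ) ^ 2 := one_le_pow₀ N0
  obtain ⟨β, hβ⟩ : ∃ β, β = c / (N : ℝ) ^ 2 := ⟨_, rfl⟩
  have β0 : 0 < β := by rw [hβ]; positivity
  have β1 : β ≤ 1 := by rw [hβ, div_le_one (by positivity)]; linarith
  obtain ⟨ε, hε⟩ : ∃ ε, ε = β / 100000 := ⟨_, rfl⟩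
  have ε0 : 0 < ε := by rw [hε]; positivity
  have hκ : CT / (N : ℝ) ^ 3 ≤ ε := by
    rw [div_le_iff₀ c0] at N3
    rw [hε, hβ, div_le_iff₀ (by positivity)]
    calc CT ≤ N * c / 100000 := by linarith
      _ = _ := by field_simp
  obtain ⟨k, τ, η, k2, τ0, τ1, η0, HP⟩ := hPack c (Real.exp 3) ε (100000 * (N : ℝ) ^ 2 / β) c0
    (hc ▸ Real.exp_le_exp.2 (by norm_num)) ε0 (by linarith) (by positivity)
  obtain ⟨w, w1, w2, w3⟩ : ∃ w : ℕ, 15 ≤ w ∧ 1 / (2 : ℝ) ^ w ≤ η ∧ (k : ℝ) + 5 ≤ 2 ^ w := by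
    obtain ⟨m, hm⟩ := exists_nat_ge (1 / η)
    have h1 : ((m + k + 15 : ℕ) : ℝ) ≤ 2 ^ (m + k + 15) := by
      exact_mod_cast Nat.lt_two_pow_self.le
    have h2 : (0 : ℝ) ≤ m := Nat.cast_nonneg m
    have h3 : (0 : ℝ) ≤ k := Nat.cast_nonneg k
    push_cast at h1
    exact ⟨m + k + 15, by omega, (one_div_le (by positivity) η0).2 (by linarith), by linarith⟩
  refine ⟨k, w, by omega, fun F _ _ _ ⟨n₁, hcore⟩ hGl hGu hEq hOne hQuad hPair
    a cc W x s U V ρ hU hne hsq W1 W3 WU W4 W6 W7 W8 W9 W10 => ?_⟩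
  classical
  have hWw : ∀ P : F[X], Irreducible P → P.natDegree ≤ w → P ∣ W := fun P h1 h2 =>
    W3 P h1 (Or.inl h2)
  obtain ⟨V0, V1⟩ := VS_pos W1.ne_zero
  choose H H0 n₂ HH using fun (p : {p : Fin k × Fin k // p.1 ≠ p.2}) =>
    hPair (Option (Fin k)) N s (U p.1.1) (U p.1.2) (V p.1.1) (V p.1.2) W N1 (hU _) (hU _)
      (hne _ _ p.2) W1.ne_zero fun P h1 h2 => h2.elim (fun h3 => hWw P h1 (by omega)) fun h3 =>
        (h1.prime.dvd_or_dvd h3).elim (W4 _ _ p.2 P h1) fun h4 =>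
          (h1.prime.dvd_or_dvd h4).elim (WU _ P h1) (WU _ P h1)
  obtain ⟨m, hm⟩ := exists_nat_ge (((W.natDegree : ℝ) + 1) / (τ * VS (pf W)))
  have hN2 : 0 < N ^ 2 := by positivity
  refine eventually_atTop.1 (((((((((eventually_all.2 fun p => (eventually_ge_atTop (n₂ p)).and
    (ev_le (F := F) (qq F W.natDegree / ε) (H0 p))).and
    (ev_le (F := F) (qq F W.natDegree / ε * (8 * qq F s)) (H := 4) (by norm_num))).and
    (ev_le (F := F) (qq F W.natDegree / ε) (H := 16 * C₀) (by omega))).and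
    (ev_div (a.natDegree + cc.natDegree + n₁) (H := 16 * C₀) (by omega))).and
    (ev_div (m + W.natDegree + k + 1 + s) (H := N ^ 2 * 16) (by omega))).and
    (ev_div 1 (H := 8 * (128 * (2 * N ^ 4) + 136)) (by omega))).and
    (eventually_all.2 fun l => eventually_gt_atTop (V l).natDegree)).and
    (eventually_ge_atTop 1)).mono fun n hn => ?_)
  obtain ⟨⟨⟨⟨⟨⟨⟨e1, e2⟩, e3⟩, e4⟩, e5⟩, e6⟩, e7⟩, e8⟩ := hn
  have n1 : (1 : ℝ) ≤ n := by exact_mod_cast e8
  have n2 : (1 : ℝ) ≤ (n + s : ℕ) := by exact_mod_cast (by omega)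
  have e6' : 1 ≤ (n + s + s) / (8 * (128 * (2 * N ^ 4) + 136)) :=
    e6.trans (Nat.div_le_div_right (by omega))
  clear e6
  rw [← Nat.div_div_eq_div_mul] at e5
  have r1 : n / N ^ 2 ≤ n / (16 * C₀) := Nat.div_le_div_left N2 (by omega)
  have r2 : n / N ^ 2 ≤ n / 16 := Nat.div_le_div_left (by omega) (by omega)
  have r3 : n < N ^ 2 * (n / N ^ 2 + 1) := Nat.lt_mul_div_succ n hN2
  have r4 : 15 * (n / (16 * C₀)) ≤ (n - n / N ^ 2) / C₀ := by
    rw [Nat.le_div_iff_mul_le hC₀]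
    have h1 := Nat.div_mul_le_self n (16 * C₀)
    have h2 : n / (16 * C₀) ≤ n / (16 * C₀) * C₀ := Nat.le_mul_of_pos_right _ hC₀
    generalize n / (16 * C₀) = u at *
    have h3 : u * (16 * C₀) = 16 * (u * C₀) := by ring
    rw [mul_assoc]
    omega
  have r5 : n / (16 * C₀) ≤ n / 16 := Nat.div_le_div_left (by omega) (by omega)
  have hlo : whi (2 * N ^ 4) (n + s + s) ≤ 16 * wlo (2 * N ^ 4) (n + s + s) := by
    unfold wlo whi
    rw [mul_comm 8, ← Nat.div_div_eq_div_mul] at e6' ⊢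
    omega
  obtain ⟨R, hR⟩ : ∃ R, R = n / N ^ 2 := ⟨_, rfl⟩
  obtain ⟨D, hD⟩ : ∃ D, D = R / 16 := ⟨_, rfl⟩
  rw [← hR] at r1 r2 r3 r4 e5
  rw [← hD] at e5
  have r6 : ((n + s : ℕ) : ℝ) ≤ 32 * (N : ℝ) ^ 2 * D := by
    have h0 : N ^ 2 * (R + 1 + s) ≤ N ^ 2 * (32 * D) := Nat.mul_le_mul_left _ (by omega)
    have h1 : s ≤ N ^ 2 * s := Nat.le_mul_of_pos_left _ hN2
    have h2 : n + s ≤ 32 * N ^ 2 * D := by nlinarith
    exact_mod_cast h2
  have r7 : s ≤ n := by omega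
  have hτ : (W.natDegree : ℝ) + 1 ≤ τ * VS (pf W) * D := by
    rw [div_le_iff₀ (by positivity)] at hm
    have : (m : ℝ) ≤ D := by exact_mod_cast (by omega)
    calc _ ≤ m * (τ * VS (pf W)) := hm
      _ ≤ D * (τ * VS (pf W)) := by gcongr
      _ = _ := by ring
  have hτ' : τ * VS (pf W) * D ≤ τ * D := by
    rw [mul_right_comm]
    exact mul_le_of_le_one_right (by positivity) V1
  have hW0 : (0 : ℝ) ≤ W.natDegree := Nat.cast_nonneg _
  obtain ⟨lo, hlo'⟩ : ∃ lo, lo = wlo (2 * N ^ 4) (n + s + s) := ⟨_, rfl⟩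
  obtain ⟨hi, hhi'⟩ : ∃ hi, hi = whi (2 * N ^ 4) (n + s + s) := ⟨_, rfl⟩
  obtain ⟨G1, G2, G3⟩ := hGu W lo hi D W1.ne_zero
  have G0 := fun t => hGl W lo hi D t W1.ne_zero (hlo' ▸ e6') (hlo' ▸ hhi' ▸ hlo)
  have hPs : ∀ P ∈ prm F W lo hi D, (P.Monic ∧ Irreducible P ∧
      ¬ P ∣ W) ∧ P.natDegree < n ∧ (P.natDegree < lo ∨ hi < P.natDegree) := fun P hP => by
    rw [prm, mem_filter, mem_irrLE] at hP
    exact ⟨⟨hP.1.1, hP.1.2.1, hP.2.1⟩, by omega, hP.2.2⟩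
  generalize prm F W lo hi D = Ps at G0 G1 G2 G3 hPs
  obtain ⟨G3, G4⟩ := G3 w hWw
  have hp : ∀ P, (k : ℝ) + 5 ≤ nm Ps P := fun P => w3.trans (G4 P)
  obtain ⟨Y, P₀, r, σ, y1, y2, y3, y4, y5, y6, y7, f0, f1, f2, f3⟩ :=
    HP Ps (nm Ps) (dP Ps) (VS (pf W)) D hp V0 V1 (by linarith)
      (fun t h1 h2 => by
        have h3 : W.natDegree + 1 ≤ t := by exact_mod_cast hτ.trans (hτ'.trans h1)
        exact ⟨hc ▸ G0 t h2, G1 t (by omega) (by omega)⟩)
      (G2 (by omega) (by omega)) (G3.trans w2)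
  have ctx : Ctx ρ Ps W Y (2 * D) R := ⟨W1, fun P hP => (hPs P hP).1, W8, y1, y2, by omega, by
    rw [Fintype.card_option, Fintype.card_fin]; omega⟩
  have hu := adm_inv (p := nm Ps) fun P => by
    have := hp P
    have : (0 : ℝ) ≤ k := Nat.cast_nonneg k
    linarith
  have hZ : 0 < qq F n / qq F W.natDegree := div_pos (qq_pos _) (qq_pos _)
  have hZ' : 0 ≤ qq F n / qq F W.natDegree * (VS (pf W))⁻¹ := by positivity
  have hS : ∀ p : F[X] → Prop, 0 ≤ ∑ f ∈ monF F n, wt ρ ∅ Ps W x Y f * ind (p f) := fun p =>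
    sum_nonneg fun f _ => mul_nonneg (wt_nonneg _ _ _ _ _ _ _) (ind_nonneg _)
  have hq : 0 ≤ qq F W.natDegree / ε := div_nonneg (qq_pos _).le ε0.le
  refine finish hFin (monF F n) k (wt ρ ∅ Ps W x Y) (fun l f => Irreducible (U l * f + V l))
    (fun f => Irreducible (a * f ^ 2 + cc)) (n := ((n + s : ℕ) : ℝ)) (σ := σ)
    (fun f _ => wt_nonneg _ _ _ _ _ _ _) hZ y3 y4 V0 V1 β0 β1 n2 hε ?_ ?_ ?_ (fun l => ?_)
    (fun l l' hl => ?_) ?_
  · calc 3000 * ((n + s : ℕ) : ℝ) * VS (pf W) ≤ 3000 * (32 * (N : ℝ) ^ 2 * D) * VS (pf W) := by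
          gcongr
      _ ≤ β * (100000 * (N : ℝ) ^ 2 / β * VS (pf W) * D) := by
          have : 0 ≤ (N : ℝ) ^ 2 * D * VS (pf W) := by positivity
          field_simp
          nlinarith
      _ ≤ _ := by gcongr
  · calc β * ((n + s : ℕ) : ℝ) * VS (pf W) ≤ β * (32 * (N : ℝ) ^ 2 * D) * VS (pf W) := by gcongr
      _ = 32 * (c * VS (pf W) * D) := by rw [hβ]; field_simp
      _ ≤ _ := by gcongr
  · rw [(hEq _ ρ Ps W x Y _ R n ctx (by omega)).1]
    exact mul_le_mul_of_nonneg_left (f0 _ fun P => Or.inr (by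
      rw [sub_self, abs_zero]
      exact div_nonneg (by norm_num) (qq_pos _).le)) hZ.le
  · refine le_trans ?_ (hOne _ ρ (some l) Ps (U l) (V l) W x Y _ R n s ctx (by omega) (hU l) (e7 l)
      (fun P hP => (hPs P hP).2.1) (WU l) (W9 l) (W7 l))
    refine sub_le_sub (mul_le_mul_of_nonneg_left (f1 l _ hu) hZ') ?_
    have hs := qq_pos (F := F) s
    have h1 : ((n + s : ℕ) : ℝ) ≤ 2 * n := by exact_mod_cast (by omega)
    have h2 := err_le (F := F) (n := n) (a := 2 * R) (b := (n + s) / 2) (u := n / 4)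
      (m := W.natDegree) (x := 4 * ((n + s : ℕ) : ℝ) * qq F s) ε0 (by positivity) (by omega)
      (le_trans (by
        calc _ ≤ qq F W.natDegree / ε * (4 * (2 * n) * qq F s) := by gcongr
          _ = _ := by ring) e2)
    refine le_trans (le_of_eq ?_) h2
    rw [qq_add n s]
    ring
  · have h1 := HH ⟨(l, l'), hl⟩ n (e1 _).1 ρ (some l) (some l') Ps x Y (2 * D)
      ((1 + ε) * (P₀ * r ^ 2)) (hR ▸ ctx) (W9 l) (W9 l') (W7 l) (W7 l')
      (fun P hP => hlo' ▸ hhi' ▸ (hPs P hP).2) (fun f hf j => ?_) (by positivity)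
      fun u hu => f2 l l' u hl hu
    · refine h1.trans (add_le_add ?_ ?_)
      · rw [show qq F n * ((VS (pf W))⁻¹ ^ 2 * ((1 + ε) * (P₀ * r ^ 2) / qq F W.natDegree)) =
          qq F n / qq F W.natDegree * (VS (pf W))⁻¹ ^ 2 * ((1 + ε) * (P₀ * r ^ 2)) by ring]
        gcongr
      · have h2 := err_le (F := F) (n := n) (a := 0) (b := n / H ⟨(l, l'), hl⟩) (x := 1) ε0
          zero_le_one (zero_add _).le (le_trans (by gcongr) (e1 ⟨(l, l'), hl⟩).2)
        rwa [qq_zero, one_mul, one_mul] at h2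
    · obtain ⟨f1, f2⟩ := mem_monF.1 hf
      rcases j with _ | j
      · refine ⟨a * f ^ 2 + cc, fun e => hsq ⟨a * f, ?_⟩, ?_, fun P hP =>
          (W10 P (hPs P hP).1.2.1 (hPs P hP).1.2.2 f).1⟩
        · have := add_add_self cc (a * f ^ 2)
          linear_combination a * e - a * this
        · refine (natDegree_add_le _ _).trans (max_le (natDegree_mul_le.trans ?_) (by omega))
          rw [natDegree_pow]
          omega
      · obtain ⟨u1, u2⟩ := mem_monF.1 (hU j)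
        have h3 : U j * f ∈ monF F (s + n) :=
          mem_monF.2 ⟨u1.mul f1, by rw [u1.natDegree_mul f1, u2, f2]⟩
        have h4 := e7 j
        obtain ⟨g1, g2⟩ := mem_monF.1 (add_mem_mon (h := V j)
          (degree_le_natDegree.trans_lt (by exact_mod_cast (by omega))) h3)
        exact ⟨U j * f + V j, g1.ne_zero, by omega, fun P hP =>
          (W9 j P (hPs P hP).1.2.1 (hPs P hP).1.2.2 f).1⟩
  · have h1 := hQuad _ ρ none Ps a cc 1 W W x (a * x ^ 2 + cc) Y _ R n C₀ n₁ hcore ctx (by omega)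
      (fun P hP => (hPs P hP).2.1) hsq (one_mul _).symm
      (fun P h1 h2 => W3 P h1 (Or.inr (by rwa [mul_one] at h2))) (one_mul _).symm W6 W10
      (by omega) (by omega) (by omega)
    have h2 := err_le (F := F) (n := n) (a := 2 * R) (b := (n - R) / C₀) (u := n / (16 * C₀))
      (x := 1) ε0 zero_le_one (by omega) (le_trans (by gcongr) e3)
    rw [one_mul] at h2
    simp only [one_mul, exists_eq_right'] at h1
    refine ((sub_le_sub (mul_le_mul_of_nonneg_left (f3 _ hu) hZ') h2).trans ?_)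
    refine le_trans ?_ (h1.trans (mul_le_mul_of_nonneg_right ?_ (hS _)))
    · exact le_rfl
    have h3 : (a.natDegree : ℝ) ≤ n := by exact_mod_cast (by omega)
    have h4 : (0 : ℝ) ≤ (1 : F[X]).natDegree := Nat.cast_nonneg _
    have h5 : (0 : ℝ) ≤ s := Nat.cast_nonneg _
    push_cast
    linarith

end Pool.Agent.PPg
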