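import Pool.Agent.MP_f37147_nt.G.St

/- Prime pairs over `F[X]`, general linear forms: the weighted bound for two forms. -/

set_option autoImplicit false
set_option linter.unusedSectionVars false

namespace Pool.Agent.PPg

open Polynomial Finset Pool.Agent.MP_4fffd4_nt Pool.Agent.MP_c853c5_nt Pool.Agent.MP_43e117_nt
open Pool.Agent.PPf
open scoped BigOperators

namespace TwinGX

variable {F : Type} [Field F] [Fintype F] {u : F[X]} {s : ℕ}

theorem lf_ext (hu : u.Monic) {A B : F[X] → ℝ} (h1 : ∀ L, A L = B (u * L))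
    (h2 : ∀ g, ¬ u ∣ g → B g = 0) : lf u A = B := funext fun g => by
  by_cases e : u ∣ g
  · obtain ⟨L, rfl⟩ := e
    rw [lf_mul hu, h1]
  · rw [lf_not A e, h2 g e]

theorem lf_up (hu : u ∈ monF F s) (a : F[X] → ℝ) (i : ℕ) :
    lf u (up a i) = up (lf u a) (i + s) := by
  have h0 := (mem_monF.1 hu).1
  have e : ∀ g, up (lf u a) (i + s) g = ∑ D ∈ monF F i, ind (u * D ∣ g) * a D := fun g => by
    rw [up, Finset.sum_congr rfl fun D _ => mul_comm _ _, sum_lf hu]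
    exact Finset.sum_congr rfl fun D _ => mul_comm _ _
  refine lf_ext h0 (fun L => ?_) fun g hg => ?_
  · rw [e, up]
    exact Finset.sum_congr rfl fun D _ => by
      rw [TK.ind_iff (mul_dvd_mul_iff_left h0.ne_zero)]
  · rw [e]
    exact Finset.sum_eq_zero fun D _ => by
      rw [ind_neg fun x => hg ((dvd_mul_right _ _).trans x), zero_mul]

theorem lf_cv (hu : u ∈ monF F s) (a b : F[X] → ℝ) (i j : ℕ) :
    lf u (cv a b i j) = cv a (lf u b) i (j + s) := by
  have h0 := (mem_monF.1 hu).1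
  have e : ∀ g, cv a (lf u b) i (j + s) g =
      ∑ d ∈ monF F i, ∑ e ∈ monF F j, ind (u * (d * e) = g) * (a d * b e) := fun g => by
    refine Finset.sum_congr rfl fun d _ => ?_
    have := sum_lf hu j b fun e => ind (d * e = g) * a d
    refine (Finset.sum_congr rfl fun e _ => by ring).trans (this.trans ?_)
    exact Finset.sum_congr rfl fun e _ => by rw [mul_left_comm d u]; ring
  refine lf_ext h0 (fun L => ?_) fun g hg => ?_
  · rw [e, cv]
    exact Finset.sum_congr rfl fun d _ => Finset.sum_congr rfl fun D _ => by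
      rw [TK.ind_iff (mul_right_inj' h0.ne_zero)]
  · rw [e]
    exact Finset.sum_eq_zero fun d _ => Finset.sum_eq_zero fun D _ => by
      rw [ind_neg fun x : u * (d * D) = g => hg ⟨_, x.symm⟩, zero_mul]

theorem lf_cv3 (hu : u ∈ monF F s) (a b c : F[X] → ℝ) (i j k : ℕ) :
    lf u (cv3 a b c i j k) = cv3 a (lf u b) c i (j + s) k := by
  have h0 := (mem_monF.1 hu).1
  have e : ∀ g, cv3 a (lf u b) c i (j + s) k g = ∑ d ∈ monF F i, ∑ e ∈ monF F j,
      ∑ r ∈ monF F k, ind (u * (d * (e * r)) = g) * (a d * (b e * c r)) := fun g => by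
    refine Finset.sum_congr rfl fun d _ => ?_
    have := sum_lf hu j b fun e => ∑ r ∈ monF F k, ind (d * (e * r) = g) * (a d * c r)
    refine (Finset.sum_congr rfl fun e _ => ?_).trans (this.trans ?_)
    · rw [Finset.mul_sum]
      exact Finset.sum_congr rfl fun r _ => by ring
    · refine Finset.sum_congr rfl fun e _ => ?_
      rw [Finset.mul_sum]
      exact Finset.sum_congr rfl fun r _ => by
        rw [show d * (u * e * r) = u * (d * (e * r)) by ring]; ring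
  refine lf_ext h0 (fun L => ?_) fun g hg => ?_
  · rw [e, cv3]
    exact Finset.sum_congr rfl fun d _ => Finset.sum_congr rfl fun D _ =>
      Finset.sum_congr rfl fun r _ => by rw [TK.ind_iff (mul_right_inj' h0.ne_zero)]
  · rw [e]
    exact Finset.sum_eq_zero fun d _ => Finset.sum_eq_zero fun D _ =>
      Finset.sum_eq_zero fun r _ => by
        rw [ind_neg fun x : u * (d * (D * r)) = g => hg ⟨_, x.symm⟩, zero_mul]

theorem thin {n N E' E T Θ : ℕ} (hN : 100 ≤ N) (hR : E' * N ^ 2 ≤ 10 * n) (hE : E * N ^ 4 ≤ n)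
    (hT : 2 * T ≤ E) (hΘ : Θ * N ≤ n) (hΘ' : n ≤ 2 * N * Θ) (hn : 0 < n) :
    10 * ((E' : ℝ) ^ 2 + Θ * E' + (n : ℝ) ^ 2 * (E + 2 * T : ℕ) / Θ) ≤
      150 * (n : ℝ) ^ 2 / (N : ℝ) ^ 3 := by
  have h0 : (100 : ℝ) ≤ N := by exact_mod_cast hN
  have h1 : (0 : ℝ) < N := by linarith
  have h2 : (0 : ℝ) < n := Nat.cast_pos.2 hn
  have a1 : (E' : ℝ) ≤ 10 * n / (N : ℝ) ^ 2 := by
    rw [le_div_iff₀ (by positivity)]
    exact_mod_cast hR
  have a2 : (Θ : ℝ) ≤ n / N := by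
    rw [le_div_iff₀ h1]
    exact_mod_cast hΘ
  have a3 : ((E + 2 * T : ℕ) : ℝ) ≤ 2 * n / (N : ℝ) ^ 4 := by
    rw [le_div_iff₀ (by positivity)]
    exact_mod_cast (Nat.mul_le_mul_right _ (by omega : E + 2 * T ≤ 2 * E)).trans
      (by rw [mul_assoc]; omega)
  have a4 : n / (2 * N : ℝ) ≤ Θ := by
    rw [div_le_iff₀' (by positivity)]
    exact_mod_cast hΘ'
  have a5 : 100 / (N : ℝ) ≤ 1 := (div_le_one h1).2 h0
  calc _ ≤ 10 * ((10 * n / (N : ℝ) ^ 2) ^ 2 + n / N * (10 * n / (N : ℝ) ^ 2) +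
        (n : ℝ) ^ 2 * (2 * n / (N : ℝ) ^ 4) / (n / (2 * N))) := by gcongr
    _ = 10 * (100 / N + 14) * ((n : ℝ) ^ 2 / (N : ℝ) ^ 3) := by field_simp; ring
    _ ≤ 10 * (1 + 14) * ((n : ℝ) ^ 2 / (N : ℝ) ^ 3) := by gcongr
    _ = _ := by ring

end TwinGX

open TFin TwinX TwinGX in
theorem sTwinG : ∃ C : ℝ, 0 < C ∧ ∀ (F : Type) [Field F] [Fintype F] [CharP F 2],
    SLU0 F → SCentG F → SMassG F → SModG F → STotalG F → STwinG F C := by
  refine ⟨150 * (5 * (160000000 : ℕ) * Real.exp (Real.exp 14 + 2 * (160000000 : ℕ))) ^ 2,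
    by positivity,
    fun F _ _ _ hLU hCent hMass hMod hTot N s u u' w w' h W hN hu hu' hh hW hP => ?_⟩
  obtain ⟨CL, hCL, n₁, HL⟩ := hLU h (2 * N ^ 4) hh
  obtain ⟨n₂, HK⟩ := hCent h hh
  have hq : 0 < Fintype.card F := Fintype.card_pos
  obtain ⟨H, hH⟩ : ∃ H, H = 100 * (CL + N ^ 4 + Fintype.card F * 10000000) := ⟨_, rfl⟩
  have hH0 : 0 < H := by omega
  obtain ⟨n₃, HS⟩ := TSieve.size H hH0
  obtain ⟨n₄, Hτ⟩ := exists_DivB (F := F) 5 H hH0
  obtain ⟨n₅, HQ⟩ := exists_poly (F := F) 3 1 H hH0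
  obtain ⟨n₆, HP⟩ := exists_poly (F := F) 1 1 (2 * H) (by omega)
  obtain ⟨n₇, hn₇⟩ := exists_nat_ge (18 + 3 * Real.exp 18 + 34)
  refine ⟨2 * H, by omega, n₁ + n₂ + n₃ + n₄ + n₅ + n₆ + n₇ + h.natDegree + N ^ 4 * (s + 2) +
    80000000 * (W.natDegree + 8), fun n hn R K ι Z M Φ b7 hF hWM h0 hK hLine hMain => ?_⟩
  have N2 : 10000000000 ≤ N ^ 2 := le_trans (by norm_num) (Nat.pow_le_pow_left hN 2)
  have N4 : N ^ 2 ≤ N ^ 4 := Nat.pow_le_pow_right (by omega) (by norm_num)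
  have N5 : 4 * N ≤ N ^ 2 := by nlinarith
  have N6 : N ^ 4 * (s + 2) ≤ n := by omega
  have N7 : N ^ 4 ≤ n := le_trans (Nat.le_mul_of_pos_right _ (by omega)) N6
  have hτ := Hτ n (by omega)
  have hn0 : (2 : ℝ) ≤ n := by exact_mod_cast (by omega)
  have hQ : (n : ℝ) + 2 ≤ qq F (n / H) := le_trans (by push_cast; linarith) (HQ n (by omega))
  have hPP : 18 + 3 * Real.exp 18 + 34 ≤ qq F (n / (2 * H)) := by
    refine hn₇.trans (le_trans ?_ (HP n (by omega)))
    rw [pow_one, Nat.cast_one, one_mul]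
    exact_mod_cast (by omega)
  have hPQ : qq F (n / (2 * H)) ^ 2 ≤ qq F (n / H) := by
    rw [qq_pow, mul_comm]
    exact qq_mono (mul_div_le hH0 le_rfl n)
  have b1 := (mul_div_le (c := 100) hCL (M := H) (by omega) n).trans
    (Nat.div_le_div_right (c := CL) (Nat.le_add_right n s))
  have b2 := mul_div_le (c := 100) (C := N ^ 4) (by omega) (M := H) (by omega) n
  have b3 := mul_div_le (c := 100 * Fintype.card F) (C := 10000000) (by omega) (M := H)
    (by rw [mul_assoc]; omega) n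
  have b6 := mul_div_le (c := 4) (C := N) (by omega) (M := N ^ 4) (by omega) n
  have b8 := Nat.div_mul_le_self n (N ^ 4)
  have b9 := Nat.div_mul_le_self n N
  have b10 : s + 2 ≤ n / N ^ 4 := (Nat.le_div_iff_mul_le (by omega)).2 (by rwa [mul_comm])
  have b11 : n + s ≤ 2 * N ^ 4 * (n / N ^ 4) := by
    have := Nat.lt_mul_div_succ n (b := N ^ 4) (by omega)
    nlinarith
  have b12 : n ≤ 2 * N * (n / N) := by
    have := Nat.lt_mul_div_succ n (b := N) (by omega)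
    nlinarith
  have b13 := Nat.div_le_self n N
  rw [mul_assoc] at b3
  have hsz := HS n (Nat.log 2 (n / 10000000 / 8 / 8)) (by omega)
  generalize n / H = t at *
  generalize n / N ^ 4 = E at *
  generalize n / N = Θ at *
  have b14 : (E + 4 * R + s) * N ^ 2 ≤ 10 * n := by
    have c1 : E * N ^ 2 ≤ E * N ^ 4 := Nat.mul_le_mul_left _ N4
    have c2 : s * N ^ 2 ≤ E * N ^ 2 := Nat.mul_le_mul_right _ (by omega)
    rw [add_mul, add_mul, mul_assoc]
    omega
  have b15 : (E + 4 * R + s) * 10000000000 ≤ 10 * n := (Nat.mul_le_mul_left _ N2).trans b14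
  obtain ⟨y, hy⟩ : ∃ y, y = n / 10000000 / 8 := ⟨_, rfl⟩
  rw [← hy] at hsz
  generalize hS : Nat.log 2 (y / 8) = S at hsz
  have s1 : 2 ^ S ≤ y / 8 := hS ▸ Nat.pow_log_le_self 2 (by omega)
  have s2 : y / 8 < 2 ^ (S + 1) := hS ▸ Nat.lt_pow_succ_log_self one_lt_two _
  have h1 : 8 ≤ y / 2 ^ S := (Nat.le_div_iff_mul_le (Nat.two_pow_pos S)).2 (by omega)
  have h2 : y / 2 ^ S ≤ 15 := by
    rw [pow_succ] at s2
    exact Nat.le_of_lt_succ ((Nat.div_lt_iff_lt_mul (Nat.two_pow_pos S)).2 (by omega))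
  obtain ⟨κ, Z', a, b, α, hs⟩ := sieve_nu W (n := n) (y := y) (S := S) (by omega)
  replace hs := TSieve.sieve_mono hs (R' := n / 10000000) (B' := qq F t) (by omega)
    (le_trans (by exact_mod_cast hsz (by omega)) (two_pow_le_qq _))
  have hdeg : h.degree < (n + s : ℕ) :=
    degree_le_natDegree.trans_lt (by exact_mod_cast (by omega))
  have hE : ∀ (u u' w w' : F[X]) (Φ : ι → F[X] → ℝ), u ∈ monF F s → u' ∈ monF F s →
      FamG u u' w w' h (n + s) R (wlo (2 * N ^ 4) (n + s)) (whi (2 * N ^ 4) (n + s)) Z M Φ →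
      EstG (tot Z Φ) h u u' n s (n / 100000) (E + 4 * R + s) E
        (qq F (n + s) / qq F (100 * t)) := fun u u' w w' Φ hu hu' hF =>
    ⟨fun I I' α β h1 h2 h3 => (HK n (by omega) u u' w w' s R _ _ ι Z M Φ hu hu' (by omega) hF I I'
        α β h1 h2 (h3.imp_left fun _ => by omega)).trans (div_qq_mono _ (by omega)),
      fun i ε₁ ε₂ μ κ h1 h2 h3 α₁ β₁ α₂ β₂ h4 h5 h6 h7 => by
        rw [cG, lf_cv hu, lf_cv3 hu']
        exact ((HL (n + s) (by omega) E R ι Z M Φ b11 hF.toFam0).1 i _ ε₂ μ _ (by omega) (by omega)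
          (by omega) α₁ _ _ β₂ h4 (Bd.lf hu h5) (Bd.lf hu' h6) h7).trans (div_qq_mono _ b1),
      fun i ε₁ ε₂ κ h1 h2 h3 h4 β₁ α₂ β₂ h5 h6 h7 => by
        rw [cG, lf_up hu, lf_cv3 hu']
        exact ((HL (n + s) (by omega) E R ι Z M Φ b11 hF.toFam0).2 i _ ε₂ _ (by omega) (by omega)
          (by omega) (by omega) _ _ β₂ (Bd.lf hu h5) (Bd.lf hu' h6) h7).trans
            (div_qq_mono _ b1)⟩
  have hq0 := qq_pos (F := F) (n + s)
  have hq1 := qq_pos (F := F) t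
  have hm : MassG _ h u u' n s (2 * (n / 10000000) + (E + 4 * R + s)) _ _ := fun i i' c1 c2 c3 =>
    hMass u u' w w' h W n s y S 160000000 R _ _ K ι Z M Φ hu hu' hF hWM hW hP h0 hK hLine
      (by omega) h1 h2 (by omega) (by omega) i i' c1 c2 (by omega)
  obtain ⟨m1, m2⟩ := hMod u u' w w' h W κ n s R (n / 10000000 + 2 * (30 * t)) _ _ (qq F t)
    (qq F t) K ι Z M Φ (mem_monF.1 hu).1 (mem_monF.1 hu').1 hF (by omega) hWM
    (fun P h1 h2 => hP P h1 (Or.inl h2)) hK hMain (by omega) (by omega) (by omega)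
    (by omega) hτ (fun K => hs.lev.abs_coef) (hs.lev.coef_one.trans hs.unit)
  have h3 := hTot _ _ κ h u u' n s _ (30 * t) _ _ E Θ _ _ _ _ _ _ Z' a b α hu hu' (by omega)
    (div_pos hq0 (qq_pos _)).le (hE u u' w w' Φ hu hu' hF)
    (hE u' u w' w _ hu' hu (hF.shift hdeg))
    (fun f hf => ⟨h0 f, (le_abs_self _).trans (hF.toFam0.abs_tot hf)⟩) hs (hτ.mono (by omega)) hQ
    (by omega) (by omega) (by omega) (by omega) (by omega) b13 (by positivity) hm (by positivity)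
    m1 m2
  have h4 := TwinGX.thin (T := 30 * t) (by omega) b14 b8 (by omega) b9 b12 (by omega)
  have h5 := numer (ζ := (3 / 4) ^ (n / 10000000 + 2 * (30 * t))) hQ (by positivity) hq0
    (by positivity) (small (by omega)) (by positivity) hPP hPQ
  rw [show qq F (30 * t) = qq F t ^ 30 by rw [qq_pow, mul_comm],
    show qq F (100 * t) = qq F t ^ 100 by rw [qq_pow, mul_comm]] at h3
  have hV : 0 ≤ (VS (pf W))⁻¹ ^ 2 * K := by positivity
  have hC := sq_nonneg (5 * (160000000 : ℕ) * Real.exp (Real.exp 14 + 2 * (160000000 : ℕ)))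
  generalize (5 * (160000000 : ℕ) * Real.exp (Real.exp 14 + 2 * (160000000 : ℕ))) ^ 2 = C₁,
    (VS (pf W))⁻¹ ^ 2 * K = V at h3 hV hC ⊢
  have h6 := mul_le_mul_of_nonneg_right h4
    (show 0 ≤ C₁ * V * qq F (n + s) / (n : ℝ) ^ 2 by positivity)
  rw [show 150 * (n : ℝ) ^ 2 / (N : ℝ) ^ 3 * (C₁ * V * qq F (n + s) / (n : ℝ) ^ 2) =
    150 * C₁ / (N : ℝ) ^ 3 * (qq F (n + s) * V) by field_simp] at h6
  linarith

end Pool.Agent.PPg
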