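import Pool.Agent.MP_f37147_nt.G.LU0
import Pool.Agent.MP_f37147_nt.G.ModG
import Pool.Agent.MP_f37147_nt.G.TwinG
import Pool.Agent.MP_f37147_nt.G.CaseG
import Pool.Agent.MP_f37147_nt.G.CentG
import Pool.Agent.MP_f37147_nt.G.ClassG
import Pool.Agent.MP_f37147_nt.G.InstG
import Pool.Agent.MP_f37147_nt.G.LineS
import Pool.Agent.MP_f37147_nt.G.MassS
import Pool.Agent.MP_f37147_nt.G.OneG
import Pool.Agent.MP_f37147_nt.G.PairG
import Pool.Agent.MP_f37147_nt.G.TotalG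
import Pool.Agent.MP_f37147_nt.G.TupG
import Pool.Agent.MP_f37147_nt.G.TupWG

/- Prime pairs over `F[X]`, general linear forms: all steps together. -/

set_option autoImplicit false

namespace Pool.Agent.PPg

open Pool.Agent.PPf

theorem tupleG : ∃ k : ℕ, 1 ≤ k ∧ ∀ (F : Type) [Field F] [Fintype F] [CharP F 2],
    STupleG F k := by
  obtain ⟨C, hC, hT⟩ := sTwinG
  obtain ⟨C₀, hC₀, hcore⟩ := Pool.Agent.MP_f37147_nt.core.{0}
  obtain ⟨k, w, hk, H⟩ := sTupleWG (sPack sMay sIdeal (sModel sLoc sPert)) sFin hC hC₀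
  refine ⟨k, hk, fun F _ _ _ => ?_⟩
  have t := sTerm F (sLocM F)
  have e := sEq F t (sCard F)
  exact sTupleG F (H F (hcore F) (sGlow F) (sGup F) e (sOneG F e (sPnt F (sWeil F)))
    (sQuad F e (sQap F))
    (sPairG F C (hT F (sLU0 F (sPar F) (sTypeU0 F) (sTypeL0 F (sTwo0 F)))
      (sCentG F (sClassG F (sFreq F))) (sMassG F (sGG F) (sLineG F)) (sModG F (sRestr F))
      (sTotalG F (sCaseG F) sOmega)) (sBd F) (sInstG F t (sCard F)) (sCard F)))

end Pool.Agent.PPg
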