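import Pool.Agent.MP_f37147_nt.G.St

/- Prime pairs over `F[X]`, general linear forms: the choice of the automorphisms. -/

set_option autoImplicit false
set_option linter.unusedSectionVars false

namespace Pool.Agent.PPg

open Polynomial Finset Pool.Agent.MP_4fffd4_nt Pool.Agent.MP_c853c5_nt Pool.Agent.MP_43e117_nt
open Pool.Agent.PPf Pool.Agent.MP_f37147_nt.Ex
open scoped BigOperators

theorem greedyG {Γ : Type} [CommGroup Γ] [Fintype Γ] (B : Finset Γ) (k : ℕ)
    (hk : k * (2 * B.card) < Fintype.card Γ) :
    ∃ β : Fin k → Γ, ∀ i j, i ≠ j → β i / β j ∉ B := by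
  classical
  induction k with
  | zero => exact ⟨fun i => i.elim0, fun i => i.elim0⟩
  | succ k ih =>
    have h1 : k * (2 * B.card) ≤ (k + 1) * (2 * B.card) := Nat.mul_le_mul_right _ (Nat.le_succ k)
    obtain ⟨β, hβ⟩ := ih (by omega)
    obtain ⟨b, -, hb⟩ := Finset.exists_mem_notMem_of_card_lt_card
      (s := Finset.univ.biUnion fun i : Fin k =>
        (B.image fun z => z * β i) ∪ B.image fun z => β i / z) (t := Finset.univ) (by
        rw [Finset.card_univ]
        refine lt_of_le_of_lt (Finset.card_biUnion_le.trans ?_) (h1.trans_lt hk)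
        refine (Finset.sum_le_card_nsmul _ _ (2 * B.card) fun i _ => (card_union_le _ _).trans
          ((add_le_add card_image_le card_image_le).trans (two_mul _).ge)).trans ?_
        rw [Finset.card_univ, Fintype.card_fin, smul_eq_mul])
    refine ⟨Fin.cons b β, fun i j => ?_⟩
    refine Fin.cases ?_ (fun i => ?_) i <;> refine Fin.cases ?_ (fun j => ?_) j <;> intro e
    · exact absurd rfl e
    · exact fun e => hb (mem_biUnion.2 ⟨j, mem_univ _, mem_union_left _
        (mem_image.2 ⟨_, e, div_mul_cancel _ _⟩)⟩)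
    · exact fun e => hb (mem_biUnion.2 ⟨i, mem_univ _, mem_union_right _
        (mem_image.2 ⟨_, e, div_div_cancel _ _⟩)⟩)
    · exact hβ i j fun e' => e (by rw [e'])

open Classical in
theorem card_root {ι L : Type} [Fintype ι] [Field L] {p : L[X]} (hp : p ≠ 0) {f : ι → L}
    (hf : Function.Injective f) :
    (Finset.univ.filter fun i => p.IsRoot (f i)).card ≤ p.natDegree :=
  le_trans (Finset.card_le_card_of_injOn (t := p.roots.toFinset) f
    (fun _ h => Finset.mem_coe.2 (Multiset.mem_toFinset.2 ((mem_roots hp).2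
      (Finset.mem_filter.1 (Finset.mem_coe.1 h)).2))) hf.injOn)
    ((Multiset.toFinset_card_le _).trans (card_roots' p))

variable {F : Type} [Field F] [Fintype F] [CharP F 2]

theorem pencil {L : Type} [Field L] [Algebra F L] {c r : F[X]} {D : ℕ} (hr : r ≠ 0)
    (nc : ∀ η : F, c ≠ C η * r) (h1 : c.natDegree ≤ D) (h2 : r.natDegree ≤ D) {α : L}
    (hα : α ≠ 0) (β : L) : C α * c.map (algebraMap F L) + C β * r.map (algebraMap F L) ≠ 0 ∧
      (C α * c.map (algebraMap F L) + C β * r.map (algebraMap F L)).natDegree ≤ D := by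
  refine ⟨fun e => nc (c.coeff r.natDegree / r.leadingCoeff) ?_, (natDegree_add_le _ _).trans
    (max_le ((natDegree_C_mul_le _ _).trans ((natDegree_map _).trans_le h1))
      ((natDegree_C_mul_le _ _).trans ((natDegree_map _).trans_le h2)))⟩
  have h3 : ∀ n, α * algebraMap F L (c.coeff n) + β * algebraMap F L (r.coeff n) = 0 := fun n => by
    have := congrArg (coeff · n) e
    simpa only [coeff_add, coeff_C_mul, coeff_map, coeff_zero] using this
  ext n
  rw [coeff_C_mul, div_mul_eq_mul_div, eq_div_iff (leadingCoeff_ne_zero.2 hr), leadingCoeff]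
  refine (algebraMap F L).injective (mul_left_cancel₀ hα ?_)
  rw [map_mul, map_mul]
  linear_combination algebraMap F L (r.coeff r.natDegree) * h3 n -
    algebraMap F L (r.coeff n) * h3 r.natDegree

/-- The set of bad substitutions. -/
theorem badG {ι : Type} [Fintype ι] (τ : ι → F[X]) (v : ι → F) {L E c d : F[X]} (y : F[X])
    {m D : ℕ} (hE : E ≠ 0) (hL : L ≠ 0) (hd : d ≠ 0) (hLE : IsCoprime L E)
    (inj : ∀ z : AlgebraicClosure F, aeval z L ≠ 0 → Function.Injective fun i => aeval z (τ i))
    (hv : ∀ i, (L ^ m).comp (τ i) = C (v i) * L ^ m) (nc : ∀ η : F, c ≠ C η * (L ^ m * d))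
    (h1 : c.natDegree ≤ D) (h2 : (L ^ m * d).natDegree ≤ D) : ∃ B : Finset ι,
    B.card ≤ (E.natDegree + 1) * (E.natDegree + D) ∧ ∀ i, i ∉ B → IsCoprime E (E.comp (τ i)) ∧
      IsCoprime E (c.comp (τ i) + C (v i) * d.comp (τ i) * y) ∧
      d * c.comp (τ i) ≠ C (v i) * d.comp (τ i) * c := by
  classical
  have hr : L ^ m * d ≠ 0 := mul_ne_zero (pow_ne_zero _ hL) hd
  have hM' : E.map (algebraMap F (AlgebraicClosure F)) ≠ 0 := map_ne_zero hE
  have hZ : (E.map (algebraMap F (AlgebraicClosure F))).roots.toFinset.card ≤ E.natDegree :=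
    (Multiset.toFinset_card_le _).trans ((card_roots' _).trans (natDegree_map _).le)
  have hz : ∀ z : AlgebraicClosure F, aeval z E = 0 → aeval z L ≠ 0 := fun z e e' =>
    ((isCoprime_iff_aeval_ne_zero_of_isAlgClosed F (AlgebraicClosure F) _ _).1 hLE z).elim
      (fun h => h e') fun h => h e
  obtain ⟨z₁, hz₁⟩ : ∃ z : AlgebraicClosure F, aeval z (L * d) ≠ 0 := by
    obtain ⟨z, hz⟩ := Infinite.exists_notMem_finset
      ((L * d).map (algebraMap F (AlgebraicClosure F))).roots.toFinset
    refine ⟨z, fun e => hz (Multiset.mem_toFinset.2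
      ((mem_roots (map_ne_zero (mul_ne_zero hL hd))).2 ?_))⟩
    rwa [IsRoot, eval_map_algebraMap]
  rw [map_mul, mul_ne_zero_iff] at hz₁
  have hv' : ∀ i (z : AlgebraicClosure F), aeval (aeval z (τ i)) (L ^ m) =
      algebraMap F _ (v i) * aeval z L ^ m := fun i z => by
    rw [← aeval_comp, hv, map_mul, aeval_C, map_pow]
  have pc := fun (α : AlgebraicClosure F) (hα : α ≠ 0) β => pencil hr nc h1 h2 hα β
  refine ⟨(Finset.univ.filter fun i => (C (aeval z₁ L ^ m * aeval z₁ d) *
      c.map (algebraMap F (AlgebraicClosure F)) + C (-aeval z₁ c) *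
        (L ^ m * d).map (algebraMap F (AlgebraicClosure F))).IsRoot (aeval z₁ (τ i))) ∪
    (E.map (algebraMap F (AlgebraicClosure F))).roots.toFinset.biUnion fun z =>
      (Finset.univ.filter fun i =>
        (E.map (algebraMap F (AlgebraicClosure F))).IsRoot (aeval z (τ i))) ∪
      Finset.univ.filter fun i => (C (aeval z L ^ m) *
        c.map (algebraMap F (AlgebraicClosure F)) + C (aeval z y) *
          (L ^ m * d).map (algebraMap F (AlgebraicClosure F))).IsRoot (aeval z (τ i)), ?_,
    fun i hi => ?_⟩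
  · have a1 := pc _ (mul_ne_zero (pow_ne_zero m hz₁.1) hz₁.2) (-aeval z₁ c)
    refine (Finset.card_union_le _ _).trans ((add_le_add ((card_root a1.1 (inj _ hz₁.1)).trans a1.2)
      (Finset.card_biUnion_le.trans (Finset.sum_le_card_nsmul _ _
        (E.natDegree + D) fun z hz' => ?_))).trans ?_)
    · have a2 : aeval z L ≠ 0 := hz z (by
        have := (mem_roots hM').1 (Multiset.mem_toFinset.1 hz')
        rwa [IsRoot, eval_map_algebraMap] at this)
      have a3 := pc _ (pow_ne_zero m a2) (aeval z y)
      exact (Finset.card_union_le _ _).trans (add_le_add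
        ((card_root hM' (inj z a2)).trans (natDegree_map _).le)
        ((card_root a3.1 (inj z a2)).trans a3.2))
    · rw [smul_eq_mul]
      have := Nat.mul_le_mul_right (E.natDegree + D) hZ
      nlinarith
  · simp only [Finset.mem_union, Finset.mem_filter, Finset.mem_univ, true_and, Finset.mem_biUnion,
      Multiset.mem_toFinset, mem_roots hM', IsRoot, eval_add, eval_mul, eval_C,
      eval_map_algebraMap, not_or, not_exists, not_and] at hi
    refine ⟨?_, ?_, fun e => hi.1 ?_⟩
    · refine (isCoprime_iff_aeval_ne_zero_of_isAlgClosed F (AlgebraicClosure F) _ _).2 fun z => ?_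
      by_cases e : aeval z E = 0
      · right
        rw [aeval_comp]
        exact (hi.2 z e).1
      · exact Or.inl e
    · refine (isCoprime_iff_aeval_ne_zero_of_isAlgClosed F (AlgebraicClosure F) _ _).2 fun z => ?_
      by_cases e : aeval z E = 0
      · refine Or.inr fun e' => (hi.2 z e).2 ?_
        rw [map_add, map_mul, map_mul, aeval_C, aeval_comp, aeval_comp] at e'
        rw [map_mul, hv']
        linear_combination aeval z L ^ m * e'
      · exact Or.inl e
    · have e' := congrArg (aeval z₁) e
      rw [map_mul, map_mul, map_mul, aeval_C, aeval_comp, aeval_comp] at e'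
      rw [map_mul, hv']
      linear_combination aeval z₁ L ^ m * e'

end Pool.Agent.PPg
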