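import Pool.Agent.MP_f37147_nt.G.Orb
import Pool.Agent.MP_f37147_nt.G.Bad

/- Prime pairs over `F[X]`, general linear forms: the two families. -/

set_option autoImplicit false
set_option linter.unusedSectionVars false

namespace Pool.Agent.PPg

open Polynomial Finset Pool.Agent.MP_4fffd4_nt Pool.Agent.MP_c853c5_nt Pool.Agent.MP_43e117_nt
open Pool.Agent.PPf Pool.Agent.MP_f37147_nt.Ex
open scoped BigOperators

variable {F : Type} [Field F] [Fintype F] [CharP F 2]

theorem dd (p : F[X]) : derivative (derivative p) = 0 := by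
  ext n
  obtain ⟨r, hr⟩ := Nat.even_mul_succ_self (n + 1)
  have h : ((n : F) + 1) * ((n : F) + 1 + 1) = 0 := by
    have := congrArg (Nat.cast : ℕ → F) hr
    push_cast at this
    rw [this, CharTwo.add_self_eq_zero]
  rw [coeff_derivative, coeff_derivative, coeff_zero]
  push_cast
  linear_combination p.coeff (n + 1 + 1) * h

theorem sqrtF (b : F) : ∃ r : F, r ^ 2 = b := by
  have : Fact (Nat.Prime 2) := ⟨Nat.prime_two⟩
  exact surjective_frobenius F 2 b

theorem sq_id {a c d x y Q w : F[X]} (hw : a * c + a * d * Q = w ^ 2)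
    (hxy : a * x ^ 2 + c = d * y) : (a * x + w) ^ 2 = a * d * (y + Q) := by
  linear_combination a * hxy - hw + a * x * w * two_eq (F := F)

theorem core {k : ℕ} (hT : STupleG F k) (hk : k + 1 < Fintype.card F)
    {a c d M x y A B Q w a₁ b₁ : F[X]} (ha : a ≠ 0) (hd : d ≠ 0) (hM : M ≠ 0)
    (hN : a * d = A * B ^ 2) (hw : a * c + a * d * Q = w ^ 2)
    (hA : A * B ∣ a * x + w) (h1 : a * b₁ = A * B * a₁) (h3 : a₁ ∣ a) (h4 : b₁ ∣ A * B)
    (hxy : a * x ^ 2 + c = d * y) (hr : IsCoprime (x * y) (a * d * M))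
    (hc : derivative (a * c) ≠ 0) (s : Fin k → F[X] ≃+* F[X]) (u μ : Fin k → F)
    (ε : Fin k → F[X]) (sC : ∀ l v, s l (C v) = C v) (sd : ∀ l g, (s l g).natDegree = g.natDegree)
    (hu : ∀ l, u l ≠ 0) (hμ : ∀ l, μ l ≠ 0) (sA : ∀ l, s l A = C (u l) * C (μ l) ^ 2 * A)
    (sQ : ∀ l, s l Q = C (u l) * (Q + A * ε l ^ 2))
    (hp : ∀ l j, l ≠ j → ∃ (E₁ c₁ d₁ : F[X]) (v : F), s l (a₁ * M) = s j E₁ ∧ s l c = s j c₁ ∧
      s l d = s j d₁ ∧ u l = u j * v ∧ IsCoprime (a₁ * M) E₁ ∧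
      IsCoprime (a₁ * M) (c₁ + C v * d₁ * y) ∧ d * c₁ ≠ C v * d₁ * c) :
    ∃ n₀ : ℕ, ∀ n, n₀ ≤ n → (∀ l g, a.natDegree + n = A.natDegree + B.natDegree + g.natDegree →
      (C (μ l) * s l g).leadingCoeff = g.leadingCoeff) →
      ∃ P R : F[X], P.Monic ∧ P.natDegree = n ∧ M ∣ P - x ∧ Irreducible P ∧ Irreducible R ∧
        a * P ^ 2 + c = d * R := by
  have h2 := two_eq (F := F)
  have hAB := hN ▸ mul_ne_zero ha hd
  have hA0 : A ≠ 0 := left_ne_zero_of_mul hAB
  have hB0 : B ≠ 0 := fun e => hAB (by rw [e]; ring)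
  obtain ⟨f₀, ht⟩ := hA
  have e3 : y = A * f₀ ^ 2 + Q := mul_left_cancel₀ hAB (by
    have e1 := sq_id hw hxy
    rw [ht, hN] at e1
    linear_combination -e1 - A * B ^ 2 * Q * h2)
  have e4 : ∀ t, a * (x + b₁ * M * t) + w = A * B * (f₀ + a₁ * M * t) := fun t => by
    linear_combination ht + M * t * h1
  have hid : ∀ t, a * (x + b₁ * M * t) ^ 2 + c = d * (A * (f₀ + a₁ * M * t) ^ 2 + Q) := fun t =>
    mul_left_cancel₀ ha (by
      have e5 := e4 t
      generalize x + b₁ * M * t = P, f₀ + a₁ * M * t = f at e5 ⊢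
      linear_combination (a * P + w + A * B * f) * e5 + hw - A * f ^ 2 * hN +
        (-(a * P * w) - a * d * Q) * h2)
  have hb0 : b₁ ≠ 0 := ne_zero_of_dvd_ne_zero (mul_ne_zero hA0 hB0) h4
  obtain ⟨n₀, hn⟩ := orb hT hk s u μ ε sC sd hu hμ sA sQ (mul_ne_zero hb0 hM)
    (mul_ne_zero (ne_zero_of_dvd_ne_zero ha h3) hM) hid
    (fun e => hc (by
      have e6 := congrArg derivative hw
      rwa [der_sq ⟨_, sq w⟩, hN, show A * B ^ 2 * Q = B ^ 2 * (A * Q) by ring, derivative_add,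
        derivative_mul (f := B ^ 2), der_sq ⟨_, sq B⟩, e, zero_mul, mul_zero, add_zero,
        add_zero] at e6))
    (by
      have e6 := hr.of_mul_left_right.of_mul_right_left
      rw [hN, e3, add_comm] at e6
      exact e6.of_mul_right_left.of_add_mul_left_left.symm)
    (hr.of_mul_left_left.of_isCoprime_of_dvd_right
      (mul_dvd_mul_right (h4.trans ⟨B, by rw [hN]; ring⟩) M))
    (e3 ▸ hr.of_mul_left_right.of_isCoprime_of_dvd_right
      (mul_dvd_mul_right (h3.mul_right d) M)) (e3 ▸ hp)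
    (κ := a.leadingCoeff / (A * B).leadingCoeff)
    (div_ne_zero (leadingCoeff_ne_zero.2 ha) (leadingCoeff_ne_zero.2 (mul_ne_zero hA0 hB0)))
  refine ⟨n₀ + w.natDegree + 1, fun n h5 h6 => ?_⟩
  obtain ⟨l, t, p1, p2, p3, p4⟩ := hn n (by omega)
  have e5 := e4 t
  have e6 := hid t
  have e7 : M ∣ x + b₁ * M * t - x := ⟨b₁ * t, by ring⟩
  generalize x + b₁ * M * t = P, f₀ + a₁ * M * t = f at *
  have d1 : (a * P).natDegree = a.natDegree + n := by rw [natDegree_mul ha p2.ne_zero, p1]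
  have d2 : w.degree < (a * P).degree := degree_lt_degree (by omega)
  have f0 : f ≠ 0 := fun e => by
    have := natDegree_add_eq_left_of_degree_lt d2
    rw [e5, e, mul_zero, natDegree_zero] at this
    omega
  have d3 := natDegree_add_eq_left_of_degree_lt d2
  rw [e5, d1, natDegree_mul (mul_ne_zero hA0 hB0) f0, natDegree_mul hA0 hB0] at d3
  rw [h6 l f d3.symm] at p4
  have d4 := leadingCoeff_add_of_degree_lt' d2
  rw [e5, leadingCoeff_mul, p4, mul_div_cancel₀ _ (leadingCoeff_ne_zero.2 (mul_ne_zero hA0 hB0)),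
    leadingCoeff_mul] at d4
  exact ⟨P, _, mul_left_cancel₀ (leadingCoeff_ne_zero.2 ha) (by rw [← d4, mul_one]), p1, e7, p2,
    p3, e6⟩

theorem size {a c d L : F[X]} {g : F} {m : ℕ} (ha : a ≠ 0) (hd : d ≠ 0) (hg : g ≠ 0) (hL : L ≠ 0)
    (hL' : L.natDegree ≤ 1) (H : L * derivative (a * c) = C g * L ^ m * (a * d)) :
    derivative (a * c) ≠ 0 ∧ (L ^ m * d).natDegree ≤ c.natDegree ∧
      1 ≤ a.natDegree + c.natDegree := by
  have h0 : L ^ m * d ≠ 0 := mul_ne_zero (pow_ne_zero _ hL) hd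
  have h1 : derivative (a * c) ≠ 0 := fun e => mul_ne_zero (C_ne_zero.2 hg) (mul_ne_zero ha h0)
    (by rw [e, mul_zero] at H; linear_combination -H)
  have h3 : (a * c).natDegree ≠ 0 := fun e => h1 (derivative_of_natDegree_zero e)
  have h4 := natDegree_derivative_lt h3
  have h5 := natDegree_mul_le (p := a) (q := c)
  have h6 := congrArg natDegree H
  rw [natDegree_mul hL h1, show C g * L ^ m * (a * d) = C g * (a * (L ^ m * d)) by ring,
    natDegree_C_mul hg, natDegree_mul ha h0] at h6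
  exact ⟨h1, by omega, by omega⟩

theorem famT {k : ℕ} (hT : STupleG F k) {a c d M x y : F[X]} {g : F} (ha : a ≠ 0) (hd : d ≠ 0)
    (hM : M ≠ 0) (hg : g ≠ 0) (H : derivative (a * c) = C g * (a * d))
    (hxy : a * x ^ 2 + c = d * y) (hr : IsCoprime (x * y) (a * d * M))
    (hq : (2 * k + 2) * ((a.natDegree + M.natDegree + 1) *
      (a.natDegree + M.natDegree + c.natDegree)) < Fintype.card F) :
    ∃ n₀ : ℕ, ∀ n, n₀ ≤ n → ∃ P R : F[X], P.Monic ∧ P.natDegree = n ∧ M ∣ P - x ∧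
      Irreducible P ∧ Irreducible R ∧ a * P ^ 2 + c = d * R := by
  have h2 := two_eq (F := F)
  obtain ⟨z1, z2, z3⟩ := size (m := 0) ha hd hg one_ne_zero (by simp) (by simpa using H)
  have hD : 1 ≤ (a.natDegree + M.natDegree + 1) * (a.natDegree + M.natDegree + c.natDegree) :=
    Nat.mul_pos (by omega) (by omega)
  have hN : derivative (a * d) = 0 := by
    have := dd (a * c)
    rw [H, derivative_C_mul] at this
    exact (mul_eq_zero.1 this).resolve_left (C_ne_zero.2 hg)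
  obtain ⟨B, hB⟩ := sq_of_der hN
  obtain ⟨w, hw⟩ := sq_of_der (f := a * c + a * d * (C g * X)) (by
    rw [derivative_add, derivative_mul (f := a * d), hN, H, derivative_C_mul, derivative_X]
    linear_combination C g * (a * d) * h2)
  obtain ⟨S, S1, S2⟩ := badG (fun i : F => X + C i) (fun _ => 1) y (m := 0) (mul_ne_zero ha hM)
    one_ne_zero hd isCoprime_one_left
    (fun z _ i j e => by
      simp only [map_add, aeval_X, aeval_C] at e
      exact (algebraMap F _).injective (add_left_cancel e))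
    (fun _ => by simp)
    (fun η e => z1 (by
      rw [e, pow_zero, one_mul, mul_left_comm, derivative_C_mul, hN, mul_zero])) le_rfl z2
  rw [natDegree_mul ha hM] at S1
  obtain ⟨β, hβ⟩ := greedy S k (by nlinarith)
  choose s s1 s2 s3 s4 using fun l => trans_eq (β l)
  choose r hr' using fun l => sqrtF (g * β l)
  have ss : ∀ l j p, s l p = s j (p.comp (X + C (β l + β j))) := fun l j p => by
    rw [s1, s1, comp_assoc, add_comp, X_comp, C_comp, C_add]
    exact congrArg _ (by linear_combination (-C (β j)) * h2)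
  obtain ⟨n₀, hn⟩ := core hT (by nlinarith) (A := 1) (a₁ := a) (b₁ := B) ha hd hM
    (by rw [one_mul, hB]) hw (by
      rw [one_mul]
      exact (IsIntegrallyClosed.pow_dvd_pow_iff two_ne_zero).1 ⟨_, hB ▸ sq_id hw hxy⟩) (by ring) dvd_rfl (by rw [one_mul]) hxy hr z1
    s (fun _ => 1) (fun _ => 1) (fun l => C (r l)) (fun l v => by rw [s1, C_comp]) s3
    (fun _ => one_ne_zero) (fun _ => one_ne_zero) (fun l => by simp)
    (fun l => by
      rw [s1, mul_comp, C_comp, X_comp, ← C_pow, hr', C_mul, C_1]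
      ring)
    fun l j e => ⟨_, _, _, 1, ss l j _, ss l j _, ss l j _, (mul_one _).symm, S2 _ (hβ l j e)⟩
  refine ⟨n₀, fun n h => hn n h fun l p _ => ?_⟩
  rw [C_1, one_mul, s1, leadingCoeff_comp (by simp), leadingCoeff_X_add_C, one_pow, mul_one]

theorem famS {k : ℕ} (hT : STupleG F k) {a c d M x y : F[X]} {g α : F} {m : ℕ} (ha : a ≠ 0)
    (hd : d ≠ 0) (hM : M ≠ 0) (hg : g ≠ 0)
    (H : (X + C α) * derivative (a * c) = C g * (X + C α) ^ m * (a * d))
    (hc : c ≠ C g * (X + C α) ^ m * d)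
    (hL : ∀ j, (X + C α) ^ j ∣ a → (X + C α) ^ j ∣ c - C g * (X + C α) ^ m * d)
    (hLM : IsCoprime (X + C α) M)
    (hxy : a * x ^ 2 + c = d * y) (hr : IsCoprime (x * y) (a * d * M))
    (hq : (2 * k + 2) * ((a.natDegree + M.natDegree + 1) *
      (a.natDegree + M.natDegree + c.natDegree)) < Fintype.card F) :
    ∃ n₀ : ℕ, ∀ n, n₀ ≤ n → 2 * n + a.natDegree ≡ d.natDegree + m [MOD Fintype.card F - 1] →
      ∃ P R : F[X], P.Monic ∧ P.natDegree = n ∧ M ∣ P - x ∧
        Irreducible P ∧ Irreducible R ∧ a * P ^ 2 + c = d * R := by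
  classical
  have h2 := two_eq (F := F)
  obtain ⟨L, hLd⟩ : ∃ L : F[X], L = X + C α := ⟨_, rfl⟩
  have L1 : L.natDegree = 1 := by rw [hLd, natDegree_X_add_C]
  have L2 : derivative L = 1 := by rw [hLd]; simp
  have L3 : Prime L := by
    rw [hLd, ← sub_neg_eq_add, ← C_neg]
    exact prime_X_sub_C _
  obtain ⟨τ, hτ⟩ : ∃ τ : Fˣ → F[X], ∀ i, τ i = C i.1 * X + C ((i.1 + 1) * α) :=
    ⟨_, fun _ => rfl⟩
  have L4 : ∀ i, L.comp (τ i) = C i.1 * L := fun i => by
    rw [hLd, add_comp, X_comp, C_comp, hτ, C_mul, C_add, C_1]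
    linear_combination C α * h2
  have L5 : ∀ i, τ i = C i.1 * L + C α := fun i => by
    rw [hLd, hτ, C_mul, C_add, C_1]
    ring
  have L6 : ∀ i j : Fˣ, (τ (i / j)).comp (τ j) = τ i := fun i j => by
    rw [L5 (i / j), L5 i, add_comp, mul_comp, C_comp, C_comp, L4, ← mul_assoc, ← C_mul,
      ← Units.val_mul, div_mul_cancel]
  rw [← hLd] at H hc hL hLM
  obtain ⟨z1, z2, z3⟩ := size ha hd hg L3.ne_zero L1.le H
  have hD : 1 ≤ (a.natDegree + M.natDegree + 1) * (a.natDegree + M.natDegree + c.natDegree) :=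
    Nat.mul_pos (by omega) (by omega)
  have e1 : L * derivative (L ^ m) = C (m : F) * L ^ m := by
    rcases m with _ | m
    · simp
    · rw [derivative_pow, L2, Nat.add_sub_cancel]
      ring
  have e2 : L * derivative (L ^ m * (a * d)) = L ^ m * (a * d) := by
    have h3 := congrArg derivative H
    rw [derivative_mul, dd, L2, mul_assoc, derivative_C_mul] at h3
    exact mul_left_cancel₀ (C_ne_zero.2 hg) (by linear_combination H - L * h3)
  have e3 : a * d = C (m : F) * (a * d) + L * derivative (a * d) :=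
    mul_left_cancel₀ (pow_ne_zero m L3.ne_zero) (by
      rw [derivative_mul] at e2
      linear_combination -e2 + a * d * e1)
  obtain ⟨w, hw⟩ := sq_of_der (f := a * c + a * d * (C g * L ^ m)) (mul_left_cancel₀ L3.ne_zero (by
    rw [show a * d * (C g * L ^ m) = C g * (L ^ m * (a * d)) by ring, derivative_add,
      derivative_C_mul]
    linear_combination H + C g * e2 + C g * L ^ m * (a * d) * h2))
  have e4 := sq_id hw hxy
  obtain ⟨e₀, B₀, hB₀, he⟩ : ∃ (e : ℕ) (B : F[X]), a * d = L ^ e * B ^ 2 ∧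
      L ^ e * B ∣ a * x + w := by
    rcases Nat.even_or_odd' m with ⟨j, rfl | rfl⟩
    · obtain ⟨B, hB⟩ := sq_of_der (dd (a * d))
      rw [Nat.cast_mul, Nat.cast_ofNat, CharTwo.two_eq_zero, zero_mul, C_0, hB, zero_mul,
        zero_add] at e3
      refine ⟨1, B, by rw [pow_one, e3], ?_⟩
      have hB0 : B ≠ 0 := fun h => mul_ne_zero ha hd (by rw [e3, h]; ring)
      obtain ⟨t, ht⟩ : B ∣ a * x + w := (IsIntegrallyClosed.pow_dvd_pow_iff two_ne_zero).1
        ⟨L * (y + C g * L ^ (2 * j)), by rw [e4, e3]; ring⟩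
      rw [ht, pow_one, mul_comm B]
      exact mul_dvd_mul_right (L3.dvd_of_dvd_pow (n := 2) ⟨y + C g * L ^ (2 * j),
        mul_left_cancel₀ (pow_ne_zero 2 hB0) (by rw [← mul_pow, ← ht, e4, e3]; ring)⟩) B
    · rw [Nat.cast_add, Nat.cast_mul, Nat.cast_ofNat, CharTwo.two_eq_zero, zero_mul, zero_add,
        Nat.cast_one, C_1] at e3
      obtain ⟨B, hB⟩ := sq_of_der (f := a * d)
        (mul_left_cancel₀ L3.ne_zero (by linear_combination -e3))
      refine ⟨0, B, by rw [hB, pow_zero, one_mul], ?_⟩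
      rw [pow_zero, one_mul]
      exact (IsIntegrallyClosed.pow_dvd_pow_iff two_ne_zero).1 ⟨_, hB ▸ e4⟩
  obtain ⟨e, B, a₁, b₁, hB, he, a1, a2, a3, a4⟩ : ∃ (e : ℕ) (B a₁ b₁ : F[X]),
      a * d = L ^ e * B ^ 2 ∧ L ^ e * B ∣ a * x + w ∧ a * b₁ = L ^ e * B * a₁ ∧ a₁ ∣ a ∧
      b₁ ∣ L ^ e * B ∧ ¬ L ∣ a₁ := by
    obtain ⟨j, a₁, h1, h3⟩ := WfDvdMonoid.max_power_factor' ha L3.not_isUnit
    obtain ⟨i, B₁, h4, h5⟩ := WfDvdMonoid.max_power_factor' (a₀ := B₀)
      (fun h => mul_ne_zero ha hd (by rw [hB₀, h]; ring)) L3.not_isUnit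
    have h6 : IsCoprime L B₁ := L3.irreducible.coprime_iff_not_dvd.2 h4
    have h7 : j ≤ e₀ + 2 * i := (pow_dvd_pow_iff L3.ne_zero L3.not_isUnit).1
      ((h6.pow (m := j) (n := 2)).dvd_of_dvd_mul_right ⟨a₁ * d, by
        rw [← mul_assoc, ← h3, hB₀, h5]; ring⟩)
    have h8 : L ^ j ∣ a * x + w := by
      obtain ⟨r, hr⟩ := hL j ⟨a₁, h3⟩
      refine dvd_add (Dvd.dvd.mul_right ⟨a₁, h3⟩ x)
        ((IsIntegrallyClosed.pow_dvd_pow_iff two_ne_zero).1 ⟨a₁ * r, ?_⟩)
      linear_combination -hw + a * hr + L ^ j * r * h3 + a * d * C g * L ^ m * h2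
    rw [h5, ← mul_assoc, ← pow_add] at he
    obtain ⟨ν, n1, n2, n3, n4⟩ : ∃ ν, e₀ + i ≤ ν ∧ j ≤ ν ∧ ν ≤ e₀ + 2 * i ∧ L ^ ν ∣ a * x + w := by
      rcases le_total j (e₀ + i) with h | h
      · exact ⟨e₀ + i, le_rfl, h, by omega, (dvd_mul_right _ _).trans he⟩
      · exact ⟨j, h, le_rfl, h7, h8⟩
    obtain ⟨p, rfl⟩ := Nat.exists_eq_add_of_le n1
    obtain ⟨p', rfl⟩ : ∃ p', i = p + p' := ⟨i - p, by omega⟩
    obtain ⟨r, hr⟩ := Nat.exists_eq_add_of_le n2
    have h9 : L ^ (e₀ + 2 * p) * (L ^ p' * B₁) = L ^ (e₀ + (p + p') + p) * B₁ := by ring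
    refine ⟨e₀ + 2 * p, L ^ p' * B₁, a₁, L ^ r * B₁, by rw [hB₀, h5]; ring, ?_, ?_,
      ⟨L ^ j, by rw [h3, mul_comm]⟩, ⟨L ^ j, by rw [h9, hr]; ring⟩, h1⟩
    · rw [h9]
      exact h6.pow_left.mul_dvd n4 ((dvd_mul_left _ _).trans he)
    · rw [h9, hr, h3]
      ring
  have hB0 : B ≠ 0 := fun h => mul_ne_zero ha hd (by rw [hB, h]; ring)
  have a5 : a₁ ≠ 0 := ne_zero_of_dvd_ne_zero ha a2
  have a6 := natDegree_le_of_dvd a2 ha
  obtain ⟨S, S1, S2⟩ := badG τ (fun i => i.1 ^ m) y (m := m) (mul_ne_zero a5 hM)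
    L3.ne_zero hd ((L3.irreducible.coprime_iff_not_dvd.2 a4).mul_right hLM)
    (fun z hz i j h => by
      simp only [L5, map_add, map_mul, aeval_C] at h
      exact Units.ext ((algebraMap F _).injective (mul_right_cancel₀ hz (add_right_cancel h))))
    (fun i => by rw [pow_comp, L4, mul_pow, C_pow])
    (fun η h => hc (by
      have h3 : C η * (L ^ m * (a * d)) = C g * (L ^ m * (a * d)) := by
        rw [show a * c = C η * (L ^ m * (a * d)) by rw [h]; ring, derivative_C_mul] at H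
        linear_combination H - C η * e2
      rw [h, mul_right_cancel₀ (mul_ne_zero (pow_ne_zero m L3.ne_zero) (mul_ne_zero ha hd)) h3,
        mul_assoc])) le_rfl z2
  rw [natDegree_mul a5 hM] at S1
  replace S1 : S.card ≤ (a.natDegree + M.natDegree + 1) *
      (a.natDegree + M.natDegree + c.natDegree) := S1.trans (Nat.mul_le_mul (by omega) (by omega))
  obtain ⟨β, hβ⟩ := greedyG S k (by
    rw [Fintype.card_units]
    have : k * (2 * S.card) + 2 ≤ Fintype.card F := by nlinarith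
    omega)
  choose s s1 s2 s3 using fun l => sig (RingHom.id F) (((β l).1 + 1) * α) (β l).ne_zero
  replace s1 : ∀ l p, s l p = p.comp (τ (β l)) := fun l p => by rw [s1, map_id, hτ]
  choose μ hμ using fun l => sqrtF ((β l).1 ^ e / (β l).1 ^ m)
  have u0 : ∀ l, (β l).1 ^ m ≠ 0 := fun l => pow_ne_zero _ (β l).ne_zero
  have ss : ∀ l j p, s l p = s j (p.comp (τ (β l / β j))) := fun l j p => by
    rw [s1, s1, comp_assoc, L6]
  obtain ⟨n₀, hn⟩ := core hT (by nlinarith) ha hd hM hB hw he a1 a2 a3 hxy hr z1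
    s (fun l => (β l).1 ^ m) μ (fun _ => 0) (fun l v => by rw [s1, C_comp]) s2 u0
    (fun l h => by
      have := hμ l
      rw [h, zero_pow two_ne_zero] at this
      exact div_ne_zero (pow_ne_zero _ (β l).ne_zero) (u0 l) this.symm)
    (fun l => by
      rw [s1, pow_comp, L4, ← C_pow, hμ, ← C_mul, mul_div_cancel₀ _ (u0 l), mul_pow, C_pow])
    (fun l => by
      rw [s1, mul_comp, C_comp, pow_comp, L4, mul_pow, C_pow]
      ring)
    fun l j h => ⟨_, _, _, _, ss l j _, ss l j _, ss l j _, by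
      rw [← mul_pow, ← Units.val_mul, mul_div_cancel], S2 _ (hβ l j h)⟩
  refine ⟨n₀, fun n h h' => hn n h fun l p hp => ?_⟩
  have d1 := congrArg natDegree hB
  rw [natDegree_mul ha hd, natDegree_mul (pow_ne_zero _ L3.ne_zero) (pow_ne_zero _ hB0),
    natDegree_pow B] at d1
  rw [natDegree_pow, L1, mul_one] at d1 hp
  rw [show 2 * n + a.natDegree = d.natDegree + (e + 2 * p.natDegree) by omega] at h'
  have d2 : β l ^ (e + 2 * p.natDegree) = β l ^ m := pow_eq_pow_iff_modEq.2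
    ((Nat.ModEq.add_left_cancel' _ h').of_dvd (Fintype.card_units F ▸ orderOf_dvd_card))
  have d3 : (μ l * (β l).1 ^ p.natDegree) ^ 2 = 1 ^ 2 := by
    have d4 := congrArg Units.val d2
    rw [Units.val_pow_eq_pow_val, Units.val_pow_eq_pow_val] at d4
    rw [mul_pow, hμ, div_mul_eq_mul_div, one_pow, div_eq_one_iff_eq (u0 l), ← d4]
    ring
  have d5 : μ l * (β l).1 ^ p.natDegree = 1 := by
    rcases sq_eq_sq_iff_eq_or_eq_neg.1 d3 with h | h
    · exact h
    · rw [h, CharTwo.neg_eq]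
  rw [leadingCoeff_mul, leadingCoeff_C, s3, RingHom.id_apply]
  linear_combination p.leadingCoeff * d5

end Pool.Agent.PPg
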