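import Pool.Agent.MP_f37147_nt.G.St

/- Prime pairs over `F[X]`, general linear forms: the estimates for the Liouville function. -/

set_option autoImplicit false
set_option linter.unusedSectionVars false

namespace Pool.Agent.PPg

open Polynomial Finset Pool.Agent.MP_4fffd4_nt Pool.Agent.MP_c853c5_nt Pool.Agent.MP_43e117_nt
open Pool.Agent.PPf
open scoped BigOperators

section A

variable (F : Type) [Field F] [Fintype F] [CharP F 2]

/-- A2: one smooth variable. -/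
def STypeU0 : Prop := ∀ (h : F[X]) (N L η d u r n μ κ ε i b R lo hi : ℕ) (τ : ℝ)
  (c : F[X] → F[X] → ℝ) (B : F[X]) (ι : Type) (Z : Finset ι) (M : ι → F[X]) (Φ : ι → F[X] → ℝ),
  h ≠ 0 → Par F N L η d u r → μ + κ = n → i + ε = n → i + κ + b = 2 * N + 1 →
  κ + b + 2 * L + 2 * R ≤ i → DivB F τ n →
  100 * n * τ ^ 4 * qq F (2 * h.natDegree) ≤ qq F η →
  (∀ k ∈ monF F κ, ∀ e ∈ monF F ε, |c k e| ≤ 1) → B ∈ monF F b → Squarefree B →
  Fam0 n R lo hi Z M Φ → lo ≤ d → d ≤ hi →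
    |cfg h μ κ ε 0 i fun m k e₁ e₂ d' => tot Z Φ (m * k) * (c k e₁ * lam d') *
      gw (goodV F d u) r (od (d' * (k * e₂ * B)))| ≤ qq F n / qq F (4 * η)

/-- A3: the off diagonal terms. -/
def STwo0 : Prop := ∀ (h : F[X]) (N L η d u r n μ κ ε₁ ε₂ i b R lo hi : ℕ)
  (B k k' e₁ e₂ e₂' : F[X]) (ι : Type) (Z : Finset ι) (M : ι → F[X]) (Φ : ι → F[X] → ℝ),
  h ≠ 0 → Par F N L η d u r → μ + κ = n → i + ε₁ + ε₂ = n → i + κ + ε₂ + b = 2 * N + 1 →
  ε₁ + b + 4 * ε₂ + 2 * L + 4 * R ≤ μ → h.natDegree < d → B ∈ monF F b → k ∈ monF F κ →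
  k' ∈ monF F κ → k ≠ k' → e₁ ∈ monF F ε₁ → e₂ ∈ monF F ε₂ → e₂' ∈ monF F ε₂ → Squarefree e₂' →
  Fam0 n R lo hi Z M Φ → lo ≤ d → d ≤ hi →
    |∑ m ∈ monF F μ, ∑ a ∈ monF F i, ∑ a' ∈ monF F i,
      ind (a * (e₁ * e₂) = m * k + h) * ind (a' * (e₁ * e₂') = m * k' + h) *
        (tot Z Φ (m * k) * (lam a * gw (goodV F d u) r (od (a * (k * e₂ * B)))) *
          (tot Z Φ (m * k') * (lam a' * gw (goodV F d u) r (od (a' * (k' * e₂' * B))))))| ≤
    ∑ m ∈ monF F μ, ∑ a ∈ monF F i, ∑ a' ∈ monF F i,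
      ind (a * (e₁ * e₂) = m * k + h) * ind (a' * (e₁ * e₂') = m * k' + h) *
        (3 * ind (SLine.Bad d u (a * (k * e₂ * B))) + 2 * ind (SLine.Bad d u (a' * (k' * e₂' * B))) +
          (4 * n / qq F d + 1 / qq F (10 * η)))

/-- A4: the bilinear sum. -/
def STypeL0 : Prop := ∀ (h : F[X]) (N L η d u r n μ κ ε₁ ε₂ i b R lo hi : ℕ) (τ : ℝ)
  (α β : F[X] → F[X] → ℝ) (B : F[X]) (ι : Type) (Z : Finset ι) (M : ι → F[X])
  (Φ : ι → F[X] → ℝ),
  h ≠ 0 → Par F N L η d u r → μ + κ = n → i + ε₁ + ε₂ = n → i + κ + ε₂ + b = 2 * N + 1 →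
  ε₁ + b + 4 * ε₂ + 2 * L + 4 * R ≤ μ → ε₁ + 10 * η ≤ κ → DivB F τ n →
  100 * n * τ ^ 4 * qq F (2 * h.natDegree) ≤ qq F η →
  (∀ m ∈ monF F μ, ∀ e ∈ monF F ε₁, |α m e| ≤ 1) →
  (∀ k ∈ monF F κ, ∀ e ∈ monF F ε₂, |β k e| ≤ ind (Squarefree e)) → B ∈ monF F b →
  Squarefree B → Fam0 n R lo hi Z M Φ → lo ≤ d → d ≤ hi →
    |cfg h μ κ ε₁ ε₂ i fun m k e₁ e₂ d' => tot Z Φ (m * k) * (α m e₁ * (β k e₂ * lam d')) *
      gw (goodV F d u) r (od (d' * (k * e₂ * B)))| ≤ qq F n / qq F (4 * η)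

open TypeUX in
theorem sTypeU0 : STypeU0 F := by
  intro h N L η d u r n μ κ ε i b R lo hi τ c B ι Z M Φ hh hp hn hn' hN h2 hτ hη hc hB hBs H hlo hhi
  have hr := hp.hr
  have hL := hp.hL
  have hu := hp.hu
  have hτ1 := hτ.one_le
  have hn1 : 1 ≤ n := by omega
  have hhη := natDegree_lt_of_small hn1 hτ1 hη
  have hηd : 10 * η ≤ d := by
    have h1 : 1 ≤ Fintype.card F := Fintype.card_pos
    have h3 : 1 ≤ 8 ^ (2 * u + 2) := Nat.one_le_pow _ _ (by norm_num)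
    have h4 : 10 * η ≤ Fintype.card F * (10 * η) := Nat.le_mul_of_pos_left _ h1
    have h5 : 2 * (Fintype.card F * (10 * η)) ≤
        2 * (Fintype.card F * (10 * η)) * 8 ^ (2 * u + 2) := Nat.le_mul_of_pos_right _ h3
    have := hp.hd
    omega
  have hbad := cfg_bad (μ := μ) (κ := κ) (ε₁ := ε) (ε₂ := 0) (i := i) (d := d) (u := u) hh hn
    (by omega) hτ (by omega) (by omega) hB hBs
  have hone := cfg_one_le (h := h) (μ := μ) (κ := κ) (ε₁ := ε) (ε₂ := 0) (i := i) hτ hn (by omega)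
  have hq := qq_pos (F := F)
  calc _ = |∑ z ∈ Z, ∑ v ∈ goodV F d u, ∑ s ∈ monF F r, cfg h μ κ ε 0 i fun m k e₁ e₂ d' =>
          Φ z (m * k) * (c k e₁ * lam d' * ind (v * s = od (d' * (k * e₂ * B))))| := by
        simp only [← cfg_sum, ← Finset.mul_sum, ← Finset.sum_mul, gw, tot, mul_assoc]
    _ ≤ ∑ z ∈ Z, ∑ v ∈ goodV F d u, ∑ s ∈ monF F r, cfg h μ κ ε 0 i fun m k _ e₂ d' =>
          |Φ z (m * k)| * (ind (v * s = od (d' * (k * e₂ * B))) *
            (3 * ind (SLine.Bad d u (d' * (k * e₂ * B))) + 1 / qq F (10 * η))) :=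
        (Finset.abs_sum_le_sum_abs _ _).trans (Finset.sum_le_sum fun z hz =>
          (Finset.abs_sum_le_sum_abs _ _).trans (Finset.sum_le_sum fun v hv =>
            (Finset.abs_sum_le_sum_abs _ _).trans (Finset.sum_le_sum fun s hs =>
              key (N := N) (R := R) hr hp.hd (by omega) (by omega) (by omega) c hc hB hv hs
                (H.mon z hz) (H.deg z hz) (fun P hP => H.not_dvd hlo hhi hz hP) (H.per z hz))))
    _ ≤ cfg h μ κ ε 0 i fun _ k _ e₂ d' =>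
          3 * ind (SLine.Bad d u (d' * (k * e₂ * B))) + 1 / qq F (10 * η) * 1 := by
        simp only [← cfg_sum, ← Finset.mul_sum, ← Finset.sum_mul]
        refine cfg_mono fun m hm k hk e₁ _ e₂ _ D _ _ => ?_
        have h0 : 0 ≤ 3 * ind (SLine.Bad d u (D * (k * e₂ * B))) + 1 / qq F (10 * η) := by
          have := ind_nonneg (SLine.Bad d u (D * (k * e₂ * B)))
          have := hq (10 * η)
          positivity
        rw [mul_one]
        refine (mul_le_of_le_one_left (mul_nonneg (Finset.sum_nonneg fun _ _ =>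
          Finset.sum_nonneg fun _ _ => ind_nonneg _) h0) (H.bd _ (hn ▸ TOne.mon_mul hm hk))).trans ?_
        exact mul_le_of_le_one_left h0 (gw_le_one hr _)
    _ ≤ 3 * (τ ^ 3 * (4 + 2 * b) * qq F n / qq F (10 * η)) +
          1 / qq F (10 * η) * (τ ^ 3 * qq F n) := by
        rw [cfg_add, cfg_mul, cfg_mul]
        have h1 := hq (10 * η)
        have h3 := hq n
        refine add_le_add (mul_le_mul_of_nonneg_left (hbad.trans ?_) (by norm_num))
          (mul_le_mul_of_nonneg_left hone (by positivity))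
        exact div_le_div_of_nonneg_left (by positivity) h1 (qq_mono hηd)
    _ = τ ^ 3 * (13 + 6 * b) * qq F n / qq F (10 * η) := by ring
    _ ≤ qq F (6 * η) * qq F n / qq F (10 * η) := by
        have h1 := hq (10 * η)
        have h3 := hq n
        have hb : (13 : ℝ) + 6 * b ≤ 100 * n := by
          have : 13 + 6 * b ≤ 100 * n := by omega
          exact_mod_cast this
        have h4 : τ ^ 3 * (13 + 6 * b) ≤ qq F (6 * η) :=
          calc τ ^ 3 * (13 + 6 * b) ≤ τ ^ 4 * (100 * n) :=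
                mul_le_mul (pow_le_pow_right₀ hτ1 (by norm_num)) hb (by positivity) (by positivity)
            _ = 100 * n * τ ^ 4 * 1 := by ring
            _ ≤ 100 * n * τ ^ 4 * qq F (2 * h.natDegree) :=
                mul_le_mul_of_nonneg_left (one_le_qq _) (by positivity)
            _ ≤ qq F η := hη
            _ ≤ _ := qq_mono (by omega)
        gcongr
    _ = _ := by
        rw [show 10 * η = 6 * η + 4 * η by ring, qq_add, mul_div_mul_left _ _ (hq _).ne']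

open TTwoA TwoX in
theorem sTwo0 : STwo0 F := by
  classical
  intro h N L η d u r n μ κ ε₁ ε₂ i b R lo hi B k k' e₁ e₂ e₂' ι Z M Φ hh hp hn hn' hN h2 hhd hB hk
    hk' hkk he₁ he₂ he₂' hs H hlo hhi
  obtain ⟨k1, k2⟩ := mem_monF.1 hk
  obtain ⟨k1', k2'⟩ := mem_monF.1 hk'
  obtain ⟨c1, c2⟩ := mem_monF.1 he₁
  obtain ⟨b1', b2'⟩ := mem_monF.1 he₂'
  have hL := hp.hL
  have hnn : i + ε₁ + ε₂ = μ + κ := by omega
  have hkk' : k + k' ≠ 0 := fun e => hkk (by rwa [CharTwo.add_eq_zero] at e)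
  have hZ : k' * e₂' * h * (k + k') ≠ 0 :=
    mul_ne_zero (mul_ne_zero (mul_ne_zero k1'.ne_zero b1'.ne_zero) hh) hkk'
  set S := (irrF F d).filter fun P => P ∣ k' * e₂' * h * (k + k') ∧ ¬ P ∣ k * e₂ * B with hS
  have hSc : (S.card : ℝ) ≤ 4 * n := by
    have h1 := SLine.card_le_natDegree hZ S fun P hP => by
      rw [hS, mem_filter, mem_irrF] at hP
      exact ⟨hP.1.1, hP.1.2.2, hP.2.1⟩
    rw [natDegree_mul (mul_ne_zero (mul_ne_zero k1'.ne_zero b1'.ne_zero) hh) hkk',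
      natDegree_mul (mul_ne_zero k1'.ne_zero b1'.ne_zero) hh, k1'.natDegree_mul b1'] at h1
    have h3 := natDegree_add_le k k'
    have : S.card ≤ 4 * n := by omega
    exact_mod_cast this
  have hq := qq_pos (F := F) d
  have e0 : ∑ m ∈ monF F μ, ∑ a ∈ monF F i, ∑ a' ∈ monF F i,
      ind (a * (e₁ * e₂) = m * k + h) * ind (a' * (e₁ * e₂') = m * k' + h) *
        (tot Z Φ (m * k) * (lam a * gw (goodV F d u) r (od (a * (k * e₂ * B)))) *
          (tot Z Φ (m * k') * (lam a' * gw (goodV F d u) r (od (a' * (k' * e₂' * B)))))) =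
      SS h k k' e₁ e₂ e₂' μ i fun a a' => ∑ z ∈ Z, ∑ z' ∈ Z,
        Φ z (a * (e₁ * e₂) + h) * Φ z' (a' * (e₁ * e₂') + h) *
          (lam a * gw (goodV F d u) r (od (a * (k * e₂ * B))) *
            (lam a' * gw (goodV F d u) r (od (a' * (k' * e₂' * B))))) := by
    refine sum_congr rfl fun m _ => sum_congr rfl fun a _ => sum_congr rfl fun a' _ => ?_
    by_cases h1 : a * (e₁ * e₂) = m * k + h
    swap
    · simp [ind_neg h1]
    by_cases h1' : a' * (e₁ * e₂') = m * k' + h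
    swap
    · simp [ind_neg h1']
    simp only [← sum_mul, ← mul_sum]
    rw [h1, h1', add_add_self, add_add_self, tot, tot]
    ring
  have hmem : ∀ a ∈ monF F i, ∀ e ∈ monF F ε₂, a * (e₁ * e) + h ∈ monF F n := by
    intro a ha e he
    obtain ⟨a1, a2⟩ := mem_monF.1 ha
    obtain ⟨a3, a4⟩ := mem_monF.1 he
    refine add_mem_mon (degree_le_natDegree.trans_lt (Nat.cast_lt.2 (by omega)))
      (mem_monF.2 ⟨a1.mul (c1.mul a3), ?_⟩)
    rw [a1.natDegree_mul (c1.mul a3), c1.natDegree_mul a3]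
    omega
  have e2 : |SS h k k' e₁ e₂ e₂' μ i fun a a' => ∑ z ∈ Z, ∑ z' ∈ Z,
        Φ z (a * (e₁ * e₂) + h) * Φ z' (a' * (e₁ * e₂') + h) *
          (lam a * gw (goodV F d u) r (od (a * (k * e₂ * B))) *
            (lam a' * gw (goodV F d u) r (od (a' * (k' * e₂' * B)))))| ≤
      SS h k k' e₁ e₂ e₂' μ i (WW d u η S (k * e₂ * B) (k' * e₂' * B)) := by
    simp only [SS_sum]
    refine (abs_sum_le_sum_abs _ _).trans ((sum_le_sum fun z hz =>
      (abs_sum_le_sum_abs _ _).trans (sum_le_sum fun z' hz' =>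
        core hp hn hn' hN h2 hB hk hk' he₁ he₂ he₂' S
          (fun P hP e e' => by rw [hS, mem_filter]; exact ⟨hP, e, e'⟩)
          ((H.mon z hz).mul (H.mon z' hz')) ?_ ?_
          (fun a a' => Φ z (a * (e₁ * e₂) + h) * Φ z' (a' * (e₁ * e₂') + h)) ?_)).trans ?_)
    · rw [(H.mon z hz).natDegree_mul (H.mon z' hz')]
      have := H.deg z hz
      have := H.deg z' hz'
      omega
    · intro P hP e
      exact ((mem_irrF.1 hP).2.2.prime.dvd_or_dvd e).elim (H.not_dvd hlo hhi hz hP)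
        (H.not_dvd hlo hhi hz' hP)
    · rintro a a' t ⟨t, rfl⟩
      rw [show (a + k * e₂' * (M z * M z' * t)) * (e₁ * e₂) + h =
          a * (e₁ * e₂) + h + M z * (k * e₂' * M z' * t * (e₁ * e₂)) by ring,
        show (a' + k' * e₂ * (M z * M z' * t)) * (e₁ * e₂') + h =
          a' * (e₁ * e₂') + h + M z' * (k' * e₂ * M z * t * (e₁ * e₂')) by ring,
        H.per z hz, H.per z' hz']
    · simp only [← SS_sum]
      refine SS_mono fun m a ha a' ha' _ _ => ?_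
      simp only [abs_mul, ← sum_mul, ← mul_sum]
      exact mul_le_of_le_one_left (WW_nonneg _ _ _ _ _ _ _ _) (mul_le_one₀
        (H.bd _ (hmem a ha _ he₂)) (sum_nonneg fun _ _ => abs_nonneg _) (H.bd _ (hmem a' ha' _ he₂')))
  rw [e0]
  refine e2.trans ?_
  change _ ≤ SS h k k' e₁ e₂ e₂' μ i fun a a' => 3 * ind (SLine.Bad d u (a * (k * e₂ * B))) +
      2 * ind (SLine.Bad d u (a' * (k' * e₂' * B))) + (4 * n / qq F d + 1 / qq F (10 * η))
  unfold WW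
  simp only [SS_add, SS_sum]
  have h5 : ∑ P ∈ S, (SS h k k' e₁ e₂ e₂' μ i fun a _ => ind (P ∣ od (a * (k * e₂ * B)))) ≤
      SS h k k' e₁ e₂ e₂' μ i fun _ _ => 4 * n / qq F d := by
    refine (sum_le_card_nsmul _ _ _ fun P hP => SS_dvd hnn hk hk' he₁ he₂ he₂'
      (mem_filter.1 hP).1 (mem_filter.1 hP).2.2 hs (by omega)).trans ?_
    rw [nsmul_eq_mul, SS_const (4 * n / qq F d), ← mul_assoc, mul_one_div]
    exact mul_le_mul_of_nonneg_right (div_le_div_of_nonneg_right hSc hq.le) SS_one_nonneg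
  linarith

theorem sTypeL0 (h : STwo0 F) : STypeL0 F := by
  have hT := h
  clear h
  intro h N L η d u r n μ κ ε₁ ε₂ i b R lo hi τ α β B ι Z M Φ hh hp hn hn' hN h2 h3 hτ hη hα hβ hB
    hBs hF hlo hhi
  have hη1 := hp.hκ
  have hτ1 := hτ.one_le
  have hd : 10 * η ≤ d := by
    have h4 : 10 * η ≤ Fintype.card F * (10 * η) := Nat.le_mul_of_pos_left _ Fintype.card_pos
    have h5 : 2 * (Fintype.card F * (10 * η)) ≤ 2 * (Fintype.card F * (10 * η)) * 8 ^ (2 * u + 2) :=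
      Nat.le_mul_of_pos_right _ (by positivity)
    have := hp.hd
    omega
  have hhη : h.natDegree < η := natDegree_lt_of_small (by omega) hτ1 hη
  have hw : ∀ W, |gw (goodV F d u) r W| ≤ 1 := fun W => by
    rw [abs_of_nonneg (gw_nonneg _ _ _)]
    exact gw_le_one hp.hr W
  have hβ1 : ∀ k ∈ monF F κ, ∀ e ∈ monF F ε₂, |β k e| ≤ 1 := fun k hk e he =>
    (hβ k hk e he).trans (ind_le_one _)
  have ht : ∀ m ∈ monF F μ, ∀ k ∈ monF F κ, |tot Z Φ (m * k)| ≤ 1 := fun m hm k hk => by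
    obtain ⟨m1, m2⟩ := mem_monF.1 hm
    obtain ⟨k1, k2⟩ := mem_monF.1 hk
    exact hF.abs_tot (mem_monF.2 ⟨m1.mul k1, by rw [m1.natDegree_mul k1, m2, k2, hn]⟩)
  have hc : (0 : ℝ) ≤ 4 * n / qq F d + 1 / qq F (10 * η) := by
    have := qq_pos (F := F) d
    have := qq_pos (F := F) (10 * η)
    positivity
  have hm : ∀ x ∈ monF F μ ×ˢ monF F ε₁, ∀ k : F[X], ∑ z ∈ monF F ε₂ ×ˢ monF F i,
      ind (z.2 * (x.2 * z.1) = x.1 * k + h) ≤ τ * ind (x.2 ∣ x.1 * k + h) := fun x hx k =>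
    TTwoB.mass_le hτ (by omega) (mem_monF.1 (mem_product.1 hx).2).1.ne_zero _
  have key := TypeLX.abstr (monF F μ ×ˢ monF F ε₁) (monF F κ) (monF F ε₂ ×ˢ monF F i)
    (fun x k z => ind (z.2 * (x.2 * z.1) = x.1 * k + h)) (fun _ _ _ => ind_nonneg _)
    (fun x => α x.1 x.2) (fun x hx => hα _ (mem_product.1 hx).1 _ (mem_product.1 hx).2)
    (fun x k z => β k z.1 * (tot Z Φ (x.1 * k) *
      (lam z.2 * gw (goodV F d u) r (od (z.2 * (k * z.1 * B))))))
    (fun x hx k hk z hz => by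
      rw [abs_mul, abs_mul, abs_mul, abs_lam, one_mul]
      exact mul_le_one₀ (hβ1 k hk _ (mem_product.1 hz).1) (by positivity)
        (mul_le_one₀ (ht _ (mem_product.1 hx).1 k hk) (abs_nonneg _) (hw _)))
    (τ := τ) (Λ := τ * (qq F (h.natDegree + κ) / qq F ε₁))
    (fun x hx k _ => (hm x hx k).trans (mul_le_of_le_one_right (by linarith) (ind_le_one _)))
    (fun x hx => by
      obtain ⟨h4, h5⟩ := mem_monF.1 (mem_product.1 hx).2
      refine (sum_le_sum fun k _ => hm x hx k).trans ?_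
      rw [← mul_sum, ← h5]
      exact mul_le_mul_of_nonneg_left (sum_class h4 hh _ (by omega)) (by linarith))
    (fun k z => ind (SLine.Bad d u (z.2 * (k * z.1 * B)))) (fun _ _ => ind_nonneg _) hc
    (fun k hk k' hk' hkk => by
      refine (TTwoB.reorder _ _ _ _ fun m e p a p' a' => ind (a * (e * p) = m * k + h) *
        (β k p * (tot Z Φ (m * k) * (lam a * gw (goodV F d u) r (od (a * (k * p * B)))))) *
        (ind (a' * (e * p') = m * k' + h) * (β k' p' * (tot Z Φ (m * k') *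
          (lam a' * gw (goodV F d u) r (od (a' * (k' * p' * B)))))))).trans_le
        (le_of_le_of_eq ?_ (TTwoB.reorder _ _ _ _ fun m e p a p' a' =>
          ind (a * (e * p) = m * k + h) * ind (a' * (e * p') = m * k' + h) *
            (3 * ind (SLine.Bad d u (a * (k * p * B))) +
              2 * ind (SLine.Bad d u (a' * (k' * p' * B))) +
              (4 * n / qq F d + 1 / qq F (10 * η)))).symm)
      refine sum_le_sum fun e he => sum_le_sum fun p hp' => sum_le_sum fun p' hp'' => ?_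
      by_cases hs : Squarefree p'
      · refine le_trans ?_ (hT h N L η d u r n μ κ ε₁ ε₂ i b R lo hi B k k' e p p' ι Z M Φ hh hp
          hn hn' hN h2 (by omega) hB hk hk' hkk he hp' hp'' hs hF hlo hhi)
        refine le_trans (le_of_eq ?_) ((le_abs_self _).trans ((abs_mul (β k p * β k' p') _).trans_le
          (mul_le_of_le_one_left (abs_nonneg _) ?_)))
        · simp only [mul_sum]
          exact sum_congr rfl fun _ _ => sum_congr rfl fun _ _ => sum_congr rfl fun _ _ => by ring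
        · rw [abs_mul]
          exact mul_le_one₀ (hβ1 k hk p hp') (abs_nonneg _) (hβ1 k' hk' p' hp'')
      · have h0 : β k' p' = 0 := abs_nonpos_iff.1 ((hβ k' hk' p' hp'').trans_eq (ind_neg hs))
        refine sum_le_sum fun m _ => sum_le_sum fun a _ => sum_le_sum fun a' _ => ?_
        rw [h0, zero_mul, mul_zero, mul_zero]
        exact mul_nonneg (mul_nonneg (ind_nonneg _) (ind_nonneg _)) (add_nonneg (add_nonneg
          (mul_nonneg (by norm_num) (ind_nonneg _)) (mul_nonneg (by norm_num) (ind_nonneg _))) hc))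
  have e1 := cfg_one_le (h := h) hτ hn hn'
  have e2 := cfg_bad (u := u) (d := d) hh hn hn' hτ (by omega) (by omega) hB hBs
  rw [TTwoB.cfg_eq] at e1 e2
  simp only [mul_one] at e1
  have e3 : ((monF F μ ×ˢ monF F ε₁).card : ℝ) = qq F μ * qq F ε₁ := by
    rw [card_product, card_monF, card_monF, qq, qq]
    push_cast
    rfl
  have e4 : ∀ j, qq F (j * η) = qq F η ^ j := fun j => by rw [qq_pow, mul_comm]
  rw [e4]
  refine TTwoB.final (H := qq F h.natDegree) (n := n) (b := b) (A := qq F μ) (E := qq F ε₁)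
    (K := qq F κ) (D := qq F d) hτ1 (by exact_mod_cast (by omega : 1 ≤ n))
    (by exact_mod_cast (by omega : b ≤ n)) (one_le_qq _) (qq_pos _) (qq_pos _) (one_le_qq _)
    (by rw [← qq_add, hn]) (by rw [← e4, ← qq_add]; exact qq_mono h3)
    (by rw [← e4]; exact qq_mono hd) (by rwa [qq_pow, mul_comm h.natDegree]) ?_
  rw [e3, qq_add] at key
  rw [← e4]
  refine le_of_eq_of_le ?_ (key.trans ?_)
  · rw [TTwoB.cfg_eq]
    congr 1
    simp only [mul_sum]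
    exact sum_congr rfl fun _ _ => sum_congr rfl fun _ _ => sum_congr rfl fun _ _ => by ring
  · have := qq_pos (F := F) μ
    have := qq_pos (F := F) ε₁
    have := qq_pos (F := F) κ
    have := qq_pos (F := F) h.natDegree
    gcongr

end A

namespace LU0X

open LUX

variable {F : Type} [Field F] [Fintype F] [CharP F 2]

variable {h : F[X]} {n L η E R lo hi : ℕ} {τ : ℝ} {ι : Type} {Z : Finset ι} {M : ι → F[X]}
  {Φ : ι → F[X] → ℝ}

theorem coreL (H3 : STypeL0 F) (hh : h ≠ 0) (hτ : DivB F τ n)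
    (hhn : h.natDegree < n) (hη : 100 * n * τ ^ 4 * qq F (2 * h.natDegree) ≤ qq F η)
    (hE : 2 * L + 20 * η + 5 ≤ E)
    (hP : ∀ N, n ≤ 4 * N → N ≤ n → ∃ d u r, Par F N L η d u r ∧ lo ≤ d ∧ d ≤ hi)
    (hF : Fam0 n R lo hi Z M Φ)
    {i ε₁ ε₂ μ κ : ℕ} (h1 : i + ε₁ + ε₂ = n) (h2 : μ + κ = n) (h3 : ε₁ + E ≤ κ)
    (h4 : 2 * κ + 4 * ε₂ + (E + 4 * R) ≤ n) {α₁ β₁ α₂ β₂ : F[X] → ℝ} (a1 : Bd μ α₁)
    (b1 : Bd κ β₁) (a2 : Bd ε₁ α₂) (b2 : ∀ e ∈ monF F ε₂, |β₂ e| ≤ ind (Squarefree e)) :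
    |corr h n (tw (tot Z Φ) (cv α₁ β₁ μ κ)) (cv3 lam α₂ β₂ i ε₁ ε₂)| ≤
      qq F η * (qq F n / qq F (4 * η) + qq F n / qq F (4 * η)) := by
  obtain ⟨b, N, hN, c1, c2⟩ : ∃ b N, i + κ + ε₂ + b = 2 * N + 1 ∧ κ ≤ b + ε₁ ∧ b + ε₁ ≤ κ + 1 :=
    ⟨κ - ε₁ + (i + ε₂ + ε₁ + 1) % 2, (i + κ + ε₂ + (κ - ε₁ + (i + ε₂ + ε₁ + 1) % 2)) / 2,
      by omega, by omega, by omega⟩
  obtain ⟨d, u, r, hp, d1, d2⟩ := hP N (by omega) (by omega)
  have hβ : ∀ k ∈ monF F κ, ∀ e ∈ monF F ε₂, |β₁ k * β₂ e| ≤ ind (Squarefree e) :=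
    fun k hk e he => by
      rw [abs_mul]
      exact (mul_le_of_le_one_left (abs_nonneg _) (b1 k hk)).trans (b2 e he)
  have hα : ∀ m ∈ monF F μ, ∀ e ∈ monF F ε₁, |α₁ m * α₂ e| ≤ 1 := fun m hm e he => by
    rw [abs_mul]
    exact mul_le_one₀ (a1 m hm) (abs_nonneg _) (a2 e he)
  rw [corr_cfg h2, cfg_congr (G' := fun m k e₁ e₂ d' =>
    tot Z Φ (m * k) * (α₁ m * α₂ e₁ * (β₁ k * β₂ e₂ * lam d')))
      fun _ _ _ _ _ _ _ _ _ _ _ => by ring]
  refine weight hh hp h2 h1 hN c1 (by omega) (by omega) hτ hhn hη _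
    (fun m hm k hk e₁ he₁ e₂ he₂ d' _ => ?_) fun B hB hBs =>
      H3 h N L η d u r n μ κ ε₁ ε₂ i b R lo hi τ (fun m e => α₁ m * α₂ e)
        (fun k e => β₁ k * β₂ e) B ι Z M Φ hh hp h2 h1 hN (by omega) (by omega) hτ hη hα hβ hB
        hBs hF d1 d2
  have ht : |tot Z Φ (m * k)| ≤ 1 := hF.abs_tot (h2 ▸ TOne.mon_mul hm hk)
  rw [abs_mul, abs_mul _ (β₁ k * β₂ e₂ * lam d'), abs_mul _ (lam d'), abs_lam, mul_one]
  exact (mul_le_of_le_one_left (by positivity) ht).trans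
    ((mul_le_of_le_one_left (abs_nonneg _) (hα m hm e₁ he₁)).trans (hβ k hk e₂ he₂))

theorem coreU (H2 : STypeU0 F) (hh : h ≠ 0) (hτ : DivB F τ n)
    (hhn : h.natDegree < n) (hη : 100 * n * τ ^ 4 * qq F (2 * h.natDegree) ≤ qq F η)
    (hE : 2 * L + 20 * η + 5 ≤ E)
    (hP : ∀ N, n ≤ 4 * N → N ≤ n → ∃ d u r, Par F N L η d u r ∧ lo ≤ d ∧ d ≤ hi)
    (hF : Fam0 n R lo hi Z M Φ)
    {i ε κ : ℕ} (h1 : i + ε = n) (h2 : n ≤ 2 * i) (h3 : κ + (E + 4 * R) ≤ i)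
    (h4 : 2 * κ + (E + 4 * R) ≤ n) {β α : F[X] → ℝ} (b1 : Bd κ β) (a2 : Bd ε α) :
    |corr h n (tw (tot Z Φ) (up β κ)) (cv3 lam α (fun _ => 1) i ε 0)| ≤
      qq F η * (qq F n / qq F (4 * η) + qq F n / qq F (4 * η)) := by
  obtain ⟨μ, hμ⟩ : ∃ μ, μ + κ = n := ⟨n - κ, by omega⟩
  obtain ⟨b₀, c1, c2, c3⟩ :
      ∃ b₀, κ ≤ b₀ + ε ∧ 20 * η + 4 ≤ b₀ ∧ κ + b₀ + 1 + 2 * L + 2 * R ≤ i :=
    ⟨max (κ - ε) (20 * η + 4), by omega, by omega, by omega⟩
  obtain ⟨b, N, hN, c4, c5⟩ : ∃ b N, i + κ + b = 2 * N + 1 ∧ b₀ ≤ b ∧ b ≤ b₀ + 1 :=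
    ⟨b₀ + (i + κ + b₀ + 1) % 2, (i + κ + (b₀ + (i + κ + b₀ + 1) % 2)) / 2,
      by omega, by omega, by omega⟩
  obtain ⟨d, u, r, hp, d1, d2⟩ := hP N (by omega) (by omega)
  have hc : ∀ k ∈ monF F κ, ∀ e ∈ monF F ε, |β k * α e| ≤ 1 := fun k hk e he => by
    rw [abs_mul]
    exact mul_le_one₀ (b1 k hk) (abs_nonneg _) (a2 e he)
  have e1 : corr h n (tw (tot Z Φ) (up β κ)) (cv3 lam α (fun _ => 1) i ε 0) =
      corr h n (tw (tot Z Φ) (cv (fun _ => 1) β μ κ)) (cv3 lam α (fun _ => 1) i ε 0) :=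
    Finset.sum_congr rfl fun f hf => by simp only [tw]; rw [up_eq_cv hμ β hf]
  rw [e1, corr_cfg hμ, cfg_congr (G' := fun m k e₁ _ d' =>
    tot Z Φ (m * k) * (β k * α e₁ * lam d')) fun _ _ _ _ _ _ _ _ _ _ _ => by ring]
  refine weight hh hp hμ h1 hN (by omega) (by omega) (by omega) hτ hhn hη _
    (fun m hm k hk e₁ he₁ e₂ he₂ d' _ => ?_) fun B hB hBs =>
      H2 h N L η d u r n μ κ ε i b R lo hi τ (fun k e => β k * α e) B ι Z M Φ hh hp hμ h1 hN
        (by omega) hτ hη hc hB hBs hF d1 d2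
  have ht : |tot Z Φ (m * k)| ≤ 1 := hF.abs_tot (hμ ▸ TOne.mon_mul hm hk)
  rw [abs_mul, abs_mul _ (lam d'), abs_lam, mul_one, TLU.sq_zero he₂]
  exact mul_le_one₀ ht (abs_nonneg _) (hc k hk e₁ he₁)

end LU0X

variable (F : Type) [Field F] [Fintype F] [CharP F 2]

theorem sLU0 (h1 : SPar F) (h2 : STypeU0 F) (h3 : STypeL0 F) : SLU0 F := by
  intro h M₀ hh
  obtain ⟨C, hC, n₀, H⟩ := LUX.setup h1 h M₀
  refine ⟨C, hC, n₀, fun n hn E R ι Z M Φ hE hF => ?_⟩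
  obtain ⟨L, τ, hτ, hη1, hhn, hη, hL, hP⟩ := H n hn
  refine ⟨fun i ε₁ ε₂ μ κ e1 e2 e3 α₁ β₁ α₂ β₂ a1 b1 a2 b2 => ?_,
    fun i ε₁ ε₂ κ e1 e2 e3 e4 β₁ α₂ β₂ b1 a2 b2 => ?_⟩
  · rcases e3 with ⟨e3, e4⟩ | ⟨e3, e4⟩
    · simpa using TLU.fin hη1 le_rfl (one_le_qq _)
        (LU0X.coreL h3 hh hτ hhn hη (hL E hE) hP hF e1 e2 e3 e4 a1 b1 a2 b2)
    · rw [TLU.corr_merge (τ := τ) (one_pos.trans_le hτ.one_le).ne']
      exact TLU.fin hη1 hτ.one_le (TLU.tau_le (by omega) hτ.one_le hη)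
        (LU0X.coreL h3 hh hτ hhn hη (hL E hE) hP hF (by omega) e2 e3 e4 a1 b1
          (TLU.bd_merge hτ (by omega) a2 fun e he => (b2 e he).trans (ind_le_one _))
          fun e he => by rw [TLU.sq_zero he, abs_one])
  · rw [TLU.corr_merge (τ := τ) (one_pos.trans_le hτ.one_le).ne']
    exact TLU.fin hη1 hτ.one_le (TLU.tau_le (by omega) hτ.one_le hη)
      (LU0X.coreU h2 hh hτ hhn hη (hL E hE) hP hF (by omega) e2 e3 e4 b1
        (TLU.bd_merge hτ (by omega) a2 b2))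

end Pool.Agent.PPg
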