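import Pool.Agent.MP_f37147_nt.G.St

/- Prime pairs over `F[X]`, general linear forms: transport along automorphisms. -/

set_option autoImplicit false
set_option linter.unusedSectionVars false

namespace Pool.Agent.PPg

open Polynomial Finset Pool.Agent.MP_4fffd4_nt Pool.Agent.MP_c853c5_nt Pool.Agent.MP_43e117_nt
open Pool.Agent.PPf Pool.Agent.MP_f37147_nt.Ex
open scoped BigOperators

variable {F : Type} [Field F] [Fintype F] [CharP F 2]

open Classical in
theorem avoidG {k : ℕ} (hk : k + 1 < Fintype.card F) {R a c : F[X]} (hR : Irreducible R)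
    (U V : Fin k → F[X]) (ha : R ∣ a → ¬ R ∣ c) (hU : ∀ l, R ∣ U l → ¬ R ∣ V l) :
    ∃ t, ¬ R ∣ a * t ^ 2 + c ∧ ∀ l, ¬ R ∣ U l * t + V l := by
  have key : ∀ τ τ' : F, R ∣ C τ - C τ' → τ = τ' := fun τ τ' e => by
    by_contra hne
    rw [← C_sub] at e
    exact hR.not_isUnit (isUnit_of_dvd_unit e (unitC (sub_ne_zero.2 hne)))
  obtain ⟨τ, -, hτ⟩ := Finset.exists_mem_notMem_of_card_lt_card
    (s := (Finset.univ.filter fun τ : F => R ∣ a * C τ ^ 2 + c) ∪
      Finset.univ.biUnion fun l : Fin k => Finset.univ.filter fun τ : F => R ∣ U l * C τ + V l)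
    (t := Finset.univ) (by
      rw [Finset.card_univ]
      refine lt_of_le_of_lt ((Finset.card_union_le _ _).trans ((add_le_add (Finset.card_le_one.2
        fun τ h1 τ' h2 => key τ τ' ?_) (Finset.card_biUnion_le.trans (Finset.sum_le_card_nsmul _ _ 1
          fun l _ => Finset.card_le_one.2 fun τ h1 τ' h2 => key τ τ' ?_))).trans ?_)) hk
      · have h0 := (Finset.mem_filter.1 h1).2
        have h3 := dvd_sub h0 (Finset.mem_filter.1 h2).2
        rw [show a * C τ ^ 2 + c - (a * C τ' ^ 2 + c) = a * (C τ - C τ') ^ 2 by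
            linear_combination (a * C τ' * (C τ - C τ')) * two_eq (F := F)] at h3
        exact hR.prime.dvd_of_dvd_pow ((hR.prime.dvd_or_dvd h3).resolve_left fun e =>
          ha e ((dvd_add_right (e.mul_right _)).1 h0))
      · have h0 := (Finset.mem_filter.1 h1).2
        have h3 := dvd_sub h0 (Finset.mem_filter.1 h2).2
        rw [show U l * C τ + V l - (U l * C τ' + V l) = U l * (C τ - C τ') by ring] at h3
        exact (hR.prime.dvd_or_dvd h3).resolve_left fun e =>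
          hU l e ((dvd_add_right (e.mul_right _)).1 h0)
      · rw [Finset.card_univ, Fintype.card_fin, smul_eq_mul]
        omega)
  simp only [Finset.mem_union, Finset.mem_filter, Finset.mem_univ, true_and, Finset.mem_biUnion,
    not_or, not_exists] at hτ
  exact ⟨C τ, hτ.1, hτ.2⟩

/-- The theorem for tuples, for forms that need not be monic. -/
theorem tupN {k : ℕ} (hT : STupleG F k) (hk : k + 1 < Fintype.card F) {a c : F[X]} {s : ℕ}
    {U V : Fin k → F[X]} (h0 : ∀ l, U l ≠ 0) (h1 : ∀ l, (U l).natDegree = s)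
    (h2 : ∀ l l', l ≠ l' → U l' * V l + U l * V l' ≠ 0) (h3 : ¬ IsSquare (a * c))
    (h4 : ∀ R : F[X], Irreducible R → R ∣ a → ¬ R ∣ c)
    (h5 : ∀ R : F[X], Irreducible R → ∀ l, R ∣ U l → ¬ R ∣ V l) :
    ∃ n₀ : ℕ, ∀ n, n₀ ≤ n → ∃ f ∈ monF F n,
      Irreducible (a * f ^ 2 + c) ∧ ∃ l, Irreducible (U l * f + V l) := by
  have hu : ∀ l, IsUnit (C (U l).leadingCoeff⁻¹ : F[X]) := fun l =>
    unitC (inv_ne_zero (leadingCoeff_ne_zero.2 (h0 l)))
  obtain ⟨n₀, hn⟩ := hT a c s (fun l => U l * C (U l).leadingCoeff⁻¹)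
    (fun l => V l * C (U l).leadingCoeff⁻¹)
    (fun l => mem_monF.2 ⟨monic_mul_leadingCoeff_inv (h0 l), by
      rw [natDegree_mul_C (inv_ne_zero (leadingCoeff_ne_zero.2 (h0 l))), h1]⟩)
    (fun l l' e => by
      rw [show U l' * C (U l').leadingCoeff⁻¹ * (V l * C (U l).leadingCoeff⁻¹) +
        U l * C (U l).leadingCoeff⁻¹ * (V l' * C (U l').leadingCoeff⁻¹) =
        (U l' * V l + U l * V l') * (C (U l).leadingCoeff⁻¹ * C (U l').leadingCoeff⁻¹) by ring]
      exact mul_ne_zero (h2 l l' e) ((hu l).mul (hu l')).ne_zero) h3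
    fun R hR => avoidG hk hR _ _ (h4 R hR) fun l e e' =>
      h5 R hR l ((hu l).dvd_mul_right.1 e) ((hu l).dvd_mul_right.1 e')
  refine ⟨n₀, fun n h => ?_⟩
  obtain ⟨f, f1, f2, l, f3⟩ := hn n h
  refine ⟨f, f1, f2, l, ?_⟩
  rwa [show U l * C (U l).leadingCoeff⁻¹ * f + V l * C (U l).leadingCoeff⁻¹ =
    (U l * f + V l) * C (U l).leadingCoeff⁻¹ by ring, irreducible_mul_isUnit (hu l)] at f3

theorem orb {k : ℕ} (hT : STupleG F k) (hk : k + 1 < Fintype.card F) {a c d x E E' f₀ A Q : F[X]}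
    (s : Fin k → F[X] ≃+* F[X]) (u μ : Fin k → F) (ε : Fin k → F[X])
    (sC : ∀ l v, s l (C v) = C v) (sd : ∀ l g, (s l g).natDegree = g.natDegree)
    (hu : ∀ l, u l ≠ 0) (hμ : ∀ l, μ l ≠ 0) (sA : ∀ l, s l A = C (u l) * C (μ l) ^ 2 * A)
    (sQ : ∀ l, s l Q = C (u l) * (Q + A * ε l ^ 2)) (hE : E ≠ 0) (hE' : E' ≠ 0)
    (hid : ∀ t, a * (x + E * t) ^ 2 + c = d * (A * (f₀ + E' * t) ^ 2 + Q))
    (hns : derivative (A * Q) ≠ 0) (hAQ : IsCoprime A Q) (hx : IsCoprime x E)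
    (hy : IsCoprime (A * f₀ ^ 2 + Q) E')
    (hp : ∀ l j, l ≠ j → ∃ (E₁ c₁ d₁ : F[X]) (v : F), s l E' = s j E₁ ∧ s l c = s j c₁ ∧
      s l d = s j d₁ ∧ u l = u j * v ∧ IsCoprime E' E₁ ∧
      IsCoprime E' (c₁ + C v * d₁ * (A * f₀ ^ 2 + Q)) ∧ d * c₁ ≠ C v * d₁ * c)
    {κ : F} (hκ : κ ≠ 0) :
    ∃ n₀ : ℕ, ∀ n, n₀ ≤ n → ∃ l t, (x + E * t).natDegree = n ∧ Irreducible (x + E * t) ∧
      Irreducible (A * (f₀ + E' * t) ^ 2 + Q) ∧
      (C (μ l) * s l (f₀ + E' * t)).leadingCoeff = κ := by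
  classical
  have h2 := two_eq (F := F)
  have s0 : ∀ l g, g ≠ 0 → s l g ≠ 0 := fun l g h e => h ((s l).map_eq_zero_iff.1 e)
  have cop : ∀ i (p p' : F[X]), IsCoprime p p' → IsCoprime (s i p) (s i p') := fun i p p' e =>
    e.map (s i : F[X] →+* F[X])
  obtain ⟨G₀, hG⟩ := Ideal.exists_forall_sub_mem_ideal (I := fun l => Ideal.span {s l E'})
    (fun i j e => (Ideal.isCoprime_span_singleton_iff _ _).2 (by
      obtain ⟨E₁, -, -, -, e1, -, -, -, e2, -⟩ := hp i j e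
      rw [e1]
      exact (cop j _ _ e2).symm)) fun l => C (μ l) * s l f₀ + ε l
  have hG' : ∀ l, ∃ t, G₀ = C (μ l) * (s l f₀ + s l E' * t) + ε l := fun l => by
    obtain ⟨t, ht⟩ := Ideal.mem_span_singleton.1 (hG l)
    refine ⟨C (μ l)⁻¹ * t, ?_⟩
    have k1 : (C (μ l) : F[X]) * C (μ l)⁻¹ = 1 := by rw [← C_mul, mul_inv_cancel₀ (hμ l), C_1]
    linear_combination ht - s l E' * t * k1
  choose t₀ ht₀ using hG'
  obtain ⟨Pr, hPr⟩ : ∃ Pr, Pr = ∏ l, s l E' := ⟨_, rfl⟩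
  have Pr0 : Pr ≠ 0 := hPr ▸ Finset.prod_ne_zero_iff.2 fun l _ => s0 l _ hE'
  obtain ⟨κ', hκ'⟩ : ∃ κ', κ' = κ * Pr.leadingCoeff⁻¹ := ⟨_, rfl⟩
  have κ0 : κ' ≠ 0 := hκ' ▸ mul_ne_zero hκ (inv_ne_zero (leadingCoeff_ne_zero.2 Pr0))
  obtain ⟨D, hD⟩ : ∃ D : Fin k → F[X],
      D = fun l => C (κ' * (μ l)⁻¹) * ∏ j ∈ univ.erase l, s j E' := ⟨_, rfl⟩
  have hD1 : ∀ l, C (μ l) * (s l E' * D l) = C κ' * Pr := fun l => by
    rw [hD, hPr, ← Finset.mul_prod_erase _ _ (mem_univ l)]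
    have k1 : (C (μ l) : F[X]) * C (μ l)⁻¹ = 1 := by rw [← C_mul, mul_inv_cancel₀ (hμ l), C_1]
    simp only [C_mul]
    linear_combination C κ' * (s l E' * ∏ j ∈ univ.erase l, s j E') * k1
  have hD0 : ∀ l, D l ≠ 0 := fun l e => by
    have := hD1 l
    rw [e, mul_zero, mul_zero] at this
    exact mul_ne_zero (C_ne_zero.2 κ0) Pr0 this.symm
  have hD2 : ∀ l, (D l).natDegree + E'.natDegree = Pr.natDegree := fun l => by
    have := congrArg natDegree (hD1 l)
    rwa [natDegree_C_mul (hμ l), natDegree_C_mul κ0, natDegree_mul (s0 l _ hE') (hD0 l), sd,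
      add_comm] at this
  have hG2 : ∀ l Z, C (μ l) * (s l f₀ + s l E' * (t₀ l + D l * Z)) + ε l = G₀ + C κ' * Pr * Z :=
    fun l Z => by linear_combination -ht₀ l + Z * hD1 l
  have hQ : ∀ l g, s l (A * g ^ 2 + Q) = C (u l) * (A * (C (μ l) * s l g + ε l) ^ 2 + Q) :=
    fun l g => by
      rw [map_add, map_mul, map_pow, sA, sQ]
      linear_combination (-(C (u l) * A * C (μ l) * s l g * ε l)) * h2
  have hI : ∀ l Z, s l a * (s l E * D l * Z + (s l x + s l E * t₀ l)) ^ 2 + s l c =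
      s l d * (C (u l) * (A * (G₀ + C κ' * Pr * Z) ^ 2 + Q)) := fun l Z => by
    have h3 := congrArg (s l) (hid ((s l).symm (t₀ l + D l * Z)))
    rw [map_mul _ d, hQ] at h3
    simp only [map_add, map_mul, map_pow, RingEquiv.apply_symm_apply] at h3
    rw [hG2] at h3
    linear_combination h3
  have hy' : ∀ j, s j E' ∣ C (u j) * (A * G₀ ^ 2 + Q) - s j (A * f₀ ^ 2 + Q) := fun j => by
    rw [hQ, ht₀ j]
    exact ⟨C (u j) * A * C (μ j) * t₀ j * (C (μ j) * (2 * s j f₀ + s j E' * t₀ j) + 2 * ε j),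
      by ring⟩
  obtain ⟨n₀, hn⟩ := tupN hT hk (a := A * (C κ' * Pr) ^ 2) (c := A * G₀ ^ 2 + Q)
    (s := E.natDegree + (Pr.natDegree - E'.natDegree)) (U := fun l => s l E * D l)
    (V := fun l => s l x + s l E * t₀ l) (fun l => mul_ne_zero (s0 l _ hE) (hD0 l))
    (fun l => by
      rw [natDegree_mul (s0 l _ hE) (hD0 l), sd]
      have := hD2 l
      omega)
    (fun l j e e' => by
      obtain ⟨E₁, c₁, d₁, v, -, e2, e3, e4, -, -, e7⟩ := hp l j e
      have a0 := hI l 0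
      have a1 := hI l 1
      have b0 := hI j 0
      have b1 := hI j 1
      have k0 : (s l E * D l) ^ 2 * (C (u j) * s j d * s l c + C (u l) * s l d * s j c) = 0 := by
        generalize s l E * D l = Ul, s j E * D j = Uj, s l x + s l E * t₀ l = Vl,
          s j x + s j E * t₀ j = Vj, A * (G₀ + C κ' * Pr * 0) ^ 2 + Q = Q0,
          A * (G₀ + C κ' * Pr * 1) ^ 2 + Q = Q1 at *
        linear_combination (C (u j) * s j d * (Ul ^ 2 + Vl ^ 2)) * a0 +
          (C (u l) * s l d * (Ul ^ 2 + Vl ^ 2)) * b0 + (C (u j) * s j d * Vl ^ 2) * a1 +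
          (C (u l) * s l d * Vl ^ 2) * b1 +
          (C (u l) * s l d * s j a * (Uj * Vl + Ul * Vj)) * e' +
          (-(C (u j) * s j d * s l a * (Ul ^ 2 * Vl ^ 2 + Vl ^ 4 + Ul * Vl ^ 3)) -
            C (u l) * s l d * s j a * (Ul ^ 2 * Vj ^ 2 + Vl ^ 2 * Vj ^ 2 + Uj ^ 2 * Vl ^ 2 +
              Uj * Vj * Vl ^ 2 + Uj * Vl * Ul * Vj) -
            Vl ^ 2 * (C (u j) * s j d * s l c + C (u l) * s l d * s j c) +
            C (u l) * C (u j) * s l d * s j d * ((Ul ^ 2 + Vl ^ 2) * Q0 + Vl ^ 2 * Q1)) * h2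
      have k1 := (mul_eq_zero.1 k0).resolve_left
        (pow_ne_zero 2 (mul_ne_zero (s0 l _ hE) (hD0 l)))
      rw [e2, e3, e4, C_mul] at k1
      refine e7 ((s j).injective (mul_left_cancel₀ (C_ne_zero.2 (hu j)) ?_))
      simp only [map_mul, sC]
      linear_combination k1 - C (u j) * C v * s j d₁ * s j c * h2)
    (fun e => by
      have h3 := der_sq e
      rw [show A * (C κ' * Pr) ^ 2 * (A * G₀ ^ 2 + Q) = (C κ' * Pr * A * G₀) ^ 2 +
        (C κ' * Pr) ^ 2 * (A * Q) by ring, derivative_add, derivative_mul (f := _ ^ 2),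
        der_sq ⟨_, sq _⟩, der_sq ⟨_, sq _⟩, zero_mul, zero_add, zero_add] at h3
      exact mul_ne_zero (pow_ne_zero 2 (mul_ne_zero (C_ne_zero.2 κ0) Pr0)) hns h3)
    (fun R hR e e' => by
      rcases hR.prime.dvd_or_dvd e with e | e
      · exact hR.not_isUnit (hAQ.isUnit_of_dvd' e ((dvd_add_right (e.mul_right _)).1 e'))
      · have e1 := (unitC κ0).dvd_mul_left.1 (hR.prime.dvd_of_dvd_pow e)
        rw [hPr] at e1
        obtain ⟨j, -, hj⟩ := (hR.prime.dvd_finsetProd_iff _).1 e1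
        exact hR.not_isUnit ((cop j _ _ hy).isUnit_of_dvd'
          ((dvd_sub_right (e'.mul_left _)).1 (hj.trans (hy' j))) hj))
    (fun R hR l e e' => by
      rcases hR.prime.dvd_or_dvd e with e | e
      · exact hR.not_isUnit ((cop l _ _ hx).isUnit_of_dvd'
          ((dvd_add_left (e.mul_right _)).1 e') e)
      · rw [hD] at e
        obtain ⟨j, j1, hj⟩ := (hR.prime.dvd_finsetProd_iff _).1
          ((unitC (mul_ne_zero κ0 (inv_ne_zero (hμ l)))).dvd_mul_left.1 e)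
        obtain ⟨E₁, c₁, d₁, v, -, e2, e3, e4, -, e6, -⟩ := hp l j (ne_of_mem_erase j1).symm
        refine hR.not_isUnit ((cop j _ _ e6).isUnit_of_dvd' hj ?_)
        have a0 := hI l 0
        rw [e2, e3, e4, C_mul] at a0
        have a1 := dvd_add ((hj.trans (hy' j)).mul_left (C v * s j d₁))
          (e'.mul_left (s l a * (s l x + s l E * t₀ l)))
        rw [map_add, map_mul, map_mul, sC]
        convert a1 using 1
        linear_combination a0 + (C v * s j d₁ * s j (A * f₀ ^ 2 + Q) -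
          s l a * (s l x + s l E * t₀ l) ^ 2) * h2)
  obtain ⟨m', hm'⟩ := (Set.finite_range fun l =>
    (s l x + s l E * t₀ l).natDegree + (G₀ - ε l).natDegree).bddAbove
  refine ⟨n₀ + m' + 1 + (E.natDegree + (Pr.natDegree - E'.natDegree)), fun n h1 => ?_⟩
  obtain ⟨Z, f1, f3, l, f4⟩ := hn (n - (E.natDegree + (Pr.natDegree - E'.natDegree))) (by omega)
  obtain ⟨z1, z2⟩ := mem_monF.1 f1
  have b1 : (s l x + s l E * t₀ l).natDegree + (G₀ - ε l).natDegree ≤ m' := hm' ⟨l, rfl⟩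
  have b2 : s l (x + E * (s l).symm (t₀ l + D l * Z)) =
      s l E * D l * Z + (s l x + s l E * t₀ l) := by
    rw [map_add, map_mul, RingEquiv.apply_symm_apply]
    ring
  have b3 : C (μ l) * s l (f₀ + E' * (s l).symm (t₀ l + D l * Z)) + ε l = G₀ + C κ' * Pr * Z := by
    rw [map_add, map_mul, RingEquiv.apply_symm_apply, hG2]
  refine ⟨l, (s l).symm (t₀ l + D l * Z), ?_, (MulEquiv.irreducible_iff (s l)).1 (b2 ▸ f4),
    (MulEquiv.irreducible_iff (s l)).1 ?_, ?_⟩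
  · have b4 : (s l E * D l * Z).natDegree = n := by
      rw [natDegree_mul (mul_ne_zero (s0 l _ hE) (hD0 l)) z1.ne_zero,
        natDegree_mul (s0 l _ hE) (hD0 l), sd]
      have := hD2 l
      omega
    rw [← sd l, b2, natDegree_add_eq_left_of_natDegree_lt (by omega), b4]
  · rw [hQ, b3, irreducible_isUnit_mul (unitC (hu l))]
    convert f3 using 1
    linear_combination A * G₀ * (C κ' * Pr * Z) * h2
  · rw [eq_sub_of_add_eq b3, show G₀ + C κ' * Pr * Z - ε l = G₀ - ε l + C κ' * Pr * Z by ring,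
      leadingCoeff_add_of_degree_lt (degree_lt_degree (by
        rw [natDegree_mul (mul_ne_zero (C_ne_zero.2 κ0) Pr0) z1.ne_zero]
        omega)), leadingCoeff_mul, leadingCoeff_mul, leadingCoeff_C, z1.leadingCoeff, mul_one, hκ',
      inv_mul_cancel_right₀ (leadingCoeff_ne_zero.2 Pr0)]

end Pool.Agent.PPg
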