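import Pool.Agent.MP_f37147_nt.G.St

/- Prime pairs over `F[X]`, general linear forms: summation over all pieces. -/

set_option autoImplicit false
set_option linter.unusedSectionVars false

namespace Pool.Agent.PPg

open Polynomial Finset Pool.Agent.MP_4fffd4_nt Pool.Agent.MP_c853c5_nt Pool.Agent.MP_43e117_nt
open Pool.Agent.PPf
open scoped BigOperators

namespace TotalGX

variable {F : Type} [Field F] [Fintype F] [CharP F 2]

variable {Ψ ν κ : F[X] → ℝ} {h u u' : F[X]} {n s R T G E' E Θ : ℕ} {Q δ C ε ε' : ℝ} {ι : Type}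
  {Z : Finset ι} {a b α : ι → F[X] → ℝ}

theorem abs_corr (hΨ : ∀ f ∈ monF F n, 0 ≤ Ψ f) (hν : ∀ f, 0 ≤ ν f) (i i' : ℕ) :
    |cG h u u' n Ψ (nl ν i) (nl ν i')| ≤
      cG h u u' n Ψ (fun f => ν f * up (fun d => |mu d|) i f)
        fun f => ν f * up (fun d => |mu d|) i' f := by
  have key₀ : ∀ i f, |nl ν i f| ≤ ν f * up (fun d => |mu d|) i f := fun i f => by
    rw [nl, abs_mul, abs_of_nonneg (hν f)]
    refine mul_le_mul_of_nonneg_left ((Finset.abs_sum_le_sum_abs _ _).trans_eq ?_) (hν f)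
    exact Finset.sum_congr rfl fun D _ => by rw [abs_mul, abs_of_nonneg (ind_nonneg _)]
  have key : ∀ v i f, |lf v (nl ν i) f| ≤ lf v (fun f => ν f * up (fun d => |mu d|) i f) f :=
    fun v i f => by
      rw [lf, lf, abs_mul, abs_of_nonneg (ind_nonneg _)]
      exact mul_le_mul_of_nonneg_left (key₀ _ _) (ind_nonneg _)
  refine (Finset.abs_sum_le_sum_abs _ _).trans (Finset.sum_le_sum fun f hf => ?_)
  simp only [tw]
  rw [abs_mul, abs_mul, abs_of_nonneg (hΨ f hf)]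
  exact mul_le_mul (mul_le_mul_of_nonneg_left (key _ _ _) (hΨ f hf)) (key _ _ _) (abs_nonneg _)
    (mul_nonneg (hΨ f hf) ((abs_nonneg _).trans (key _ _ _)))

theorem cases (h1 : SCaseG F) (hu : u ∈ monF F s) (hu' : u' ∈ monF F s) (hn : h.natDegree < n)
    (hδ : 0 ≤ δ) (hE : EstG Ψ h u u' n s G E' E δ)
    (hE' : EstG (fun f => Ψ (f + h)) h u' u n s G E' E δ)
    (hΨ : ∀ f ∈ monF F (n + s), 0 ≤ Ψ f ∧ Ψ f ≤ 1)
    (hs : Sieve n R Q ν κ Z a b α) (hτ : DivB F Q n) (hQ : (n : ℝ) + 2 ≤ Q)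
    (hG : 20 * (R + 2 * T) + 20 * E' ≤ G) (hG' : G ≤ n) (hEE : E ≤ E') (hE1 : 1 ≤ E)
    (hε : ε = qq F T * Q ^ 7 * δ + 5 * Q ^ 11 * (2 * qq F (n + s) / qq F T)) {i i' : ℕ}
    (hi : i ≤ n) (hi' : i' ≤ n) :
    Thin n G (R + 2 * T) E' (E + 2 * T) i i' ∨
      |cG h u u' (n + s) Ψ (nl ν i) (nl ν i') - qq F (n + s) *
        mG h u u' (5 * n) Ψ (tr κ (R + 2 * T) i) (tr κ (R + 2 * T) i')| ≤ ε ∨
      ((2 * (R + 2 * T) ≤ i ∨ 2 * (R + 2 * T) ≤ i') ∧
        |cG h u u' (n + s) Ψ (nl ν i) (nl ν i')| ≤ ε) := by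
  have hd₀ : h.degree < n := degree_le_natDegree.trans_lt (by exact_mod_cast hn)
  have hd : h.degree < (n + s : ℕ) := hd₀.trans_le (by exact_mod_cast (by omega))
  have hd5 : h.degree < (5 * n : ℕ) := hd₀.trans_le (by exact_mod_cast (by omega))
  have hb : ∀ f ∈ monF F (n + s), |Ψ f| ≤ 1 := fun f hf => by
    rw [abs_of_nonneg (hΨ f hf).1]; exact (hΨ f hf).2
  subst hε
  rcases le_total i i' with hle | hle
  · rcases h1 Ψ ν κ h u u' n s R T G E' E i' i Q δ ι Z a b α hu hu' hn hδ hE hb hs hτ hQ hG hG' hEE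
      hE1 hi' hle with H | H | H
    · exact Or.inl (TotalX.thin_comm H)
    · exact Or.inr (Or.inl H)
    · exact Or.inr (Or.inr ⟨Or.inr H.1, H.2⟩)
  · rw [cG_swap hd, mG_swap hd5]
    rcases h1 (fun f => Ψ (f + h)) ν κ h u' u n s R T G E' E i i' Q δ ι Z a b α hu' hu hn hδ hE'
      (fun f hf => hb _ (add_mem_mon hd hf)) hs hτ hQ hG hG' hEE hE1 hi hle with H | H | H
    · exact Or.inl H
    · exact Or.inr (Or.inl H)
    · exact Or.inr (Or.inr ⟨Or.inl H.1, H.2⟩)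

theorem one (hs : Sieve n R Q ν κ Z a b α) {g : F[X]} (hg : g ∈ monF F n) :
    (n : ℝ) * ind (Irreducible g) ≤ ν g * vm g := by
  by_cases hi : Irreducible g
  · obtain ⟨h1, h2⟩ := mem_monF.1 hg
    have := vm_pow h1 hi one_pos
    rw [pow_one, h2] at this
    rw [hs.one g h1 hi h2, this, one_mul, ind_pos hi, mul_one]
  · rw [ind_neg hi, mul_zero]
    exact mul_nonneg (hs.nonneg _) (vm_nonneg _)

theorem lift (hn : 1 ≤ n) (hs : Sieve n R Q ν κ Z a b α) (hu : u ∈ monF F s) {g : F[X]}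
    (hg : g ∈ monF F (n + s)) : ∑ i ∈ range (n + 1), lf u (nl ν i) g = 0 ∧
      (n : ℝ) * lf u (fun f => ind (Irreducible f)) g ≤
        ∑ i ∈ range n, ((n : ℝ) - i) * lf u (nl ν i) g := by
  by_cases e : u ∣ g
  · obtain ⟨L, rfl⟩ := e
    have hL := quo_mem hu hg
    simp only [lf_mul (mem_monF.1 hu).1]
    exact ⟨TotalX.sum_nl hn hL, (one hs hL).trans_eq (TotalX.vm_nl hn hL).symm⟩
  · simp [lf_not _ e]

end TotalGX

variable (F : Type) [Field F] [Fintype F] [CharP F 2]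

open TotalGX in
theorem sTotalG (h1 : SCaseG F) (h2 : SOmega) : STotalG F := by
  classical
  intro Ψ ν κ h u u' n s R T G E' E Θ Q δ C ε' Mn ι Z a b α hu hu' hn hδ hE hE' hΨ hs hτ hQ hG hG'
    hEE hE1 hΘ hΘ' hC hM hε' hm hMn
  obtain ⟨o1, o2, o3, o4, o5⟩ := h2 n G (R + 2 * T) E' (E + 2 * T) Θ hG hG' (by omega) hΘ hΘ'
  have hd : h.degree < (n + s : ℕ) :=
    degree_le_natDegree.trans_lt (by exact_mod_cast (by omega))
  have hq := qq_pos (F := F) (n + s)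
  have hq' := qq_pos (F := F) T
  have hQ0 : 0 < Q := one_pos.trans_le hτ.one_le
  obtain ⟨ε, hε⟩ : ∃ ε, ε = qq F T * Q ^ 7 * δ + 5 * Q ^ 11 * (2 * qq F (n + s) / qq F T) :=
    ⟨_, rfl⟩
  have hε0 : 0 ≤ ε := by rw [hε]; positivity
  have hC' : 0 ≤ C * qq F (n + s) / (n : ℝ) ^ 2 := by positivity
  have hn0 : (0 : ℝ) ≤ n := Nat.cast_nonneg n
  rw [← hε]
  have e1 : (n : ℝ) ^ 2 * cG h u u' (n + s) Ψ (fun f => ind (Irreducible f))
      (fun f => ind (Irreducible f)) ≤ ∑ i ∈ range (n + 1), ∑ i' ∈ range (n + 1),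
        omg n G (R + 2 * T) Θ i i' * cG h u u' (n + s) Ψ (nl ν i) (nl ν i') := by
    have e : ∑ i ∈ range (n + 1), ∑ i' ∈ range (n + 1),
        omg n G (R + 2 * T) Θ i i' * cG h u u' (n + s) Ψ (nl ν i) (nl ν i') =
        ∑ f ∈ monF F (n + s), Ψ f * ∑ i ∈ range (n + 1), ∑ i' ∈ range (n + 1),
          omg n G (R + 2 * T) Θ i i' * (lf u (nl ν i) f * lf u' (nl ν i') (f + h)) := by
      simp only [cG, corr, tw, Finset.mul_sum]
      rw [Finset.sum_comm (s := monF F (n + s))]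
      refine Finset.sum_congr rfl fun i _ => ?_
      rw [Finset.sum_comm (s := monF F (n + s))]
      exact Finset.sum_congr rfl fun i' _ => Finset.sum_congr rfl fun f _ => by ring
    rw [e, cG, corr, Finset.mul_sum]
    refine Finset.sum_le_sum fun f hf => ?_
    obtain ⟨a1, a2⟩ := lift (by omega) hs hu hf
    obtain ⟨b1, b2⟩ := lift (by omega) hs hu' (add_mem_mon hd hf)
    have p : ∀ v g : F[X], 0 ≤ (n : ℝ) * lf v (fun f => ind (Irreducible f)) g := fun v g =>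
      mul_nonneg hn0 (mul_nonneg (ind_nonneg _) (ind_nonneg _))
    rw [o4 (fun i => lf u (nl ν i) f) (fun i => lf u' (nl ν i) (f + h)) a1 b1]
    refine le_of_eq_of_le ?_ (mul_le_mul_of_nonneg_left
      (mul_le_mul a2 b2 (p _ _) ((p _ _).trans a2)) (hΨ f hf).1)
    rw [tw]
    ring
  have e2 : ∑ i ∈ range (n + 1), ∑ i' ∈ range (n + 1), omg n G (R + 2 * T) Θ i i' *
      (ind (i < 2 * (R + 2 * T)) * (ind (i' < 2 * (R + 2 * T)) * (qq F (n + s) *
        mG h u u' (5 * n) Ψ (tr κ (R + 2 * T) i) (tr κ (R + 2 * T) i')))) =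
      qq F (n + s) * ∑ i ∈ range (2 * (R + 2 * T)), ∑ i' ∈ range (2 * (R + 2 * T)),
        ((n : ℝ) - i) * ((n : ℝ) - i') *
          mG h u u' (5 * n) Ψ (tr κ (R + 2 * T) i) (tr κ (R + 2 * T) i') := by
    rw [← TSum.sum_ind_lt (n := n + 1) (I := 2 * (R + 2 * T)) (by omega), Finset.mul_sum]
    refine Finset.sum_congr rfl fun i _ => ?_
    rw [← TSum.sum_ind_lt (n := n + 1) (I := 2 * (R + 2 * T)) (by omega), Finset.mul_sum,
      Finset.mul_sum]
    refine Finset.sum_congr rfl fun i' _ => ?_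
    by_cases c1 : i < 2 * (R + 2 * T)
    · by_cases c2 : i' < 2 * (R + 2 * T)
      · rw [o2 i i' c1 c2]; ring
      · rw [ind_neg c2]; ring
    · rw [ind_neg c1]; ring
  have e3 := Finset.sum_le_sum (s := range (n + 1)) fun i hi =>
    Finset.sum_le_sum (s := range (n + 1)) fun i' hi' =>
      TotalX.term (C := C * qq F (n + s) / (n : ℝ) ^ 2) (w := omg n G (R + 2 * T) Θ i i')
        (c := cG h u u' (n + s) Ψ (nl ν i) (nl ν i'))
        (m := mG h u u' (5 * n) Ψ (tr κ (R + 2 * T) i) (tr κ (R + 2 * T) i'))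
        hG hEE (Nat.lt_succ_iff.1 (mem_range.1 hi)) (Nat.lt_succ_iff.1 (mem_range.1 hi')) hq.le
        hε0 hε' hC'
        (o1 i i' (Nat.lt_succ_iff.1 (mem_range.1 hi)) (Nat.lt_succ_iff.1 (mem_range.1 hi')))
        (o3 i i' (Nat.lt_succ_iff.1 (mem_range.1 hi)) (Nat.lt_succ_iff.1 (mem_range.1 hi')))
        (fun c1 c2 c3 => (mul_le_mul_of_nonneg_left
          (abs_corr (fun f hf => (hΨ f hf).1) hs.nonneg i i')
          (mul_nonneg (sub_nonneg.2 (by exact_mod_cast c1.le))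
            (sub_nonneg.2 (by exact_mod_cast c2.le)))).trans (hM i i' c1 c2 c3))
        (hm i i' (Nat.lt_succ_iff.1 (mem_range.1 hi)) (Nat.lt_succ_iff.1 (mem_range.1 hi')))
        (cases h1 hu hu' hn hδ hE hE' hΨ hs hτ hQ hG hG' hEE hE1 hε
          (Nat.lt_succ_iff.1 (mem_range.1 hi)) (Nat.lt_succ_iff.1 (mem_range.1 hi')))
  simp only [mul_sub (omg n G (R + 2 * T) Θ _ _), Finset.sum_sub_distrib, Finset.sum_add_distrib,
    Finset.sum_const, card_range, nsmul_eq_mul, ← Finset.sum_mul] at e3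
  rw [e2, TotalX.drop_last] at e3
  have e4 := mul_le_mul_of_nonneg_right o5 hC'
  have e5 := mul_le_mul_of_nonneg_left hMn hq.le
  have e6 : ((n + 1 : ℕ) : ℝ) * (((n + 1 : ℕ) : ℝ) *
      (2 * (n : ℝ) ^ 2 * (ε + qq F (n + s) * ε'))) ≤ 2 * Q ^ 4 * (ε + qq F (n + s) * ε') := by
    have b1 : ((n + 1 : ℕ) : ℝ) ≤ Q := by push_cast; linarith
    have b2 : (n : ℝ) ≤ Q := by linarith
    calc _ ≤ Q * (Q * (2 * Q ^ 2 * (ε + qq F (n + s) * ε'))) := by gcongr
      _ = _ := by ring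
  linarith

end Pool.Agent.PPg
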